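import Pool.Agent.TH99.NL.Osc

set_option autoImplicit false

/-!
# A bilinear estimate for sums of an oscillating function over sums of two sets
-/

namespace Pool.Agent.TH99.NL

open Complex MeasureTheory Set Filter Topology

/-- the mean square of a sum over a family of oscillating functions -/
lemma l2 (p q : ℝ) (hpq : p ≤ q) (B : Finset ℝ) (w : ℝ) (hw : den B w) (N : ℕ)
    (hN : ∀ b ∈ B, ∀ b' ∈ B, |b - b'| ≤ N)
    (c c1 : ℝ → ℝ → ℂ) (F F1 F2 : ℝ → ℝ → ℝ) (a0 a1 l P3 : ℝ) (hl : 0 < l) (ha0 : 0 ≤ a0)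
    (ha1 : 0 ≤ a1) (hP3 : 0 ≤ P3)
    (dc : ∀ b ∈ B, ∀ u ∈ Icc p q, HasDerivAt (c b) (c1 b u) u)
    (cc1 : ∀ b ∈ B, ContinuousOn (c1 b) (Icc p q))
    (d0 : ∀ b ∈ B, ∀ u ∈ Icc p q, HasDerivAt (F b) (F1 b u) u)
    (d1 : ∀ b ∈ B, ∀ u ∈ Icc p q, HasDerivAt (F1 b) (F2 b u) u)
    (cF2 : ∀ b ∈ B, ContinuousOn (F2 b) (Icc p q))
    (b0 : ∀ b ∈ B, ∀ u ∈ Icc p q, ‖c b u‖ ≤ a0) (b1 : ∀ b ∈ B, ∀ u ∈ Icc p q, ‖c1 b u‖ ≤ a1)
    (bl : ∀ b ∈ B, ∀ b' ∈ B, ∀ u ∈ Icc p q, l * |b - b'| ≤ |F1 b u - F1 b' u|)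
    (b3 : ∀ b ∈ B, ∀ b' ∈ B, ∀ u ∈ Icc p q, |F2 b u - F2 b' u| ≤ P3 * |b - b'|) :
    ∫ u in p..q, ‖∑ b ∈ B, c b u * cexp (I * (F b u : ℂ))‖ ^ 2 ≤
      B.card * (3 * w * (2 + Real.log (N + 1))) *
        ((q - p) * a0 ^ 2 + 2 * a0 ^ 2 / l + (q - p) * (2 * a0 * a1 / l + a0 ^ 2 * P3 / l ^ 2)) := by
  classical
  obtain ⟨Q', hQ'⟩ : ∃ Q' : ℝ, Q' = (q - p) * a0 ^ 2 + 2 * a0 ^ 2 / l +
    (q - p) * (2 * a0 * a1 / l + a0 ^ 2 * P3 / l ^ 2) := ⟨_, rfl⟩
  rw [← hQ']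
  have hqp : 0 ≤ q - p := by linarith
  have hQ0 : 0 ≤ Q' := by rw [hQ']; positivity
  have hQa : (q - p) * a0 ^ 2 ≤ Q' := by
    rw [hQ']
    have : 0 ≤ 2 * a0 ^ 2 / l + (q - p) * (2 * a0 * a1 / l + a0 ^ 2 * P3 / l ^ 2) := by positivity
    linarith
  have hQb : 2 * a0 ^ 2 / l + (q - p) * (2 * a0 * a1 / l + a0 ^ 2 * P3 / l ^ 2) ≤ Q' := by
    rw [hQ']
    have : 0 ≤ (q - p) * a0 ^ 2 := by positivity
    linarith
  obtain ⟨g, hg⟩ : ∃ g : ℝ → ℝ → ℂ, g = fun b u => c b u * cexp (I * (F b u : ℂ)) :=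
    ⟨_, rfl⟩
  have cc0 : ∀ b ∈ B, ContinuousOn (c b) (Icc p q) :=
    fun b hb x hx => (dc b hb x hx).continuousAt.continuousWithinAt
  have cF : ∀ b ∈ B, ContinuousOn (F b) (Icc p q) :=
    fun b hb x hx => (d0 b hb x hx).continuousAt.continuousWithinAt
  have cg : ∀ b ∈ B, ContinuousOn (g b) (Icc p q) := by
    intro b hb
    rw [hg]
    apply (cc0 b hb).mul
    apply ContinuousOn.cexp
    exact continuousOn_const.mul (continuous_ofReal.comp_continuousOn (cF b hb))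
  have hgg : ∀ b ∈ B, ∀ b' ∈ B, IntervalIntegrable
      (fun u => g b u * (starRingEnd ℂ) (g b' u)) volume p q := by
    intro b hb b' hb'
    apply ContinuousOn.intervalIntegrable
    rw [uIcc_of_le hpq]
    exact (cg b hb).mul (continuous_conj.comp_continuousOn (cg b' hb'))
  have hexp : ∀ (u : ℝ) (b b' : ℝ), g b u * (starRingEnd ℂ) (g b' u) =
      (c b u * (starRingEnd ℂ) (c b' u)) *
        cexp (I * ((F b u - F b' u : ℝ) : ℂ)) := by
    intro u b b'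
    rw [hg]
    simp only [map_mul, ← Complex.exp_conj, conj_I, conj_ofReal]
    have : cexp (I * ((F b u - F b' u : ℝ) : ℂ)) =
        cexp (I * (F b u : ℂ)) * cexp (-I * (F b' u : ℂ)) := by
      rw [← Complex.exp_add]
      congr 1
      push_cast
      ring
    rw [this]
    ring
  -- the two estimates of one integral
  have hone : ∀ b ∈ B, ∀ b' ∈ B, ‖∫ u in p..q, g b u * (starRingEnd ℂ) (g b' u)‖ ≤
      Q' * (1 / (max 1 ((⌊|b - b'|⌋₊ : ℕ) : ℝ))) := by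
    intro b hb b' hb'
    rcases lt_or_ge (|b - b'|) 1 with h | h
    · have hf : ⌊|b - b'|⌋₊ = 0 := by
        rw [Nat.floor_eq_zero]; exact h
      rw [hf]
      simp only [Nat.cast_zero]
      rw [max_eq_left (by norm_num : (0 : ℝ) ≤ 1), div_one, mul_one]
      refine le_trans ?_ hQa
      have h1 : ∀ u ∈ Set.uIoc p q, ‖g b u * (starRingEnd ℂ) (g b' u)‖ ≤ a0 ^ 2 := by
        intro u hu
        rw [uIoc_of_le hpq] at hu
        have hu' : u ∈ Icc p q := ⟨hu.1.le, hu.2⟩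
        rw [hexp, norm_mul, mul_comm I, Complex.norm_exp_ofReal_mul_I, mul_one, norm_mul,
          Complex.norm_conj, sq]
        exact mul_le_mul (b0 _ hb _ hu') (b0 _ hb' _ hu') (norm_nonneg _) ha0
      have h2 := intervalIntegral.norm_integral_le_of_norm_le_const h1
      rw [abs_of_nonneg hqp] at h2
      linarith
    · have hb0 : 0 < |b - b'| := by linarith
      have h1 : ∀ u ∈ Icc p q, HasDerivAt (fun u => c b u * (starRingEnd ℂ) (c b' u))
          (c1 b u * (starRingEnd ℂ) (c b' u) + c b u * (starRingEnd ℂ) (c1 b' u)) u := by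
        intro u hu
        have e3 : HasDerivAt (fun u => (starRingEnd ℂ) (c b' u))
            ((starRingEnd ℂ) (c1 b' u)) u := by
          have := (dc b' hb' u hu).star
          exact this
        exact (dc b hb u hu).mul e3
      have hl' : 0 < l * |b - b'| := by positivity
      have h2 := osc p q hpq (fun u => c b u * (starRingEnd ℂ) (c b' u))
        (fun u => c1 b u * (starRingEnd ℂ) (c b' u) + c b u * (starRingEnd ℂ) (c1 b' u))
        (fun u => F b u - F b' u) (fun u => F1 b u - F1 b' u)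
        (fun u => F2 b u - F2 b' u) (a0 ^ 2) (2 * a0 * a1) (l * |b - b'|)
        (P3 * |b - b'|) hl' (by positivity) (by positivity) h1
        (fun u hu => (d0 b hb u hu).sub (d0 b' hb' u hu))
        (fun u hu => (d1 b hb u hu).sub (d1 b' hb' u hu))
        (by
          intro u hu
          rw [norm_mul, Complex.norm_conj, sq]
          exact mul_le_mul (b0 _ hb _ hu) (b0 _ hb' _ hu) (norm_nonneg _) ha0)
        (by
          intro u hu
          refine (norm_add_le _ _).trans ?_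
          rw [norm_mul, norm_mul, Complex.norm_conj, Complex.norm_conj]
          have e1 := mul_le_mul (b1 _ hb _ hu) (b0 _ hb' _ hu) (norm_nonneg _) ha1
          have e2 := mul_le_mul (b0 _ hb _ hu) (b1 _ hb' _ hu) (norm_nonneg _) ha0
          linarith)
        (fun u hu => bl b hb b' hb' u hu)
        (fun u hu => b3 b hb b' hb' u hu)
        (((cc1 b hb).mul (continuous_conj.comp_continuousOn (cc0 b' hb'))).add
          ((cc0 b hb).mul (continuous_conj.comp_continuousOn (cc1 b' hb'))))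
        ((cF2 b hb).sub (cF2 b' hb'))
      have h3 : ∫ u in p..q, g b u * (starRingEnd ℂ) (g b' u) =
          ∫ u in p..q, c b u * (starRingEnd ℂ) (c b' u) *
            cexp (I * ((F b u - F b' u : ℝ) : ℂ)) := by
        congr 1
        ext u
        exact hexp u b b'
      rw [h3]
      refine h2.trans ?_
      have h4 : 2 * a0 ^ 2 / (l * |b - b'|) + (q - p) * (2 * a0 * a1 / (l * |b - b'|) +
          a0 ^ 2 * (P3 * |b - b'|) / (l * |b - b'|) ^ 2) =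
          (2 * a0 ^ 2 / l + (q - p) * (2 * a0 * a1 / l + a0 ^ 2 * P3 / l ^ 2)) *
            (1 / |b - b'|) := by
        field_simp
      rw [h4]
      have hf1 : 1 ≤ ⌊|b - b'|⌋₊ := Nat.le_floor (by rw [Nat.cast_one]; exact h)
      have hf1' : (1 : ℝ) ≤ ((⌊|b - b'|⌋₊ : ℕ) : ℝ) := by exact_mod_cast hf1
      rw [max_eq_right hf1']
      apply mul_le_mul hQb _ (by positivity) hQ0
      exact one_div_le_one_div_of_le (by linarith) (Nat.floor_le hb0.le)
  -- expand the square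
  have hsq : ∀ u : ℝ, ((‖∑ b ∈ B, c b u * cexp (I * (F b u : ℂ))‖ ^ 2 : ℝ) : ℂ) =
      ∑ b ∈ B, ∑ b' ∈ B, g b u * (starRingEnd ℂ) (g b' u) := by
    intro u
    have e1 : (∑ b ∈ B, c b u * cexp (I * (F b u : ℂ))) = ∑ b ∈ B, g b u := by rw [hg]
    rw [e1]
    push_cast
    rw [← Complex.mul_conj', map_sum, Finset.sum_mul_sum]
  have hint : ((∫ u in p..q, ‖∑ b ∈ B, c b u * cexp (I * (F b u : ℂ))‖ ^ 2 : ℝ) : ℂ) =
      ∑ b ∈ B, ∑ b' ∈ B, ∫ u in p..q, g b u * (starRingEnd ℂ) (g b' u) := by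
    rw [← intervalIntegral.integral_ofReal]
    simp_rw [hsq]
    rw [intervalIntegral.integral_finsetSum (fun b hb => by
      have : (fun u => ∑ b' ∈ B, g b u * (starRingEnd ℂ) (g b' u)) =
          ∑ b' ∈ B, fun u => g b u * (starRingEnd ℂ) (g b' u) := by
        ext u; rw [Finset.sum_apply]
      rw [this]
      exact IntervalIntegrable.sum B (fun b' hb' => hgg b hb b' hb'))]
    refine Finset.sum_congr rfl fun b hb => ?_
    rw [intervalIntegral.integral_finsetSum (fun b' hb' => hgg b hb b' hb')]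
  have hnn : 0 ≤ ∫ u in p..q, ‖∑ b ∈ B, c b u * cexp (I * (F b u : ℂ))‖ ^ 2 :=
    intervalIntegral.integral_nonneg hpq (fun u _ => by positivity)
  have hfin : ‖((∫ u in p..q, ‖∑ b ∈ B, c b u * cexp (I * (F b u : ℂ))‖ ^ 2 : ℝ) : ℂ)‖ ≤
      B.card * (3 * w * (2 + Real.log (N + 1))) * Q' := by
    rw [hint]
    have h1 : ∀ b ∈ B, ‖∑ b' ∈ B, ∫ u in p..q, g b u * (starRingEnd ℂ) (g b' u)‖ ≤
        Q' * (3 * w * (2 + Real.log (N + 1))) := by
      intro b hb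
      refine (norm_sum_le_of_le B (fun b' hb' => hone b hb b' hb')).trans ?_
      rw [← Finset.mul_sum]
      exact mul_le_mul_of_nonneg_left (sum_phi B w hw N b (fun b' hb' => hN b hb b' hb')) hQ0
    refine (norm_sum_le_of_le B h1).trans ?_
    rw [Finset.sum_const, nsmul_eq_mul]
    exact le_of_eq (by ring)
  rw [Complex.norm_real, Real.norm_eq_abs, abs_of_nonneg hnn] at hfin
  exact hfin

/-- from a sum to an integral -/
lemma disc (A : Finset ℝ) (w : ℝ) (hw : den A w) (p q : ℝ) (hpq : p ≤ q)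
    (hA : ∀ a ∈ A, p ≤ a ∧ a + 1 ≤ q) (G G' : ℝ → ℂ)
    (hG : ∀ u ∈ Icc p q, HasDerivAt G (G' u) u) (cG' : ContinuousOn G' (Icc p q)) :
    ∑ a ∈ A, ‖G a‖ ^ 2 ≤ 4 * w * ((∫ u in p..q, ‖G u‖ ^ 2) + ∫ u in p..q, ‖G' u‖ ^ 2) := by
  classical
  have cG : ContinuousOn G (Icc p q) := fun x hx => (hG x hx).continuousAt.continuousWithinAt
  obtain ⟨h, hh⟩ : ∃ h : ℝ → ℝ, h = fun u => ‖G u‖ ^ 2 + ‖G' u‖ ^ 2 := ⟨_, rfl⟩
  have hh0 : ∀ u, 0 ≤ h u := by intro u; rw [hh]; positivity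
  have ch : ContinuousOn h (Icc p q) := by
    rw [hh]; exact (cG.norm.pow 2).add (cG'.norm.pow 2)
  have ih : IntegrableOn h (Ioc p q) := (ch.integrableOn_Icc).mono_set Ioc_subset_Icc_self
  have step : ∀ a ∈ A, ‖G a‖ ^ 2 ≤ 2 * ∫ u in Ioc a (a + 1), h u := by
    intro a ha
    obtain ⟨ha1, ha2⟩ := hA a ha
    have hsub : Icc a (a + 1) ⊆ Icc p q := Icc_subset_Icc ha1 ha2
    have hd : ∀ u ∈ Icc a (a + 1), HasDerivAt (fun u => (a + 1 - u) * ‖G u‖ ^ 2)
        (-1 * ‖G u‖ ^ 2 + (a + 1 - u) * (2 * inner ℝ (G u) (G' u))) u := by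
      intro u hu
      have e1 : HasDerivAt (fun u => ‖G u‖ ^ 2) (2 * inner ℝ (G u) (G' u)) u :=
        (hG u (hsub hu)).norm_sq
      have e2 : HasDerivAt (fun u : ℝ => a + 1 - u) (-1) u := by
        simpa using (hasDerivAt_id u).const_sub (a + 1)
      exact e2.mul e1
    have cinn : ContinuousOn (fun u => inner ℝ (G u) (G' u)) (Icc a (a + 1)) :=
      (cG.mono hsub).inner (𝕜 := ℝ) (cG'.mono hsub)
    have cder : ContinuousOn (fun u => -1 * ‖G u‖ ^ 2 + (a + 1 - u) * (2 * inner ℝ (G u) (G' u)))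
        (Icc a (a + 1)) := by
      apply ContinuousOn.add
      · exact continuousOn_const.mul ((cG.mono hsub).norm.pow 2)
      · apply ContinuousOn.mul
        · exact (continuous_const.sub continuous_id).continuousOn
        · exact continuousOn_const.mul cinn
    have haa : a ≤ a + 1 := by linarith
    have e := intervalIntegral.integral_eq_sub_of_hasDerivAt (a := a) (b := a + 1)
      (fun u hu => hd u (by rwa [uIcc_of_le haa] at hu))
      (by apply ContinuousOn.intervalIntegrable; rwa [uIcc_of_le haa])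
    have e3 : ‖G a‖ ^ 2 = -∫ u in a..(a + 1),
        (-1 * ‖G u‖ ^ 2 + (a + 1 - u) * (2 * inner ℝ (G u) (G' u))) := by
      rw [e]; ring
    rw [e3, ← intervalIntegral.integral_neg, ← intervalIntegral.integral_of_le haa,
      ← intervalIntegral.integral_const_mul]
    apply intervalIntegral.integral_mono_on haa
    · apply ContinuousOn.intervalIntegrable
      rw [uIcc_of_le haa]
      exact cder.neg
    · apply ContinuousOn.intervalIntegrable
      rw [uIcc_of_le haa]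
      exact continuousOn_const.mul (ch.mono hsub)
    · intro u hu
      have e4 := abs_real_inner_le_norm (G u) (G' u)
      have e5 : -(inner ℝ (G u) (G' u)) ≤ ‖G u‖ * ‖G' u‖ := (neg_le_abs _).trans e4
      have e6 : 0 ≤ a + 1 - u := by linarith [hu.2]
      have e7 : a + 1 - u ≤ 1 := by linarith [hu.1]
      have e8 : (a + 1 - u) * (-(inner ℝ (G u) (G' u))) ≤ ‖G u‖ * ‖G' u‖ := by
        calc (a + 1 - u) * (-(inner ℝ (G u) (G' u))) ≤ (a + 1 - u) * (‖G u‖ * ‖G' u‖) :=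
              mul_le_mul_of_nonneg_left e5 e6
          _ ≤ 1 * (‖G u‖ * ‖G' u‖) := mul_le_mul_of_nonneg_right e7 (by positivity)
          _ = _ := one_mul _
      rw [hh]
      simp only
      nlinarith [sq_nonneg (‖G u‖ - ‖G' u‖), sq_nonneg (‖G' u‖)]
  have e1 : ∀ a ∈ A, ∫ u in Ioc a (a + 1), h u =
      ∫ u in Ioc p q, (Ioc a (a + 1)).indicator h u := by
    intro a ha
    rw [setIntegral_indicator measurableSet_Ioc]
    congr 2
    rw [Set.inter_eq_right.2]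
    exact Ioc_subset_Ioc (hA a ha).1 (hA a ha).2
  have e2 : ∑ a ∈ A, ∫ u in Ioc a (a + 1), h u ≤ 2 * w * ∫ u in Ioc p q, h u := by
    rw [Finset.sum_congr rfl e1, ← integral_finsetSum A
      (fun a _ => (ih.indicator measurableSet_Ioc)), ← integral_const_mul]
    apply integral_mono_of_nonneg
    · apply Filter.Eventually.of_forall
      intro u
      apply Finset.sum_nonneg
      intro a _
      exact Set.indicator_nonneg (fun x _ => hh0 x) u
    · exact ih.const_mul _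
    · apply Filter.Eventually.of_forall
      intro u
      simp only [Set.indicator_apply]
      rw [← Finset.sum_filter, Finset.sum_const, nsmul_eq_mul]
      apply mul_le_mul_of_nonneg_right _ (hh0 u)
      have h1 : A.filter (fun a => u ∈ Ioc a (a + 1)) ⊆
          (A.filter (fun a => (u - 1) ≤ a ∧ a < (u - 1) + 1)) ∪
          (A.filter (fun a => u ≤ a ∧ a < u + 1)) := by
        intro a ha
        rw [Finset.mem_filter, mem_Ioc] at ha
        rw [Finset.mem_union, Finset.mem_filter, Finset.mem_filter]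
        left
        exact ⟨ha.1, by linarith [ha.2.2], by linarith [ha.2.1]⟩
      have h2 := (Finset.card_le_card h1).trans (Finset.card_union_le _ _)
      have h3 : ((A.filter (fun a => u ∈ Ioc a (a + 1))).card : ℝ) ≤
          ((A.filter (fun a => (u - 1) ≤ a ∧ a < (u - 1) + 1)).card : ℝ) +
          ((A.filter (fun a => u ≤ a ∧ a < u + 1)).card : ℝ) := by exact_mod_cast h2
      linarith [hw (u - 1), hw u]
  have e3 : (∫ u in p..q, ‖G u‖ ^ 2) + ∫ u in p..q, ‖G' u‖ ^ 2 = ∫ u in Ioc p q, h u := by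
    rw [← intervalIntegral.integral_add, intervalIntegral.integral_of_le hpq, hh]
    · apply ContinuousOn.intervalIntegrable
      rw [uIcc_of_le hpq]
      exact cG.norm.pow 2
    · apply ContinuousOn.intervalIntegrable
      rw [uIcc_of_le hpq]
      exact cG'.norm.pow 2
  rw [e3]
  refine (Finset.sum_le_sum step).trans ?_
  rw [← Finset.mul_sum]
  linarith

/-- a family of amplitudes and phases at the scale `X` -/
structure Good (C L X p q : ℝ) (B : Finset ℝ) (c c1 c2 : ℝ → ℝ → ℂ) (F F1 F2 : ℝ → ℝ → ℝ) :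
    Prop where
  dc : ∀ b ∈ B, ∀ u ∈ Icc p q, HasDerivAt (c b) (c1 b u) u
  dc1 : ∀ b ∈ B, ∀ u ∈ Icc p q, HasDerivAt (c1 b) (c2 b u) u
  cc2 : ∀ b ∈ B, ContinuousOn (c2 b) (Icc p q)
  d0 : ∀ b ∈ B, ∀ u ∈ Icc p q, HasDerivAt (F b) (F1 b u) u
  d1 : ∀ b ∈ B, ∀ u ∈ Icc p q, HasDerivAt (F1 b) (F2 b u) u
  cF2 : ∀ b ∈ B, ContinuousOn (F2 b) (Icc p q)
  b0 : ∀ b ∈ B, ∀ u ∈ Icc p q, ‖c b u‖ ≤ C
  b1 : ∀ b ∈ B, ∀ u ∈ Icc p q, ‖c1 b u‖ ≤ C / X
  b2 : ∀ b ∈ B, ∀ u ∈ Icc p q, ‖c2 b u‖ ≤ C / X ^ 2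
  p1 : ∀ b ∈ B, ∀ u ∈ Icc p q, |F1 b u| ≤ C * L
  p2 : ∀ b ∈ B, ∀ u ∈ Icc p q, |F2 b u| ≤ C * L / X
  p3 : ∀ b ∈ B, ∀ b' ∈ B, ∀ u ∈ Icc p q, |F2 b u - F2 b' u| ≤ C * L / X ^ 2 * |b - b'|
  lam : ∀ b ∈ B, ∀ b' ∈ B, ∀ u ∈ Icc p q, 1 / (C * X) * |b - b'| ≤ |F1 b u - F1 b' u|

/-- the bilinear estimate -/
lemma bil (C L X : ℝ) (hC : 1 ≤ C) (hL : 1 ≤ L) (hX : 1 ≤ X) (A B : Finset ℝ) (p q : ℝ)
    (c c1 c2 : ℝ → ℝ → ℂ)
    (F F1 F2 : ℝ → ℝ → ℝ) (hg : Good C L X p q B c c1 c2 F F1 F2)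
    (hpq : p ≤ q) (hqp : q - p ≤ C * X)
    (w w' : ℝ) (hw' : den A w') (hw : den B w) (N : ℕ)
    (hA : ∀ a ∈ A, p ≤ a ∧ a + 1 ≤ q)
    (hN : ∀ b ∈ B, ∀ b' ∈ B, |b - b'| ≤ N) :
    ‖∑ a ∈ A, ∑ b ∈ B, c b a * cexp (I * (F b a : ℂ))‖ ^ 2 ≤
      (4 * w' * (3 * w * (2 + Real.log (N + 1))) * (34 * C ^ 8 * L ^ 3 * X)) *
        (A.card * B.card) := by
  classical
  have hX0 : 0 < X := by linarith
  have hC0 : 0 < C := by linarith
  have hL0 : 0 < L := by linarith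
  have hw0 : 0 ≤ w := le_trans (Nat.cast_nonneg _) (hw 0)
  have hw0' : 0 ≤ w' := le_trans (Nat.cast_nonneg _) (hw' 0)
  have hlogN : 0 ≤ Real.log ((N : ℝ) + 1) :=
    Real.log_nonneg (by linarith [(Nat.cast_nonneg N : (0 : ℝ) ≤ N)])
  obtain ⟨W, hW⟩ : ∃ W : ℝ, W = 3 * w * (2 + Real.log (N + 1)) := ⟨_, rfl⟩
  have hW0 : 0 ≤ W := by rw [hW]; positivity
  have hqp0 : 0 ≤ q - p := by linarith
  have cF1 : ∀ b ∈ B, ContinuousOn (F1 b) (Icc p q) := fun b hb x hx =>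
    (hg.d1 b hb x hx).continuousAt.continuousWithinAt
  have cF : ∀ b ∈ B, ContinuousOn (F b) (Icc p q) := fun b hb x hx =>
    (hg.d0 b hb x hx).continuousAt.continuousWithinAt
  have cc0 : ∀ b ∈ B, ContinuousOn (c b) (Icc p q) := fun b hb x hx =>
    (hg.dc b hb x hx).continuousAt.continuousWithinAt
  have cc1 : ∀ b ∈ B, ContinuousOn (c1 b) (Icc p q) := fun b hb x hx =>
    (hg.dc1 b hb x hx).continuousAt.continuousWithinAt
  -- the derived amplitude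
  obtain ⟨e, he⟩ : ∃ e : ℝ → ℝ → ℂ, e = fun b x => c1 b x + I * (F1 b x : ℂ) * c b x := ⟨_, rfl⟩
  obtain ⟨e1, he1⟩ : ∃ e1 : ℝ → ℝ → ℂ, e1 = fun b x => c2 b x + (I * (F2 b x : ℂ) * c b x +
    I * (F1 b x : ℂ) * c1 b x) := ⟨_, rfl⟩
  have de : ∀ b ∈ B, ∀ x ∈ Icc p q, HasDerivAt (e b) (e1 b x) x := by
    intro b hb x hx
    rw [he, he1]
    exact (hg.dc1 b hb x hx).add
      ((((hg.d1 b hb x hx).ofReal_comp).const_mul I).mul (hg.dc b hb x hx))
  have ce1 : ∀ b ∈ B, ContinuousOn (e1 b) (Icc p q) := by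
    intro b hb
    rw [he1]
    exact (hg.cc2 b hb).add (((continuousOn_const.mul
      (continuous_ofReal.comp_continuousOn (hg.cF2 b hb))).mul
      (cc0 b hb)).add ((continuousOn_const.mul
        (continuous_ofReal.comp_continuousOn (cF1 b hb))).mul (cc1 b hb)))
  have be : ∀ b ∈ B, ∀ x ∈ Icc p q, ‖e b x‖ ≤ 2 * C ^ 2 * L := by
    intro b hb x hx
    rw [he]
    refine (norm_add_le _ _).trans ?_
    rw [norm_mul, norm_mul, Complex.norm_I, one_mul, Complex.norm_real, Real.norm_eq_abs]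
    have h1 : ‖c1 b x‖ ≤ C ^ 2 * L := by
      refine (hg.b1 b hb x hx).trans ?_
      rw [div_le_iff₀ hX0]
      have h2 : C ≤ C ^ 2 := by nlinarith
      calc C ≤ C ^ 2 := h2
        _ = C ^ 2 * 1 * 1 := by ring
        _ ≤ C ^ 2 * L * X := by gcongr
    have h2 : |F1 b x| * ‖c b x‖ ≤ C ^ 2 * L := by
      calc |F1 b x| * ‖c b x‖ ≤ (C * L) * C :=
            mul_le_mul (hg.p1 b hb x hx) (hg.b0 b hb x hx) (norm_nonneg _) (by positivity)
        _ = _ := by ring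
    linarith
  have be1 : ∀ b ∈ B, ∀ x ∈ Icc p q, ‖e1 b x‖ ≤ 3 * C ^ 2 * L / X := by
    intro b hb x hx
    rw [he1]
    refine (norm_add_le _ _).trans ?_
    have h0 := norm_add_le (I * (F2 b x : ℂ) * c b x) (I * (F1 b x : ℂ) * c1 b x)
    rw [norm_mul, norm_mul, Complex.norm_I, one_mul, Complex.norm_real, Real.norm_eq_abs,
      norm_mul, norm_mul, Complex.norm_I, one_mul, Complex.norm_real, Real.norm_eq_abs] at h0
    have h1 : ‖c2 b x‖ ≤ C ^ 2 * L / X := by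
      refine (hg.b2 b hb x hx).trans ?_
      rw [div_le_div_iff₀ (by positivity) hX0]
      have h2 : C ≤ C ^ 2 := by nlinarith
      have h3 : X ≤ X ^ 2 := by nlinarith
      calc C * X ≤ C ^ 2 * X ^ 2 := by gcongr
        _ = C ^ 2 * 1 * X ^ 2 := by ring
        _ ≤ C ^ 2 * L * X ^ 2 := by gcongr
    have h2 : |F2 b x| * ‖c b x‖ ≤ C ^ 2 * L / X := by
      calc |F2 b x| * ‖c b x‖ ≤ (C * L / X) * C :=
            mul_le_mul (hg.p2 b hb x hx) (hg.b0 b hb x hx) (norm_nonneg _) (by positivity)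
        _ = _ := by ring
    have h3 : |F1 b x| * ‖c1 b x‖ ≤ C ^ 2 * L / X := by
      calc |F1 b x| * ‖c1 b x‖ ≤ (C * L) * (C / X) :=
            mul_le_mul (hg.p1 b hb x hx) (hg.b1 b hb x hx) (norm_nonneg _) (by positivity)
        _ = _ := by ring
    have h4 : 3 * C ^ 2 * L / X = C ^ 2 * L / X + C ^ 2 * L / X + C ^ 2 * L / X := by ring
    rw [h4]
    linarith
  have hlam : 0 < 1 / (C * X) := by positivity
  have i1 := l2 p q hpq B w hw N hN c c1 F F1 F2 C (C / X) (1 / (C * X))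
    (C * L / X ^ 2) hlam hC0.le (by positivity) (by positivity) hg.dc cc1 hg.d0 hg.d1 hg.cF2
    hg.b0 hg.b1 hg.lam hg.p3
  have i2 := l2 p q hpq B w hw N hN e e1 F F1 F2 (2 * C ^ 2 * L)
    (3 * C ^ 2 * L / X) (1 / (C * X))
    (C * L / X ^ 2) hlam (by positivity) (by positivity) (by positivity) de ce1 hg.d0 hg.d1
    hg.cF2 be be1 hg.lam hg.p3
  rw [← hW] at i1 i2
  have k1 : (q - p) * C ^ 2 + 2 * C ^ 2 / (1 / (C * X)) + (q - p) *
      (2 * C * (C / X) / (1 / (C * X)) + C ^ 2 * (C * L / X ^ 2) / (1 / (C * X)) ^ 2) ≤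
      6 * C ^ 8 * L ^ 3 * X := by
    have t1 : 2 * C ^ 2 / (1 / (C * X)) = 2 * C ^ 3 * X := by field_simp
    have t2 : 2 * C * (C / X) / (1 / (C * X)) = 2 * C ^ 3 := by field_simp
    have t3 : C ^ 2 * (C * L / X ^ 2) / (1 / (C * X)) ^ 2 = C ^ 5 * L := by field_simp
    rw [t1, t2, t3]
    have s1 : (q - p) * C ^ 2 ≤ C ^ 8 * L ^ 3 * X := by
      calc (q - p) * C ^ 2 ≤ (C * X) * C ^ 2 := by gcongr
        _ = C ^ 3 * 1 * X := by ring
        _ ≤ C ^ 8 * L ^ 3 * X := by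
          have u1 : C ^ 3 ≤ C ^ 8 := pow_le_pow_right₀ hC (by norm_num)
          have u2 : 1 ≤ L ^ 3 := one_le_pow₀ hL
          gcongr
    have s2 : 2 * C ^ 3 * X ≤ 2 * (C ^ 8 * L ^ 3 * X) := by
      calc 2 * C ^ 3 * X = 2 * (C ^ 3 * 1 * X) := by ring
        _ ≤ 2 * (C ^ 8 * L ^ 3 * X) := by
          have u1 : C ^ 3 ≤ C ^ 8 := pow_le_pow_right₀ hC (by norm_num)
          have u2 : 1 ≤ L ^ 3 := one_le_pow₀ hL
          gcongr
    have s3 : (q - p) * (2 * C ^ 3 + C ^ 5 * L) ≤ 3 * (C ^ 8 * L ^ 3 * X) := by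
      have u1 : C ^ 3 ≤ C ^ 7 := pow_le_pow_right₀ hC (by norm_num)
      have u2 : C ^ 5 ≤ C ^ 7 := pow_le_pow_right₀ hC (by norm_num)
      have u3 : 1 ≤ L ^ 3 := one_le_pow₀ hL
      have u4 : L ≤ L ^ 3 := by
        calc L = L ^ 1 := (pow_one L).symm
          _ ≤ L ^ 3 := pow_le_pow_right₀ hL (by norm_num)
      calc (q - p) * (2 * C ^ 3 + C ^ 5 * L) ≤ (C * X) * (2 * C ^ 3 + C ^ 5 * L) := by gcongr
        _ = (C * X) * (2 * (C ^ 3 * 1) + C ^ 5 * L) := by ring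
        _ ≤ (C * X) * (2 * (C ^ 7 * L ^ 3) + C ^ 7 * L ^ 3) := by gcongr
        _ = _ := by ring
    linarith
  have k2 : (q - p) * (2 * C ^ 2 * L) ^ 2 + 2 * (2 * C ^ 2 * L) ^ 2 / (1 / (C * X)) + (q - p) *
      (2 * (2 * C ^ 2 * L) * (3 * C ^ 2 * L / X) / (1 / (C * X)) +
        (2 * C ^ 2 * L) ^ 2 * (C * L / X ^ 2) / (1 / (C * X)) ^ 2) ≤
      28 * C ^ 8 * L ^ 3 * X := by
    have t1 : 2 * (2 * C ^ 2 * L) ^ 2 / (1 / (C * X)) = 8 * C ^ 5 * L ^ 2 * X := by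
      field_simp; ring
    have t2 : 2 * (2 * C ^ 2 * L) * (3 * C ^ 2 * L / X) / (1 / (C * X)) = 12 * C ^ 5 * L ^ 2 := by
      field_simp; ring
    have t3 : (2 * C ^ 2 * L) ^ 2 * (C * L / X ^ 2) / (1 / (C * X)) ^ 2 = 4 * C ^ 7 * L ^ 3 := by
      field_simp; ring
    rw [t1, t2, t3]
    have v2 : L ^ 2 ≤ L ^ 3 := pow_le_pow_right₀ hL (by norm_num)
    have s1 : (q - p) * (2 * C ^ 2 * L) ^ 2 ≤ 4 * (C ^ 8 * L ^ 3 * X) := by
      calc (q - p) * (2 * C ^ 2 * L) ^ 2 ≤ (C * X) * (2 * C ^ 2 * L) ^ 2 := by gcongr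
        _ = 4 * (C ^ 5 * L ^ 2 * X) := by ring
        _ ≤ 4 * (C ^ 8 * L ^ 3 * X) := by
          have u1 : C ^ 5 ≤ C ^ 8 := pow_le_pow_right₀ hC (by norm_num)
          gcongr
    have s2 : 8 * C ^ 5 * L ^ 2 * X ≤ 8 * (C ^ 8 * L ^ 3 * X) := by
      calc 8 * C ^ 5 * L ^ 2 * X = 8 * (C ^ 5 * L ^ 2 * X) := by ring
        _ ≤ 8 * (C ^ 8 * L ^ 3 * X) := by
          have u1 : C ^ 5 ≤ C ^ 8 := pow_le_pow_right₀ hC (by norm_num)
          gcongr
    have s3 : (q - p) * (12 * C ^ 5 * L ^ 2 + 4 * C ^ 7 * L ^ 3) ≤ 16 * (C ^ 8 * L ^ 3 * X) := by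
      have u1 : C ^ 5 ≤ C ^ 7 := pow_le_pow_right₀ hC (by norm_num)
      calc (q - p) * (12 * C ^ 5 * L ^ 2 + 4 * C ^ 7 * L ^ 3) ≤
            (C * X) * (12 * C ^ 7 * L ^ 3 + 4 * C ^ 7 * L ^ 3) := by gcongr
        _ = _ := by ring
    linarith
  have i1' := i1.trans (mul_le_mul_of_nonneg_left k1 (by positivity))
  have i2' := i2.trans (mul_le_mul_of_nonneg_left k2 (by positivity))
  -- the derivative of the sum
  have hd := disc A w' hw' p q hpq hA (fun u => ∑ b ∈ B, c b u * cexp (I * (F b u : ℂ)))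
    (fun u => ∑ b ∈ B, e b u * cexp (I * (F b u : ℂ)))
    (by
      intro u hu
      apply HasDerivAt.fun_sum
      intro b hb
      have h2 : HasDerivAt (fun u => ((F b u : ℝ) : ℂ)) ((F1 b u : ℝ) : ℂ) u :=
        (hg.d0 b hb u hu).ofReal_comp
      have h3 : HasDerivAt (fun u => cexp (I * (F b u : ℂ)))
          (cexp (I * (F b u : ℂ)) * (I * ((F1 b u : ℝ) : ℂ))) u := (h2.const_mul I).cexp
      refine ((hg.dc b hb u hu).mul h3).congr_deriv ?_
      rw [he]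
      ring)
    (by
      apply continuousOn_finsetSum
      intro b hb
      have ce : ContinuousOn (e b) (Icc p q) :=
        fun x hx => (de b hb x hx).continuousAt.continuousWithinAt
      apply ce.mul
      apply ContinuousOn.cexp
      exact continuousOn_const.mul (continuous_ofReal.comp_continuousOn (cF b hb)))
  have hcs : ‖∑ a ∈ A, ∑ b ∈ B, c b a * cexp (I * (F b a : ℂ))‖ ^ 2 ≤
      A.card * ∑ a ∈ A, ‖∑ b ∈ B, c b a * cexp (I * (F b a : ℂ))‖ ^ 2 := by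
    calc ‖∑ a ∈ A, ∑ b ∈ B, c b a * cexp (I * (F b a : ℂ))‖ ^ 2 ≤
          (∑ a ∈ A, ‖∑ b ∈ B, c b a * cexp (I * (F b a : ℂ))‖) ^ 2 :=
          pow_le_pow_left₀ (norm_nonneg _) (norm_sum_le _ _) 2
      _ ≤ _ := sq_sum_le_card_mul_sum_sq
  refine hcs.trans ?_
  have hfin : ∑ a ∈ A, ‖∑ b ∈ B, c b a * cexp (I * (F b a : ℂ))‖ ^ 2 ≤
      4 * w' * (B.card * W * (6 * C ^ 8 * L ^ 3 * X) + B.card * W * (28 * C ^ 8 * L ^ 3 * X)) := by
    refine hd.trans ?_
    apply mul_le_mul_of_nonneg_left _ (by positivity)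
    exact add_le_add i1' i2'
  refine (mul_le_mul_of_nonneg_left hfin (Nat.cast_nonneg _)).trans (le_of_eq ?_)
  rw [hW]
  ring

end Pool.Agent.TH99.NL
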