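import Pool.Agent.TH99.NL.Smooth

set_option autoImplicit false

/-!
# The relation `γ' ^ k = γ ^ k + a ^ k`
-/

namespace Pool.Agent.TH99.NL

open Complex Filter Topology MeasureTheory Set
open Pool.Agent.TH801.TU

theorem fermat (k : ℕ) (hk : 2 ≤ k) (K η : ℝ) (hη : 0 < η) : ∃ c T₁ : ℝ, 0 < c ∧
    ∀ T : ℝ, T₁ ≤ T → ∀ B : Finset ℝ,
    (∀ γ ∈ B, η * T ≤ γ ∧ γ ≤ K * T ∧ riemannZeta (1 / 2 + I * (γ : ℂ)) = 0) →
    η * T * Real.log T ≤ B.card →
    ∀ (A : Finset ℝ) (w : ℝ), (∀ a ∈ A, η * T ≤ a ∧ a ≤ K * T) →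
    (∀ y : ℝ, ({a : ℝ | a ∈ A ∧ y ≤ a ∧ a < y + 1}.ncard : ℝ) ≤ w) →
    ({a : ℝ | a ∈ A ∧ ({γ : ℝ | γ ∈ B ∧ ∀ γ' : ℝ, 0 < γ' →
        riemannZeta (1 / 2 + I * (γ' : ℂ)) = 0 → γ' ^ k ≠ γ ^ k + a ^ k}.ncard : ℝ) <
      c * B.card}.ncard : ℝ) ≤ w * T ^ (11 / 20 : ℝ) := by
  have hk0 : (0 : ℝ) < k := by exact_mod_cast (by omega : 0 < k)
  have hk2 : (2 : ℝ) ≤ k := by exact_mod_cast hk
  obtain ⟨κ, hκ⟩ : ∃ κ : ℝ, κ = 1 / k := ⟨_, rfl⟩
  have hκk : k * κ = 1 := by rw [hκ]; field_simp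
  have hκ1 : κ - 1 ≠ 0 := by
    have : κ ≤ 1 / 2 := by rw [hκ]; exact one_div_le_one_div_of_le (by norm_num) hk2
    intro h
    linarith
  obtain ⟨S, hS⟩ : ∃ S : ℝ → ℝ → ℝ, S = fun u v => u ^ k + v ^ k := ⟨_, rfl⟩
  have pos : ∀ x ∈ Icc η (K + 1), 0 < x := fun x hx => hη.trans_le hx.1
  have hS0 : ∀ u ∈ Icc η (K + 1), ∀ v ∈ Icc η (K + 1), 0 < S u v := by
    intro u hu v hv
    have := pos u hu
    have := pos v hv
    rw [hS]; positivity
  have dSu : ∀ u v : ℝ, HasDerivAt (fun u => S u v) (k * u ^ (k - 1)) u := by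
    intro u v
    rw [hS]
    exact (hasDerivAt_pow k u).add_const (v ^ k)
  have dSv : ∀ u v : ℝ, HasDerivAt (fun v => S u v) (k * v ^ (k - 1)) v := by
    intro u v
    rw [hS]
    exact (hasDerivAt_pow k v).const_add (u ^ k)
  have cS : Continuous (fun z : ℝ × ℝ => S z.1 z.2) := by rw [hS]; fun_prop
  have cSp : ∀ e : ℝ, ContinuousOn (fun z : ℝ × ℝ => S z.1 z.2 ^ e)
      (Icc η (K + 1) ×ˢ Icc η (K + 1)) := by
    intro e
    apply ContinuousOn.rpow_const cS.continuousOn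
    intro z hz
    exact Or.inl (hS0 z.1 hz.1 z.2 hz.2).ne'
  obtain ⟨c, T1, hc, h⟩ := smooth η (K + 1) η (K + 1) hη (fun u v => S u v ^ κ)
    (fun u v => u ^ (k - 1) * S u v ^ (κ - 1))
    (fun u v => (((k - 1 : ℕ) : ℝ) * u ^ (k - 1 - 1)) * S u v ^ (κ - 1) +
      u ^ (k - 1) * (k * u ^ (k - 1) * (κ - 1) * S u v ^ (κ - 1 - 1)))
    (fun u v => v ^ (k - 1) * S u v ^ (κ - 1))
    (fun u v => u ^ (k - 1) * (k * v ^ (k - 1) * (κ - 1) * S u v ^ (κ - 1 - 1)))
    (fun u v => (((k - 1 : ℕ) : ℝ) * u ^ (k - 1 - 1)) *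
      (k * v ^ (k - 1) * (κ - 1) * S u v ^ (κ - 1 - 1)) +
      u ^ (k - 1) * (k * u ^ (k - 1) * (κ - 1) *
        (k * v ^ (k - 1) * (κ - 1 - 1) * S u v ^ (κ - 1 - 1 - 1))))
    (by
      intro u hu v hv
      have h0 := (hS0 u hu v hv).ne'
      constructor
      · refine ((dSu u v).rpow_const (p := κ) (Or.inl h0)).congr_deriv ?_
        calc k * u ^ (k - 1) * κ * S u v ^ (κ - 1) = (k * κ) * (u ^ (k - 1) * S u v ^ (κ - 1)) := by
              ring
          _ = _ := by rw [hκk, one_mul]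
      · exact (hasDerivAt_pow (k - 1) u).mul ((dSu u v).rpow_const (p := κ - 1) (Or.inl h0)))
    (by
      intro u hu v hv
      have h0 := (hS0 u hu v hv).ne'
      refine ⟨?_, ?_, ?_⟩
      · refine ((dSv u v).rpow_const (p := κ) (Or.inl h0)).congr_deriv ?_
        calc k * v ^ (k - 1) * κ * S u v ^ (κ - 1) = (k * κ) * (v ^ (k - 1) * S u v ^ (κ - 1)) := by
              ring
          _ = _ := by rw [hκk, one_mul]
      · exact ((dSv u v).rpow_const (p := κ - 1) (Or.inl h0)).const_mul (u ^ (k - 1))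
      · exact (((dSv u v).rpow_const (p := κ - 1) (Or.inl h0)).const_mul
          (((k - 1 : ℕ) : ℝ) * u ^ (k - 1 - 1))).add
          ((((dSv u v).rpow_const (p := κ - 1 - 1) (Or.inl h0)).const_mul
            (k * u ^ (k - 1) * (κ - 1))).const_mul (u ^ (k - 1))))
    (cSp κ)
    (by
      apply ContinuousOn.mul _ (cSp _)
      fun_prop)
    (by
      apply ContinuousOn.add
      · apply ContinuousOn.mul _ (cSp _)
        fun_prop
      · apply ContinuousOn.mul (by fun_prop)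
        apply ContinuousOn.mul _ (cSp _)
        fun_prop)
    (by
      apply ContinuousOn.mul _ (cSp _)
      fun_prop)
    (by
      apply ContinuousOn.mul (by fun_prop)
      apply ContinuousOn.mul _ (cSp _)
      fun_prop)
    (by
      apply ContinuousOn.add
      · apply ContinuousOn.mul (by fun_prop)
        apply ContinuousOn.mul _ (cSp _)
        fun_prop
      · apply ContinuousOn.mul (by fun_prop)
        apply ContinuousOn.mul (by fun_prop)
        apply ContinuousOn.mul _ (cSp _)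
        fun_prop)
    (by
      intro u hu v hv
      have hu0 := pos u hu
      have hv0 := pos v hv
      have h0 := hS0 u hu v hv
      refine ⟨Real.rpow_pos_of_pos h0 _, ?_, ?_⟩
      · have := Real.rpow_pos_of_pos h0 (κ - 1)
        positivity
      · have h1 := (Real.rpow_pos_of_pos h0 (κ - 1 - 1)).ne'
        have h2 : u ^ (k - 1) ≠ 0 := by positivity
        have h3 : v ^ (k - 1) ≠ 0 := by positivity
        exact mul_ne_zero h2 (mul_ne_zero (mul_ne_zero (mul_ne_zero hk0.ne' h3) hκ1) h1))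
    η hη
  refine ⟨c, max T1 3, hc, ?_⟩
  intro T hT B hB cB A w hA hw
  have hTT1 : T1 ≤ T := (le_max_left _ _).trans hT
  have hT3 : 3 ≤ T := (le_max_right _ _).trans hT
  have hT0 : 0 < T := by linarith
  have hL0 : 0 < Real.log T := Real.log_pos (by linarith)
  have h1 := h T hTT1 B (fun γ hγ => ⟨(hB γ hγ).1, by
      have := (hB γ hγ).2.1
      linarith, (hB γ hγ).2.2⟩) cB ℝ A (fun a => a) w
    (fun a ha => ⟨(hA a ha).1, by
      have := (hA a ha).2
      linarith⟩) hw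
  refine le_trans ?_ h1
  have hfin : ({a : ℝ | a ∈ A ∧ ({γ : ℝ | γ ∈ B ∧ Far (c / Real.log T)
      (T * (fun u v => S u v ^ κ) (a / T) (γ / T))}.ncard : ℝ) <
      c * B.card}).Finite := A.finite_toSet.subset (fun a ha => ha.1)
  have hsub : {a : ℝ | a ∈ A ∧ ({γ : ℝ | γ ∈ B ∧ ∀ γ' : ℝ, 0 < γ' →
        riemannZeta (1 / 2 + I * (γ' : ℂ)) = 0 → γ' ^ k ≠ γ ^ k + a ^ k}.ncard : ℝ) <
      c * B.card} ⊆
      {a : ℝ | a ∈ A ∧ ({γ : ℝ | γ ∈ B ∧ Far (c / Real.log T)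
      (T * (fun u v => S u v ^ κ) (a / T) (γ / T))}.ncard : ℝ) <
      c * B.card} := by
    intro a ha
    refine ⟨ha.1, lt_of_le_of_lt ?_ ha.2⟩
    have hs : {γ : ℝ | γ ∈ B ∧ Far (c / Real.log T)
      (T * (fun u v => S u v ^ κ) (a / T) (γ / T))} ⊆ {γ : ℝ | γ ∈ B ∧ ∀ γ' : ℝ, 0 < γ' →
        riemannZeta (1 / 2 + I * (γ' : ℂ)) = 0 → γ' ^ k ≠ γ ^ k + a ^ k} := by
      intro γ hγ
      obtain ⟨hγB, hF⟩ := hγ
      refine ⟨hγB, ?_⟩
      intro γ' hγ'0 hz he
      have ha0 : 0 < a := lt_of_lt_of_le (by positivity) (hA a ha.1).1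
      have hγ0 : 0 < γ := lt_of_lt_of_le (by positivity) (hB γ hγB).1
      have h3 : S (a / T) (γ / T) = (γ' / T) ^ k := by
        rw [hS]
        simp only
        rw [div_pow, div_pow, div_pow, he]
        ring
      have h4 : T * S (a / T) (γ / T) ^ κ = γ' := by
        have h5 : 0 ≤ γ' / T := by positivity
        rw [h3, ← Real.rpow_natCast, ← Real.rpow_mul h5, hκk, Real.rpow_one]
        field_simp
      have h6 := hF (1 / 2 + I * (γ' : ℂ)) hz
      simp only [h4] at h6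
      rw [sub_self, norm_zero] at h6
      have h7 : 0 < c / Real.log T := by positivity
      linarith
    exact_mod_cast Set.ncard_le_ncard hs (B.finite_toSet.subset (fun γ hγ => hγ.1))
  exact_mod_cast Set.ncard_le_ncard hsub hfin

end Pool.Agent.TH99.NL
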