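import Pool.Agent.TH99.NL.Osc
import Pool.Agent.TH806.AFE
import Pool.Agent.W182.KO.XX

set_option autoImplicit false

/-!
# The terms of the dual sum in the approximate functional equation
-/

namespace Pool.Agent.TH99.NL

open Complex MeasureTheory Set Filter Topology

lemma sum_inv_sqrt (N : ℕ) : ∑ n ∈ Finset.Icc 1 N, (n : ℝ) ^ (-(1 / 2) : ℝ) ≤ 2 * Real.sqrt N := by
  induction N with
  | zero => simp
  | succ N ih =>
    rw [Finset.sum_Icc_succ_top (by omega)]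
    have h1 : (((N + 1 : ℕ) : ℝ)) ^ (-(1 / 2) : ℝ) = 1 / Real.sqrt ((N + 1 : ℕ) : ℝ) := by
      rw [Real.rpow_neg (Nat.cast_nonneg _), Real.sqrt_eq_rpow]
      exact (one_div _).symm
    rw [h1]
    have ha : 0 ≤ Real.sqrt (N : ℝ) := Real.sqrt_nonneg _
    have hb : 0 < Real.sqrt ((N + 1 : ℕ) : ℝ) := Real.sqrt_pos.2 (by positivity)
    have ha2 : Real.sqrt (N : ℝ) ^ 2 = N := Real.sq_sqrt (Nat.cast_nonneg _)
    have hb2 : Real.sqrt ((N + 1 : ℕ) : ℝ) ^ 2 = N + 1 := by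
      rw [Real.sq_sqrt (Nat.cast_nonneg _)]; push_cast; ring
    have h2 : 1 / Real.sqrt ((N + 1 : ℕ) : ℝ) ≤
        2 * (Real.sqrt ((N + 1 : ℕ) : ℝ) - Real.sqrt (N : ℝ)) := by
      rw [div_le_iff₀ hb]
      nlinarith [sq_nonneg (Real.sqrt ((N + 1 : ℕ) : ℝ) - Real.sqrt (N : ℝ))]
    linarith

/-- the constant factor -/
noncomputable def kap (m h : ℕ) (y x : ℝ) : ℂ :=
  cexp (((-(1 / 2 + x) * Real.log m - 1 / 2 * Real.log h : ℝ) : ℂ) +
    ((y * Real.log h + Real.pi / 4 : ℝ) : ℂ) * I)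

lemma kap_norm (m h : ℕ) (y x : ℝ) (hm : 1 ≤ m) (hh : 1 ≤ h) (hx : 0 ≤ x) :
    ‖kap m h y x‖ ≤ (m : ℝ) ^ (-(1 / 2) : ℝ) := by
  unfold kap
  rw [Complex.norm_exp]
  have h1 : (((-(1 / 2 + x) * Real.log m - 1 / 2 * Real.log h : ℝ) : ℂ) +
    ((y * Real.log h + Real.pi / 4 : ℝ) : ℂ) * I).re =
      -(1 / 2 + x) * Real.log m - 1 / 2 * Real.log h := by
    generalize Real.log (m : ℝ) = lm
    generalize Real.log (h : ℝ) = lh
    generalize Real.pi / 4 = pq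
    simp
  rw [h1]
  have hm0 : (0 : ℝ) < m := by exact_mod_cast hm
  have hl1 : 0 ≤ Real.log m := Real.log_nonneg (by exact_mod_cast hm)
  have hl2 : 0 ≤ Real.log h := Real.log_nonneg (by exact_mod_cast hh)
  rw [Real.rpow_def_of_pos hm0]
  apply Real.exp_le_exp.2
  nlinarith [mul_nonneg hx hl1]

lemma kernel_eq (m h : ℕ) (hm : 1 ≤ m) (hh : 1 ≤ h) (v y x : ℝ) (hx0 : 0 ≤ x) (hx1 : x ≤ 1 / 2)
    (hV : 4 ≤ v + y) : ∃ e : ℂ, ‖e‖ ≤ 12 / (v + y) ∧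
    Pool.Agent.H448R2.GC.XX (1 - (1 / 2 + I * (v : ℂ)) - (((-x : ℝ) : ℂ) + (y : ℂ) * I)) *
      (m : ℂ) ^ (-(1 - (1 / 2 + I * (v : ℂ)) - (((-x : ℝ) : ℂ) + (y : ℂ) * I))) *
      (h : ℂ) ^ (-(1 / 2 + I * (v : ℂ))) =
    kap m h y x * (((Real.exp (Real.log ((v + y) / (2 * Real.pi)) * x) : ℝ) : ℂ) *
      cexp (I * (((v + y) * ((Real.log m - Real.log h) + 1 -
        Real.log ((v + y) / (2 * Real.pi))) : ℝ) : ℂ))) * (1 + e) := by
  obtain ⟨V, hVd⟩ : ∃ V : ℝ, V = v + y := ⟨_, rfl⟩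
  rw [← hVd] at hV ⊢
  obtain ⟨e, he, hXX⟩ := Pool.Agent.W182.KO.XX_asymp (c := 1) (σ := 1 / 2 + x) (v := V) le_rfl
    (by linarith) (by linarith) (by linarith)
  refine ⟨(starRingEnd ℂ) e, by
    rw [Complex.norm_conj]
    simpa using he, ?_⟩
  have hw : (1 - (1 / 2 + I * (v : ℂ)) - (((-x : ℝ) : ℂ) + (y : ℂ) * I)) =
      (starRingEnd ℂ) ((((1 / 2 + x : ℝ)) : ℂ) + (V : ℂ) * I) := by
    apply Complex.ext
    · simp; ring
    · simp [hVd]; ring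
  have hcm : ∀ z : ℂ, (m : ℂ) ^ z = cexp ((Real.log m : ℝ) * z) := fun z =>
    Pool.Agent.H448R2.GC.MV.cpow_nat m hm z
  have hch : ∀ z : ℂ, (h : ℂ) ^ z = cexp ((Real.log h : ℝ) * z) := fun z =>
    Pool.Agent.H448R2.GC.MV.cpow_nat h hh z
  rw [hcm, hch, hw, Pool.Agent.H448R2.GC.X1.XX_eq, H345.Chi.XX_conj]
  have hXX' : H345.XX ((((1 / 2 + x : ℝ)) : ℂ) + (V : ℂ) * I) =
      cexp (Pool.Agent.W182.KO.Mx (1 / 2 + x) V) * (1 + e) := hXX
  rw [hXX', map_mul, ← Complex.exp_conj, map_add, map_one]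
  have hE : cexp ((starRingEnd ℂ) (Pool.Agent.W182.KO.Mx (1 / 2 + x) V)) *
      cexp ((Real.log m : ℝ) * (-(starRingEnd ℂ) ((((1 / 2 + x : ℝ)) : ℂ) + (V : ℂ) * I))) *
      cexp ((Real.log h : ℝ) * (-(1 / 2 + I * (v : ℂ)))) =
      kap m h y x * (((Real.exp (Real.log (V / (2 * Real.pi)) * x) : ℝ) : ℂ) *
      cexp (I * ((V * ((Real.log m - Real.log h) + 1 -
        Real.log (V / (2 * Real.pi))) : ℝ) : ℂ))) := by
    unfold kap Pool.Agent.W182.KO.Mx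
    rw [Complex.ofReal_exp, ← Complex.exp_add, ← Complex.exp_add, ← Complex.exp_add,
      ← Complex.exp_add]
    congr 1
    have hvV : v = V - y := by rw [hVd]; ring
    rw [hvV]
    generalize Real.log (V / (2 * Real.pi)) = lv
    generalize Real.log (m : ℝ) = lm
    generalize Real.log (h : ℝ) = lh
    generalize Real.pi / 4 = pq
    apply Complex.ext
    · simp
      ring
    · simp
      ring
  rw [← hE]
  ring

end Pool.Agent.TH99.NL
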