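import Pool.Agent.TH99.NL.Ph
import Pool.Agent.TH99.NL.Ker
import Pool.Agent.TH801.TU.First

set_option autoImplicit false

/-!
# The first moment of the mollified zeta function over a finite set of points
-/

namespace Pool.Agent.TH99.NL

open Complex MeasureTheory Set Filter Topology
open Pool.Agent.H24R2.DZ
open Pool.Agent.TH801.TU
open Pool.Agent.H448R2.GC (cs cu ker)
open Pool.Agent.H448R2.GC.M1 (gg gg_nonneg gg_int cs_cont cs_bdd)
open Pool.Agent.H448R2.GC.MV (cpow_nat)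

lemma floor_ge_one {D : ℝ} (hD : 0 ≤ D) : 1 ≤ ⌊Real.exp D⌋₊ :=
  Nat.le_floor (by rw [Nat.cast_one]; exact Real.one_le_exp hD)

/-- the main part -/
lemma plain_abs (k : ℕ) (c D : ℝ) (hc : 0 < c) (hD : 0 ≤ D) (y : ℕ) (hy : 1 ≤ y) (b : ℕ → ℂ)
    (hb1 : b 1 = 1) (hb : ∀ h, ‖b h‖ ≤ 1) (S : Finset (ℝ × ℝ)) (v : ℝ × ℝ → ℝ) (L R : ℝ)
    (hR : 0 ≤ R)
    (hL : ∀ m ∈ Finset.Icc 1 ⌊Real.exp (D + k * c)⌋₊, ∀ h ∈ Finset.Icc 1 y,
      Real.log m + Real.log h ≤ L)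
    (hP : ∀ l : ℝ, 1 / 2 ≤ l → l ≤ L → ‖∑ p ∈ S, cexp (I * ((-l * v p : ℝ) : ℂ))‖ ≤ R) :
    ‖∑ p ∈ S, cs k c D (1 / 2 + I * (v p : ℂ)) * MM y b (1 / 2 + I * (v p : ℂ)) - S.card‖ ≤
      y * (2 * Real.sqrt ⌊Real.exp (D + k * c)⌋₊) * R := by
  classical
  obtain ⟨N, hN⟩ : ∃ N : ℕ, N = ⌊Real.exp (D + k * c)⌋₊ := ⟨_, rfl⟩
  have hN1 : 1 ≤ N := by
    rw [hN]; exact floor_ge_one (by positivity)
  obtain ⟨t, ht⟩ : ∃ t : ℕ → ℕ → ℂ, t = fun (m h : ℕ) => ∑ p ∈ S,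
    ((cu k c (Real.log m - D) : ℂ) * (m : ℂ) ^ (-(1 / 2 + I * (v p : ℂ)))) *
      (b h * (h : ℂ) ^ (-(1 / 2 + I * (v p : ℂ)))) := ⟨_, rfl⟩
  have e1 : ∑ p ∈ S, cs k c D (1 / 2 + I * (v p : ℂ)) * MM y b (1 / 2 + I * (v p : ℂ)) =
      ∑ m ∈ Finset.Icc 1 N, ∑ h ∈ Finset.Icc 1 y, t m h := by
    rw [ht]
    have h1 : ∀ p ∈ S, cs k c D (1 / 2 + I * (v p : ℂ)) * MM y b (1 / 2 + I * (v p : ℂ)) =
        ∑ m ∈ Finset.Icc 1 N, ∑ h ∈ Finset.Icc 1 y,
        ((cu k c (Real.log m - D) : ℂ) * (m : ℂ) ^ (-(1 / 2 + I * (v p : ℂ)))) *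
          (b h * (h : ℂ) ^ (-(1 / 2 + I * (v p : ℂ)))) := by
      intro p _
      unfold Pool.Agent.H448R2.GC.cs MM
      rw [Finset.sum_mul_sum, ← hN]
    rw [Finset.sum_congr rfl h1, Finset.sum_comm]
    refine Finset.sum_congr rfl fun m _ => ?_
    rw [Finset.sum_comm]
  have e2 : (S.card : ℂ) = ∑ m ∈ Finset.Icc 1 N, ∑ h ∈ Finset.Icc 1 y,
      (if m = 1 ∧ h = 1 then (S.card : ℂ) else 0) := by
    rw [Finset.sum_eq_single 1]
    · rw [Finset.sum_eq_single 1]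
      · simp
      · intro h _ h1
        simp [h1]
      · intro h
        exact absurd (Finset.mem_Icc.2 ⟨le_rfl, hy⟩) h
    · intro m _ hm
      apply Finset.sum_eq_zero
      intro h _
      simp [hm]
    · intro h
      exact absurd (Finset.mem_Icc.2 ⟨le_rfl, hN1⟩) h
  rw [e1, e2, ← Finset.sum_sub_distrib]
  have hterm : ∀ m ∈ Finset.Icc 1 N, ∀ h ∈ Finset.Icc 1 y,
      ‖t m h - (if m = 1 ∧ h = 1 then (S.card : ℂ) else 0)‖ ≤ (m : ℝ) ^ (-(1 / 2) : ℝ) * R := by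
    intro m hm h hh
    have hmL := hL m (by rwa [← hN]) h hh
    rw [Finset.mem_Icc] at hm hh
    have hm0 : (0 : ℝ) < m := by exact_mod_cast hm.1
    have hh0 : (0 : ℝ) < h := by exact_mod_cast hh.1
    by_cases h11 : m = 1 ∧ h = 1
    · obtain ⟨rfl, rfl⟩ := h11
      have h2 : t 1 1 = (S.card : ℂ) := by
        rw [ht]
        simp only [Nat.cast_one, Complex.one_cpow, mul_one, Real.log_one, zero_sub, hb1]
        rw [Pool.Agent.H448R2.GC.cu_one k c (-D) hc (by linarith)]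
        simp
      rw [h2]
      simp
      positivity
    · rw [if_neg h11, sub_zero]
      have hlm : 0 ≤ Real.log m := Real.log_nonneg (by exact_mod_cast hm.1)
      have hlh : 0 ≤ Real.log h := Real.log_nonneg (by exact_mod_cast hh.1)
      have hl2 : 1 / 2 ≤ Real.log m + Real.log h := by
        have hlog2 := Real.log_two_gt_d9
        have h3 : 2 ≤ m ∨ 2 ≤ h := by omega
        rcases h3 with h3 | h3
        · have h4 : Real.log 2 ≤ Real.log m :=
            Real.log_le_log (by norm_num) (by exact_mod_cast h3)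
          linarith
        · have h4 : Real.log 2 ≤ Real.log h :=
            Real.log_le_log (by norm_num) (by exact_mod_cast h3)
          linarith
      have h5 := hP (Real.log m + Real.log h) hl2 hmL
      have h6 : t m h = ((cu k c (Real.log m - D) : ℂ) * b h *
          cexp (((-(1 / 2) * (Real.log m + Real.log h) : ℝ) : ℂ))) *
          ∑ p ∈ S, cexp (I * ((-(Real.log m + Real.log h) * v p : ℝ) : ℂ)) := by
        rw [ht, Finset.mul_sum]
        refine Finset.sum_congr rfl fun p _ => ?_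
        rw [cpow_nat m hm.1, cpow_nat h hh.1]
        have h7 : cexp (((-(1 / 2) * (Real.log m + Real.log h) : ℝ) : ℂ)) *
            cexp (I * ((-(Real.log m + Real.log h) * v p : ℝ) : ℂ)) =
            cexp ((Real.log m : ℝ) * -(1 / 2 + I * (v p : ℂ))) *
            cexp ((Real.log h : ℝ) * -(1 / 2 + I * (v p : ℂ))) := by
          rw [← Complex.exp_add, ← Complex.exp_add]
          congr 1
          push_cast
          ring
        linear_combination (-(cu k c (Real.log m - D) : ℂ) * b h) * h7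
      rw [h6, norm_mul, norm_mul, norm_mul, Complex.norm_real, Real.norm_eq_abs]
      have h8 : |cu k c (Real.log m - D)| ≤ 1 := by
        rw [abs_of_nonneg (Pool.Agent.H448R2.GC.cu_nonneg k c _ hc)]
        exact Pool.Agent.H448R2.GC.cu_le_one k c _ hc
      have h9 : ‖cexp (((-(1 / 2) * (Real.log m + Real.log h) : ℝ) : ℂ))‖ ≤
          (m : ℝ) ^ (-(1 / 2) : ℝ) := by
        rw [Complex.norm_exp_ofReal, Real.rpow_def_of_pos hm0]
        apply Real.exp_le_exp.2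
        linarith
      apply mul_le_mul _ h5 (norm_nonneg _) (by positivity)
      calc |cu k c (Real.log m - D)| * ‖b h‖ *
            ‖cexp (((-(1 / 2) * (Real.log m + Real.log h) : ℝ) : ℂ))‖ ≤
            1 * 1 * (m : ℝ) ^ (-(1 / 2) : ℝ) := by
            apply mul_le_mul _ h9 (norm_nonneg _) (by norm_num)
            exact mul_le_mul h8 (hb h) (norm_nonneg _) zero_le_one
        _ = _ := by ring
  have h1 : ∀ m ∈ Finset.Icc 1 N, ‖∑ h ∈ Finset.Icc 1 y, t m h -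
      ∑ h ∈ Finset.Icc 1 y, (if m = 1 ∧ h = 1 then (S.card : ℂ) else 0)‖ ≤
      y * R * (m : ℝ) ^ (-(1 / 2) : ℝ) := by
    intro m hm
    rw [← Finset.sum_sub_distrib]
    refine (norm_sum_le_of_le _ (hterm m hm)).trans ?_
    rw [Finset.sum_const, Nat.card_Icc, nsmul_eq_mul, Nat.add_sub_cancel]
    exact le_of_eq (by ring)
  refine (norm_sum_le_of_le _ h1).trans ?_
  rw [← Finset.mul_sum, ← hN]
  calc y * R * ∑ m ∈ Finset.Icc 1 N, (m : ℝ) ^ (-(1 / 2) : ℝ) ≤ y * R * (2 * Real.sqrt N) :=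
        mul_le_mul_of_nonneg_left (sum_inv_sqrt N) (by positivity)
    _ = _ := by ring

/-- the dual part, for one value of the variable of integration -/
lemma dual_pt (k : ℕ) (c D : ℝ) (hc : 0 < c) (n : ℕ) (b : ℕ → ℂ)
    (hb : ∀ h, ‖b h‖ ≤ 1) (S : Finset (ℝ × ℝ)) (v : ℝ × ℝ → ℝ) (X L R y : ℝ)
    (hLX : L = Real.log X) (hL1 : 40 ≤ L) (hy : |y| ≤ X / 4)
    (hv : ∀ p ∈ S, X ≤ v p ∧ v p ≤ 3 * X) (kr : ℂ)
    (hL : ∀ m ∈ Finset.Icc 1 ⌊Real.exp (D + k * c)⌋₊, ∀ h ∈ Finset.Icc 1 n,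
      |Real.log m - Real.log h| ≤ 52 / 100 * L)
    (hP : ∀ μ : ℝ, |μ| ≤ 52 / 100 * L → ‖∑ p ∈ S,
      ((Real.exp (Real.log ((v p + y) / (2 * Real.pi)) / L) : ℝ) : ℂ) *
      cexp (I * (((v p + y) * (μ + 1 - Real.log ((v p + y) / (2 * Real.pi))) : ℝ) : ℂ))‖ ≤ R) :
    ‖∑ p ∈ S, MM n b (1 / 2 + I * (v p : ℂ)) *
      (Pool.Agent.H448R2.GC.XX (1 - (1 / 2 + I * (v p : ℂ)) - (((-(1 / L) : ℝ) : ℂ) + (y : ℂ) * I)) *
      cs k c D (1 - (1 / 2 + I * (v p : ℂ)) - (((-(1 / L) : ℝ) : ℂ) + (y : ℂ) * I)) * kr)‖ ≤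
      (n * (2 * Real.sqrt ⌊Real.exp (D + k * c)⌋₊) * (R + 48 / X * S.card)) * ‖kr‖ := by
  classical
  have hX0 : 0 < X := by
    by_contra hcon
    push Not at hcon
    have h1 := abs_nonneg y
    have h2 : X = 0 := by linarith
    rw [h2, Real.log_zero] at hLX
    linarith
  have hL0 : 0 < L := by linarith
  have hXe : Real.exp 40 ≤ X := by
    rw [← Real.le_log_iff_exp_le hX0, ← hLX]; exact hL1
  have hX16 : 16 ≤ X := by
    have := Real.add_one_le_exp (40 : ℝ)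
    linarith
  have hx0 : (0 : ℝ) ≤ 1 / L := by positivity
  have hx1 : 1 / L ≤ 1 / 2 := one_div_le_one_div_of_le (by norm_num) (by linarith)
  obtain ⟨hy1, hy2⟩ := abs_le.1 hy
  obtain ⟨N, hN⟩ : ∃ N : ℕ, N = ⌊Real.exp (D + k * c)⌋₊ := ⟨_, rfl⟩
  rw [← hN] at hL ⊢
  obtain ⟨w, hw⟩ : ∃ w : ℝ × ℝ → ℂ, w = fun p =>
    1 - (1 / 2 + I * (v p : ℂ)) - (((-(1 / L) : ℝ) : ℂ) + (y : ℂ) * I) := ⟨_, rfl⟩
  obtain ⟨t, ht⟩ : ∃ t : ℕ → ℕ → ℂ, t = fun (h m : ℕ) => ∑ p ∈ S,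
    (Pool.Agent.H448R2.GC.XX (w p) * (m : ℂ) ^ (-(w p)) *
      (h : ℂ) ^ (-(1 / 2 + I * (v p : ℂ)))) := ⟨_, rfl⟩
  have e1 : ∑ p ∈ S, MM n b (1 / 2 + I * (v p : ℂ)) *
      (Pool.Agent.H448R2.GC.XX (1 - (1 / 2 + I * (v p : ℂ)) - (((-(1 / L) : ℝ) : ℂ) + (y : ℂ) * I)) *
      cs k c D (1 - (1 / 2 + I * (v p : ℂ)) - (((-(1 / L) : ℝ) : ℂ) + (y : ℂ) * I)) * kr) =
      (∑ h ∈ Finset.Icc 1 n, ∑ m ∈ Finset.Icc 1 N,
        (b h * (cu k c (Real.log m - D) : ℂ)) * t h m) * kr := by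
    have h1 : ∀ p ∈ S, MM n b (1 / 2 + I * (v p : ℂ)) *
        (Pool.Agent.H448R2.GC.XX (1 - (1 / 2 + I * (v p : ℂ)) - (((-(1 / L) : ℝ) : ℂ) + (y : ℂ) * I)) *
        cs k c D (1 - (1 / 2 + I * (v p : ℂ)) - (((-(1 / L) : ℝ) : ℂ) + (y : ℂ) * I)) * kr) =
        (∑ h ∈ Finset.Icc 1 n, ∑ m ∈ Finset.Icc 1 N, (b h * (cu k c (Real.log m - D) : ℂ)) *
          (Pool.Agent.H448R2.GC.XX (w p) * (m : ℂ) ^ (-(w p)) *
      (h : ℂ) ^ (-(1 / 2 + I * (v p : ℂ))))) * kr := by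
      intro p _
      have h2 : w p = 1 - (1 / 2 + I * (v p : ℂ)) - (((-(1 / L) : ℝ) : ℂ) + (y : ℂ) * I) := by
        rw [hw]
      rw [← h2]
      have h3 : cs k c D (w p) = ∑ m ∈ Finset.Icc 1 N,
          (cu k c (Real.log m - D) : ℂ) * (m : ℂ) ^ (-(w p)) := by
        unfold Pool.Agent.H448R2.GC.cs
        rw [← hN]
      have h4 : MM n b (1 / 2 + I * (v p : ℂ)) * (Pool.Agent.H448R2.GC.XX (w p) *
          cs k c D (w p) * kr) = (MM n b (1 / 2 + I * (v p : ℂ)) * cs k c D (w p)) *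
            (Pool.Agent.H448R2.GC.XX (w p) * kr) := by ring
      rw [h4, h3]
      unfold MM
      rw [Finset.sum_mul_sum, Finset.sum_mul, Finset.sum_mul]
      refine Finset.sum_congr rfl fun h _ => ?_
      rw [Finset.sum_mul, Finset.sum_mul]
      refine Finset.sum_congr rfl fun m _ => ?_
      ring
    rw [Finset.sum_congr rfl h1, ← Finset.sum_mul, Finset.sum_comm]
    congr 1
    refine Finset.sum_congr rfl fun h _ => ?_
    rw [Finset.sum_comm]
    refine Finset.sum_congr rfl fun m _ => ?_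
    rw [ht, Finset.mul_sum]
  rw [e1, norm_mul]
  apply mul_le_mul_of_nonneg_right _ (norm_nonneg _)
  have hR0 : 0 ≤ R := le_trans (norm_nonneg _) (hP 0 (by rw [abs_zero]; positivity))
  have hterm : ∀ h ∈ Finset.Icc 1 n, ∀ m ∈ Finset.Icc 1 N,
      ‖(b h * (cu k c (Real.log m - D) : ℂ)) * t h m‖ ≤
        (m : ℝ) ^ (-(1 / 2) : ℝ) * (R + 48 / X * S.card) := by
    intro h hh m hm
    have hmL := hL m hm h hh
    rw [Finset.mem_Icc] at hm hh
    have hker : ∀ p ∈ S, ∃ e : ℂ, ‖e‖ ≤ 16 / X ∧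
        Pool.Agent.H448R2.GC.XX (w p) * (m : ℂ) ^ (-(w p)) *
          (h : ℂ) ^ (-(1 / 2 + I * (v p : ℂ))) =
        kap m h y (1 / L) * (((Real.exp (Real.log ((v p + y) / (2 * Real.pi)) / L) : ℝ) : ℂ) *
        cexp (I * (((v p + y) * ((Real.log m - Real.log h) + 1 -
          Real.log ((v p + y) / (2 * Real.pi))) : ℝ) : ℂ))) * (1 + e) := by
      intro p hp
      have hvp := hv p hp
      have hV : 3 / 4 * X ≤ v p + y := by linarith [hvp.1]
      obtain ⟨e, he1, he2⟩ := kernel_eq m h hm.1 hh.1 (v p) y (1 / L) hx0 hx1 (by linarith)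
      refine ⟨e, ?_, ?_⟩
      · refine he1.trans ?_
        rw [div_le_div_iff₀ (by linarith) hX0]
        linarith
      · rw [hw]
        rw [he2, mul_one_div]
    choose! e he1 he2 using hker
    have h1 : t h m = kap m h y (1 / L) * (∑ p ∈ S,
        ((Real.exp (Real.log ((v p + y) / (2 * Real.pi)) / L) : ℝ) : ℂ) *
        cexp (I * (((v p + y) * ((Real.log m - Real.log h) + 1 -
          Real.log ((v p + y) / (2 * Real.pi))) : ℝ) : ℂ)) + ∑ p ∈ S,
        (((Real.exp (Real.log ((v p + y) / (2 * Real.pi)) / L) : ℝ) : ℂ) *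
        cexp (I * (((v p + y) * ((Real.log m - Real.log h) + 1 -
          Real.log ((v p + y) / (2 * Real.pi))) : ℝ) : ℂ))) * e p) := by
      rw [ht, ← Finset.sum_add_distrib, Finset.mul_sum]
      refine Finset.sum_congr rfl fun p hp => ?_
      rw [he2 p hp]
      ring
    have h2 : ∀ p ∈ S, ‖(((Real.exp (Real.log ((v p + y) / (2 * Real.pi)) / L) : ℝ) : ℂ) *
        cexp (I * (((v p + y) * ((Real.log m - Real.log h) + 1 -
          Real.log ((v p + y) / (2 * Real.pi))) : ℝ) : ℂ))) * e p‖ ≤ 48 / X := by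
      intro p hp
      have hvp := hv p hp
      have hVl : 0 < v p + y := by linarith [hvp.1]
      rw [norm_mul, norm_mul, mul_comm I, Complex.norm_exp_ofReal_mul_I, mul_one,
        Complex.norm_real, Real.norm_eq_abs, abs_of_pos (Real.exp_pos _)]
      have h3 : Real.log ((v p + y) / (2 * Real.pi)) ≤ L := by
        rw [hLX]
        apply Real.log_le_log (by positivity)
        rw [div_le_iff₀ (by positivity)]
        have := Real.pi_gt_three
        nlinarith [hvp.2]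
      have h4 : Real.exp (Real.log ((v p + y) / (2 * Real.pi)) / L) ≤ 3 := by
        have h5 : Real.log ((v p + y) / (2 * Real.pi)) / L ≤ 1 := by
          rw [div_le_one hL0]; exact h3
        have h6 := Real.exp_le_exp.2 h5
        have h7 := Real.exp_one_lt_d9
        linarith
      calc Real.exp (Real.log ((v p + y) / (2 * Real.pi)) / L) * ‖e p‖ ≤ 3 * (16 / X) :=
            mul_le_mul h4 (he1 p hp) (norm_nonneg _) (by norm_num)
        _ = 48 / X := by ring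
    have h3 := norm_sum_le_of_le S h2
    rw [Finset.sum_const, nsmul_eq_mul] at h3
    have h4 := hP (Real.log m - Real.log h) hmL
    rw [norm_mul, norm_mul, Complex.norm_real, Real.norm_eq_abs]
    have h5 : |cu k c (Real.log m - D)| ≤ 1 := by
      rw [abs_of_nonneg (Pool.Agent.H448R2.GC.cu_nonneg k c _ hc)]
      exact Pool.Agent.H448R2.GC.cu_le_one k c _ hc
    have h6 : ‖t h m‖ ≤ (m : ℝ) ^ (-(1 / 2) : ℝ) * (R + 48 / X * S.card) := by
      rw [h1, norm_mul]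
      apply mul_le_mul (kap_norm m h y (1 / L) hm.1 hh.1 hx0) _ (norm_nonneg _) (by positivity)
      refine (norm_add_le _ _).trans ?_
      linarith
    calc ‖b h‖ * |cu k c (Real.log m - D)| * ‖t h m‖ ≤ 1 * 1 *
          ((m : ℝ) ^ (-(1 / 2) : ℝ) * (R + 48 / X * S.card)) := by
          apply mul_le_mul _ h6 (norm_nonneg _) (by norm_num)
          exact mul_le_mul (hb h) h5 (abs_nonneg _) zero_le_one
      _ = _ := by ring
  have h1 : ∀ h ∈ Finset.Icc 1 n, ‖∑ m ∈ Finset.Icc 1 N,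
      (b h * (cu k c (Real.log m - D) : ℂ)) * t h m‖ ≤
      (2 * Real.sqrt N) * (R + 48 / X * S.card) := by
    intro h hh
    refine (norm_sum_le_of_le _ (hterm h hh)).trans ?_
    rw [← Finset.sum_mul]
    exact mul_le_mul_of_nonneg_right (sum_inv_sqrt N) (by positivity)
  refine (norm_sum_le_of_le _ h1).trans ?_
  rw [Finset.sum_const, Nat.card_Icc, nsmul_eq_mul, Nat.add_sub_cancel]
  exact le_of_eq (by ring)

end Pool.Agent.TH99.NL
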