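import Pool.Agent.TH99.NL.Fst

set_option autoImplicit false

/-!
# The first moment of the mollified zeta function over a finite set of points: conclusion
-/

namespace Pool.Agent.TH99.NL

open Complex MeasureTheory Set Filter Topology
open Pool.Agent.H24R2.DZ
open Pool.Agent.TH801.TU
open Pool.Agent.H448R2.GC (cs cu ker)
open Pool.Agent.H448R2.GC.M1 (cs_cont cs_bdd)
open Pool.Agent.H448R2.GC.MV (cpow_nat)

/-- the size of the kernel -/
lemma xk (k : ℕ) (hk : 1 ≤ k) : ∃ C : ℝ, 0 < C ∧ ∀ X L v y : ℝ, L = Real.log X → 40 ≤ L →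
    X ≤ v → v ≤ 3 * X →
    ‖Pool.Agent.H448R2.GC.XX (1 - (1 / 2 + I * (v : ℂ)) - (((-(1 / L) : ℝ) : ℂ) + (y : ℂ) * I))‖ *
    ‖ker k (1 / 200 * L / k) (1 / 2 * L) (-(1 / L)) y‖ ≤ C * Pool.Agent.H448R2.GC.M1.gg L k y := by
  obtain ⟨Ck, hCk, hker⟩ := Pool.Agent.H448R2.GC.ker_scale (1 / 200) 1 k (by norm_num) one_pos hk
  obtain ⟨CX, hCX, hXX⟩ := Pool.Agent.H448R2.GC.XX_upper (3 / 2)
  refine ⟨CX * (9 * Real.exp 1) * Ck, by positivity, ?_⟩
  intro X L v y hLX hL40 hv1 hv2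
  have hL1 : 1 ≤ L := by linarith
  have hL0 : 0 < L := by linarith
  have hX0 : 0 < X := by
    by_contra hcon
    push Not at hcon
    have h1 : X = 0 := by linarith
    rw [h1, Real.log_zero] at hLX
    linarith
  have hX1 : 1 ≤ X := by
    have h1 : Real.exp 40 ≤ X := by rw [← Real.le_log_iff_exp_le hX0, ← hLX]; exact hL40
    have := Real.add_one_le_exp (40 : ℝ)
    linarith
  have h1L0 : 0 < 1 / L := by positivity
  have h1L : 1 / L ≤ 1 := by rw [div_le_one hL0]; exact hL1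
  obtain ⟨w, hw⟩ : ∃ w : ℂ, w = 1 - (1 / 2 + I * (v : ℂ)) - (((-(1 / L) : ℝ) : ℂ) + (y : ℂ) * I) :=
    ⟨_, rfl⟩
  rw [← hw]
  have hre : w.re = 1 / 2 + 1 / L := by rw [hw]; simp; ring
  have him : w.im = -(v + y) := by rw [hw]; simp; ring
  have hX := hXX w (by rw [hre]; linarith) (by rw [hre]; linarith)
  rw [hre, him, abs_neg] at hX
  have hexp : (1 / 2 + 1 / L - 1 / 2 : ℝ) = 1 / L := by ring
  rw [hexp] at hX
  have hLy : 0 ≤ L * |y| := by positivity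
  have h1 : (1 + |v + y|) ^ (1 / L) ≤ 9 * Real.exp 1 * (1 + L * |y|) := by
    have hv0 : 0 ≤ v := by linarith
    have ha : 1 + |v + y| ≤ (9 * X) * (1 + L * |y|) := by
      have h3 : |v + y| ≤ v + |y| := by
        refine (abs_add_le _ _).trans ?_
        rw [abs_of_nonneg hv0]
      have h4 : |y| ≤ L * |y| := le_mul_of_one_le_left (abs_nonneg y) hL1
      have h6 : L * |y| ≤ 9 * X * (L * |y|) := le_mul_of_one_le_left hLy (by linarith)
      calc 1 + |v + y| ≤ 1 + (v + |y|) := by linarith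
        _ ≤ 9 * X + L * |y| := by linarith
        _ ≤ 9 * X + 9 * X * (L * |y|) := by linarith
        _ = _ := by ring
    calc (1 + |v + y|) ^ (1 / L) ≤ ((9 * X) * (1 + L * |y|)) ^ (1 / L) :=
          Real.rpow_le_rpow (by positivity) ha h1L0.le
      _ = (9 * X) ^ (1 / L) * (1 + L * |y|) ^ (1 / L) := Real.mul_rpow (by positivity) (by positivity)
      _ ≤ (9 * Real.exp 1) * (1 + L * |y|) := by
          refine mul_le_mul ?_ ?_ (by positivity) (by positivity)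
          · rw [Real.mul_rpow (by norm_num) hX0.le]
            refine mul_le_mul ?_ ?_ (by positivity) (by norm_num)
            · calc (9 : ℝ) ^ (1 / L) ≤ (9 : ℝ) ^ (1 : ℝ) :=
                    Real.rpow_le_rpow_of_exponent_le (by norm_num) (by linarith)
                _ = 9 := Real.rpow_one 9
            · rw [Real.rpow_def_of_pos hX0, ← hLX]
              have : L * (1 / L) = 1 := by field_simp
              rw [this]
          · calc (1 + L * |y|) ^ (1 / L) ≤ (1 + L * |y|) ^ (1 : ℝ) :=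
                  Real.rpow_le_rpow_of_exponent_le (by linarith) (by linarith)
              _ = _ := Real.rpow_one _
  have hk3 := hker L (1 / 2 * L) (-(1 / L)) y hL1 (by rw [abs_of_pos (by positivity)]; linarith)
    (by rw [abs_neg, abs_of_pos h1L0]) (by rw [abs_neg, abs_of_pos h1L0])
  calc ‖Pool.Agent.H448R2.GC.XX w‖ * ‖ker k (1 / 200 * L / k) (1 / 2 * L) (-(1 / L)) y‖
      ≤ (CX * (9 * Real.exp 1 * (1 + L * |y|))) * (Ck * (L / (1 + L * |y|) ^ (k + 1))) := by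
        refine mul_le_mul ?_ hk3 (norm_nonneg _) (by positivity)
        exact hX.trans (mul_le_mul_of_nonneg_left h1 hCX.le)
    _ = CX * (9 * Real.exp 1) * Ck * Pool.Agent.H448R2.GC.M1.gg L k y := by
        unfold Pool.Agent.H448R2.GC.M1.gg
        have hne : (1 + L * |y|) ≠ 0 := by positivity
        field_simp
        ring

/-- the dual part -/
theorem dual_abs (k : ℕ) (hk : 4 ≤ k) : ∃ C X0 : ℝ, 0 < C ∧ ∀ X L : ℝ, X0 ≤ X → L = Real.log X →
    ∀ (S : Finset (ℝ × ℝ)) (v : ℝ × ℝ → ℝ) (R : ℝ), 0 ≤ R →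
    (∀ p ∈ S, X ≤ v p ∧ v p ≤ 3 * X) →
    (∀ μ y : ℝ, |μ| ≤ 52 / 100 * L → |y| ≤ X / 4 → ‖∑ p ∈ S,
      ((Real.exp (Real.log ((v p + y) / (2 * Real.pi)) / L) : ℝ) : ℂ) *
      cexp (I * (((v p + y) * (μ + 1 - Real.log ((v p + y) / (2 * Real.pi))) : ℝ) : ℂ))‖ ≤ R) →
    ‖∑ p ∈ S, MM (yy (1 / 200) X) (bb (1 / 200) L 0) (1 / 2 + I * (v p : ℂ)) * ∫ y : ℝ,
      Pool.Agent.H448R2.GC.XX (1 - (1 / 2 + I * (v p : ℂ)) - (((-(1 / L) : ℝ) : ℂ) + (y : ℂ) * I)) *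
      cs k (1 / 200 * L / k) (101 / 200 * L) (1 - (1 / 2 + I * (v p : ℂ)) -
        (((-(1 / L) : ℝ) : ℂ) + (y : ℂ) * I)) *
      ker k (1 / 200 * L / k) (1 / 2 * L) (-(1 / L)) y‖ ≤
      C * (X ^ (13 / 50 : ℝ) * R + X ^ (-(1 / 2) : ℝ) * S.card) := by
  obtain ⟨C3, hC3, hxk⟩ := xk k (by omega)
  obtain ⟨Ck, hCk, hker⟩ := Pool.Agent.H448R2.GC.ker_scale (1 / 200) 1 k (by norm_num) one_pos
    (by omega)
  obtain ⟨C', hC'⟩ : ∃ C' : ℝ, C' = 192 * Ck + 32 * C3 := ⟨_, rfl⟩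
  have hC'0 : 0 < C' := by rw [hC']; positivity
  refine ⟨2 * C', Real.exp 200, by positivity, ?_⟩
  intro X L hX hLX S v R hR hv hD
  have hX0 : 0 < X := (Real.exp_pos _).trans_le hX
  have hL200 : 200 ≤ L := by rw [hLX, Real.le_log_iff_exp_le hX0]; exact hX
  have hL0 : 0 < L := by linarith
  have hL1 : 1 ≤ L := by linarith
  have hX1 : 1 ≤ X := by
    have := Real.add_one_le_exp (200 : ℝ)
    linarith
  have hk0 : (0 : ℝ) < k := by exact_mod_cast (by omega : 0 < k)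
  obtain ⟨c, hc⟩ : ∃ c : ℝ, c = 1 / 200 * L / k := ⟨_, rfl⟩
  have hc0 : 0 < c := by rw [hc]; positivity
  have hkc : k * c = 1 / 200 * L := by rw [hc]; field_simp
  obtain ⟨n, hn⟩ : ∃ n : ℕ, n = yy (1 / 200) X := ⟨_, rfl⟩
  obtain ⟨b, hb⟩ : ∃ b : ℕ → ℂ, b = bb (1 / 200) L 0 := ⟨_, rfl⟩
  have hb1 : ∀ h, ‖b h‖ ≤ 1 := fun h => by rw [hb]; exact bb_norm _ _ h
  rw [← hn, ← hb]
  have p2 : 1 ≤ X ^ (1 / 200 : ℝ) := Real.one_le_rpow hX1 (by norm_num)
  have hn2 : (n : ℝ) ≤ 2 * X ^ (1 / 200 : ℝ) := by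
    rw [hn]
    have := Nat.ceil_lt_add_one (show 0 ≤ X ^ (1 / 200 : ℝ) by linarith)
    unfold yy
    linarith
  obtain ⟨N, hN⟩ : ∃ N : ℕ, N = ⌊Real.exp (101 / 200 * L + k * c)⌋₊ := ⟨_, rfl⟩
  have hexpN : Real.exp (101 / 200 * L + k * c) = X ^ (51 / 100 : ℝ) := by
    rw [hkc, Real.rpow_def_of_pos hX0, ← hLX]
    congr 1
    ring
  have hNX : (N : ℝ) ≤ X ^ (51 / 100 : ℝ) := by
    rw [hN, ← hexpN]; exact Nat.floor_le (Real.exp_pos _).le
  have hlogX : Real.log X = L := hLX.symm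
  -- the integrand
  obtain ⟨J, hJ⟩ : ∃ J : ℝ × ℝ → ℝ → ℂ, J = fun (p : ℝ × ℝ) (y : ℝ) =>
    Pool.Agent.H448R2.GC.XX (1 - (1 / 2 + I * (v p : ℂ)) - (((-(1 / L) : ℝ) : ℂ) + (y : ℂ) * I)) *
      cs k c (101 / 200 * L) (1 - (1 / 2 + I * (v p : ℂ)) -
        (((-(1 / L) : ℝ) : ℂ) + (y : ℂ) * I)) *
      ker k c (1 / 2 * L) (-(1 / L)) y := ⟨_, rfl⟩
  have hre : ∀ (p : ℝ × ℝ) (y : ℝ), (1 - (1 / 2 + I * (v p : ℂ)) -
      (((-(1 / L) : ℝ) : ℂ) + (y : ℂ) * I)).re = 1 / 2 + 1 / L := by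
    intro p y; simp; ring
  have hcont : ∀ p, Continuous (J p) := by
    intro p
    rw [hJ]
    have haff : Continuous (fun y : ℝ => (1 - (1 / 2 + I * (v p : ℂ)) -
      (((-(1 / L) : ℝ) : ℂ) + (y : ℂ) * I))) := by fun_prop
    apply Continuous.mul
    · apply Continuous.mul
      · rw [continuous_iff_continuousAt]
        intro y
        apply ContinuousAt.comp (g := Pool.Agent.H448R2.GC.XX)
        · apply Pool.Agent.H448R2.GC.X1.contAt_XX
          rw [hre]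
          positivity
        · exact haff.continuousAt
      · exact (cs_cont k c (101 / 200 * L)).comp haff
    · apply Pool.Agent.H448R2.GC.ker_cont
      have : 0 < 1 / L := by positivity
      linarith
  have hcsN : ∀ (p : ℝ × ℝ) (y : ℝ), ‖cs k c (101 / 200 * L) (1 - (1 / 2 + I * (v p : ℂ)) -
      (((-(1 / L) : ℝ) : ℂ) + (y : ℂ) * I))‖ ≤ N := by
    intro p y
    rw [hN]
    apply Pool.Agent.H448R2.GC.S4.cs_bound k c _ hc0
    rw [hre]
    positivity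
  have hJb : ∀ p ∈ S, ∀ y, ‖J p y‖ ≤ (N * C3) * Pool.Agent.H448R2.GC.M1.gg L k y := by
    intro p hp y
    have h1 := hxk X L (v p) y hLX (by linarith) (hv p hp).1 (hv p hp).2
    rw [← hc] at h1
    rw [hJ]
    simp only
    rw [norm_mul, norm_mul]
    calc _ = ‖cs k c (101 / 200 * L) (1 - (1 / 2 + I * (v p : ℂ)) -
      (((-(1 / L) : ℝ) : ℂ) + (y : ℂ) * I))‖ * (‖Pool.Agent.H448R2.GC.XX
        (1 - (1 / 2 + I * (v p : ℂ)) - (((-(1 / L) : ℝ) : ℂ) + (y : ℂ) * I))‖ *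
          ‖ker k c (1 / 2 * L) (-(1 / L)) y‖) := by ring
      _ ≤ N * (C3 * Pool.Agent.H448R2.GC.M1.gg L k y) := mul_le_mul (hcsN p y) h1 (by positivity) (Nat.cast_nonneg _)
      _ = _ := by ring
  have hgi : Integrable (Pool.Agent.H448R2.GC.M1.gg L k) := Pool.Agent.H448R2.GC.M1.gg_int L k hL1 (by omega)
  have hg2 : Integrable (Pool.Agent.H448R2.GC.M1.gg L 2) := Pool.Agent.H448R2.GC.M1.gg_int L 2 hL1 le_rfl
  have hJi : ∀ p ∈ S, Integrable (J p) := by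
    intro p hp
    apply Integrable.mono' (hgi.const_mul (N * C3)) (hcont p).aestronglyMeasurable
    exact Eventually.of_forall (hJb p hp)
  have e1 : ∑ p ∈ S, MM n b (1 / 2 + I * (v p : ℂ)) * ∫ y : ℝ, J p y =
      ∫ y : ℝ, ∑ p ∈ S, MM n b (1 / 2 + I * (v p : ℂ)) * J p y := by
    rw [integral_finsetSum S (fun p hp => (hJi p hp).const_mul _)]
    refine Finset.sum_congr rfl fun p _ => ?_
    rw [integral_const_mul]
  have e0 : (∑ p ∈ S, MM n b (1 / 2 + I * (v p : ℂ)) * ∫ y : ℝ,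
      Pool.Agent.H448R2.GC.XX (1 - (1 / 2 + I * (v p : ℂ)) - (((-(1 / L) : ℝ) : ℂ) + (y : ℂ) * I)) *
      cs k (1 / 200 * L / k) (101 / 200 * L) (1 - (1 / 2 + I * (v p : ℂ)) -
        (((-(1 / L) : ℝ) : ℂ) + (y : ℂ) * I)) *
      ker k (1 / 200 * L / k) (1 / 2 * L) (-(1 / L)) y) =
      ∑ p ∈ S, MM n b (1 / 2 + I * (v p : ℂ)) * ∫ y : ℝ, J p y := by
    rw [← hc, hJ]
  rw [e0, e1]
  obtain ⟨E, hE⟩ : ∃ E : ℝ, E = X ^ (13 / 50 : ℝ) * R + X ^ (-(1 / 2) : ℝ) * S.card := ⟨_, rfl⟩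
  rw [← hE]
  have hXh : 0 < X ^ (-(1 / 2) : ℝ) := Real.rpow_pos_of_pos hX0 _
  have hE0 : 0 ≤ E := by rw [hE]; positivity
  have hE1 : X ^ (13 / 50 : ℝ) * R ≤ E := by
    rw [hE]
    have : 0 ≤ X ^ (-(1 / 2) : ℝ) * (S.card : ℝ) := by positivity
    linarith
  have hE2 : X ^ (-(1 / 2) : ℝ) * S.card ≤ E := by
    rw [hE]
    have : 0 ≤ X ^ (13 / 50 : ℝ) * R := by positivity
    linarith
  have hpt : ∀ y : ℝ, ‖∑ p ∈ S, MM n b (1 / 2 + I * (v p : ℂ)) * J p y‖ ≤ (C' * E) * Pool.Agent.H448R2.GC.M1.gg L 2 y := by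
    intro y
    have hLy : 0 ≤ L * |y| := by positivity
    have hg20 : 0 ≤ Pool.Agent.H448R2.GC.M1.gg L 2 y := Pool.Agent.H448R2.GC.M1.gg_nonneg L 2 y hL1
    rcases le_or_gt |y| (X / 4) with hy | hy
    · have hlogb : ∀ m ∈ Finset.Icc 1 ⌊Real.exp (101 / 200 * L + k * c)⌋₊,
          ∀ h ∈ Finset.Icc 1 n, |Real.log m - Real.log h| ≤ 52 / 100 * L := by
        intro m hm h hh
        rw [← hN, Finset.mem_Icc] at hm
        rw [Finset.mem_Icc] at hh
        have hm1 : 0 ≤ Real.log m := Real.log_nonneg (by exact_mod_cast hm.1)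
        have hh1 : 0 ≤ Real.log h := Real.log_nonneg (by exact_mod_cast hh.1)
        have hm0 : (0 : ℝ) < m := by exact_mod_cast hm.1
        have hh0 : (0 : ℝ) < h := by exact_mod_cast hh.1
        have hm2 : Real.log m ≤ 51 / 100 * L := by
          have h1 : (m : ℝ) ≤ X ^ (51 / 100 : ℝ) := le_trans (by exact_mod_cast hm.2) hNX
          have h2 := Real.log_le_log hm0 h1
          rwa [Real.log_rpow hX0, ← hLX] at h2
        have hh2 : Real.log h ≤ 1 / 100 * L := by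
          have h1 : (h : ℝ) ≤ 2 * X ^ (1 / 200 : ℝ) := le_trans (by exact_mod_cast hh.2) hn2
          have h2 := Real.log_le_log hh0 h1
          rw [Real.log_mul (by norm_num) (by positivity), Real.log_rpow hX0, ← hLX] at h2
          have h3 := Real.log_two_lt_d9
          linarith
        rw [abs_le]
        constructor <;> linarith
      have h1 := dual_pt k c (101 / 200 * L) hc0 n b hb1 S v X L R y hLX (by linarith) hy hv
        (ker k c (1 / 2 * L) (-(1 / L)) y) hlogb (fun μ hμ => hD μ y hμ hy)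
      have h0 : ∑ p ∈ S, MM n b (1 / 2 + I * (v p : ℂ)) * J p y =
          ∑ p ∈ S, MM n b (1 / 2 + I * (v p : ℂ)) *
      (Pool.Agent.H448R2.GC.XX (1 - (1 / 2 + I * (v p : ℂ)) - (((-(1 / L) : ℝ) : ℂ) + (y : ℂ) * I)) *
      cs k c (101 / 200 * L) (1 - (1 / 2 + I * (v p : ℂ)) - (((-(1 / L) : ℝ) : ℂ) + (y : ℂ) * I)) *
        ker k c (1 / 2 * L) (-(1 / L)) y) := by rw [hJ]
      rw [h0]
      refine h1.trans ?_
      rw [← hN]
      have h1L0 : 0 < 1 / L := by positivity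
      have hk3 := hker L (1 / 2 * L) (-(1 / L)) y hL1
        (by rw [abs_of_pos (by positivity)]; linarith)
        (by rw [abs_neg, abs_of_pos h1L0]) (by rw [abs_neg, abs_of_pos h1L0])
      rw [← hc] at hk3
      have hk4 : ‖ker k c (1 / 2 * L) (-(1 / L)) y‖ ≤ Ck * Pool.Agent.H448R2.GC.M1.gg L 2 y := by
        refine hk3.trans (mul_le_mul_of_nonneg_left ?_ hCk.le)
        unfold Pool.Agent.H448R2.GC.M1.gg
        apply div_le_div_of_nonneg_left hL0.le (by positivity)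
        exact pow_le_pow_right₀ (by linarith) (by omega)
      have hsq : Real.sqrt N ≤ X ^ (51 / 200 : ℝ) := by
        apply Real.sqrt_le_iff.2
        refine ⟨by positivity, hNX.trans (le_of_eq ?_)⟩
        rw [← Real.rpow_natCast, ← Real.rpow_mul hX0.le]
        norm_num
      have h2 : (n : ℝ) * (2 * Real.sqrt N) ≤ 4 * X ^ (13 / 50 : ℝ) := by
        calc (n : ℝ) * (2 * Real.sqrt N) ≤ (2 * X ^ (1 / 200 : ℝ)) * (2 * X ^ (51 / 200 : ℝ)) := by
              gcongr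
          _ = 4 * (X ^ (1 / 200 : ℝ) * X ^ (51 / 200 : ℝ)) := by ring
          _ = _ := by rw [← Real.rpow_add hX0]; norm_num
      have h3 : X ^ (13 / 50 : ℝ) * (48 / X) ≤ 48 * X ^ (-(1 / 2) : ℝ) := by
        have h4 : X ^ (13 / 50 : ℝ) * (48 / X) = 48 * X ^ (-(37 / 50) : ℝ) := by
          have h5 : X ^ (-(37 / 50) : ℝ) = X ^ (13 / 50 : ℝ) / X := by
            nth_rewrite 3 [← Real.rpow_one X]
            rw [← Real.rpow_sub hX0]
            norm_num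
          rw [h5]
          ring
        rw [h4]
        apply mul_le_mul_of_nonneg_left _ (by norm_num)
        exact Real.rpow_le_rpow_of_exponent_le hX1 (by norm_num)
      have h4 : (n : ℝ) * (2 * Real.sqrt N) * (R + 48 / X * S.card) ≤ 192 * E := by
        calc (n : ℝ) * (2 * Real.sqrt N) * (R + 48 / X * S.card) ≤
              (4 * X ^ (13 / 50 : ℝ)) * (R + 48 / X * S.card) :=
              mul_le_mul_of_nonneg_right h2 (by positivity)
          _ = 4 * (X ^ (13 / 50 : ℝ) * R) + 4 * (X ^ (13 / 50 : ℝ) * (48 / X)) * S.card := by ring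
          _ ≤ 4 * (X ^ (13 / 50 : ℝ) * R) + 4 * (48 * X ^ (-(1 / 2) : ℝ)) * S.card := by
              gcongr
          _ = 4 * (X ^ (13 / 50 : ℝ) * R) + 192 * (X ^ (-(1 / 2) : ℝ) * S.card) := by ring
          _ ≤ 192 * E := by
              rw [hE]
              have : 0 ≤ X ^ (13 / 50 : ℝ) * R := by positivity
              linarith
      calc (n : ℝ) * (2 * Real.sqrt N) * (R + 48 / X * S.card) *
            ‖ker k c (1 / 2 * L) (-(1 / L)) y‖ ≤ (192 * E) * (Ck * Pool.Agent.H448R2.GC.M1.gg L 2 y) :=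
            mul_le_mul h4 hk4 (norm_nonneg _) (by positivity)
        _ = (192 * Ck * E) * Pool.Agent.H448R2.GC.M1.gg L 2 y := by ring
        _ ≤ (C' * E) * Pool.Agent.H448R2.GC.M1.gg L 2 y := by
            apply mul_le_mul_of_nonneg_right _ hg20
            apply mul_le_mul_of_nonneg_right _ hE0
            rw [hC']
            linarith
    · have h1 : ∀ p ∈ S, ‖MM n b (1 / 2 + I * (v p : ℂ)) * J p y‖ ≤
          (2 * X ^ (1 / 200 : ℝ)) * ((X ^ (51 / 100 : ℝ) * C3) * Pool.Agent.H448R2.GC.M1.gg L k y) := by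
        intro p hp
        rw [norm_mul]
        have h2 := MM_norm n b hb1 (1 / 2 + I * (v p : ℂ)) (by simp)
        apply mul_le_mul (h2.trans hn2) _ (norm_nonneg _) (by positivity)
        refine (hJb p hp y).trans ?_
        apply mul_le_mul_of_nonneg_right _ (Pool.Agent.H448R2.GC.M1.gg_nonneg L k y hL1)
        exact mul_le_mul_of_nonneg_right hNX hC3.le
      have h2 := norm_sum_le_of_le S h1
      rw [Finset.sum_const, nsmul_eq_mul] at h2
      refine h2.trans ?_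
      have hXy : X / 4 ≤ 1 + L * |y| := by
        have : |y| ≤ L * |y| := le_mul_of_one_le_left (abs_nonneg y) hL1
        linarith
      have h3 : Pool.Agent.H448R2.GC.M1.gg L k y ≤ Pool.Agent.H448R2.GC.M1.gg L 2 y * (16 / X ^ 2) := by
        unfold Pool.Agent.H448R2.GC.M1.gg
        rw [div_mul_div_comm, div_le_div_iff₀ (by positivity) (by positivity)]
        have h4 : (1 + L * |y|) ^ 4 ≤ (1 + L * |y|) ^ k :=
          pow_le_pow_right₀ (by linarith) hk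
        have h5 : (X / 4) ^ 2 ≤ (1 + L * |y|) ^ 2 := pow_le_pow_left₀ (by positivity) hXy 2
        have h6 : (1 + L * |y|) ^ 2 * X ^ 2 ≤ 16 * (1 + L * |y|) ^ k := by
          calc (1 + L * |y|) ^ 2 * X ^ 2 = 16 * ((1 + L * |y|) ^ 2 * (X / 4) ^ 2) := by ring
            _ ≤ 16 * ((1 + L * |y|) ^ 2 * (1 + L * |y|) ^ 2) := by gcongr
            _ = 16 * (1 + L * |y|) ^ 4 := by ring
            _ ≤ _ := by gcongr
        calc L * ((1 + L * |y|) ^ 2 * X ^ 2) ≤ L * (16 * (1 + L * |y|) ^ k) :=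
              mul_le_mul_of_nonneg_left h6 hL0.le
          _ = _ := by ring
      have h4 : X ^ (1 / 200 : ℝ) * X ^ (51 / 100 : ℝ) / X ^ 2 ≤ X ^ (-(1 / 2) : ℝ) := by
        have h5 : X ^ (1 / 200 : ℝ) * X ^ (51 / 100 : ℝ) / X ^ 2 = X ^ (-(297 / 200) : ℝ) := by
          rw [← Real.rpow_add hX0, ← Real.rpow_natCast X 2, ← Real.rpow_sub hX0]
          norm_num
        rw [h5]
        exact Real.rpow_le_rpow_of_exponent_le hX1 (by norm_num)
      calc (S.card : ℝ) * ((2 * X ^ (1 / 200 : ℝ)) * ((X ^ (51 / 100 : ℝ) * C3) * Pool.Agent.H448R2.GC.M1.gg L k y)) ≤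
            (S.card : ℝ) * ((2 * X ^ (1 / 200 : ℝ)) * ((X ^ (51 / 100 : ℝ) * C3) *
              (Pool.Agent.H448R2.GC.M1.gg L 2 y * (16 / X ^ 2)))) := by gcongr
        _ = 32 * C3 * ((X ^ (1 / 200 : ℝ) * X ^ (51 / 100 : ℝ) / X ^ 2) * S.card) * Pool.Agent.H448R2.GC.M1.gg L 2 y := by
            ring
        _ ≤ 32 * C3 * (X ^ (-(1 / 2) : ℝ) * S.card) * Pool.Agent.H448R2.GC.M1.gg L 2 y := by gcongr
        _ ≤ 32 * C3 * E * Pool.Agent.H448R2.GC.M1.gg L 2 y := by gcongr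
        _ ≤ (C' * E) * Pool.Agent.H448R2.GC.M1.gg L 2 y := by
            apply mul_le_mul_of_nonneg_right _ hg20
            apply mul_le_mul_of_nonneg_right _ hE0
            rw [hC']
            linarith
  have hfin := norm_integral_le_of_norm_le (hg2.const_mul (C' * E)) (Eventually.of_forall hpt)
  rw [integral_const_mul] at hfin
  have hs := Pool.Agent.H448R2.GC.scale_integral L 2 hL1 le_rfl
  have hs' : ∫ y, Pool.Agent.H448R2.GC.M1.gg L 2 y ≤ 2 := hs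
  refine hfin.trans ?_
  calc C' * E * ∫ y, Pool.Agent.H448R2.GC.M1.gg L 2 y ≤ C' * E * 2 := mul_le_mul_of_nonneg_left hs' (by positivity)
    _ = 2 * C' * E := by ring

/-- the first moment -/
theorem first_abs : ∃ C X0 : ℝ, 0 < C ∧ ∀ X L : ℝ, X0 ≤ X → L = Real.log X →
    ∀ (S : Finset (ℝ × ℝ)) (v : ℝ × ℝ → ℝ) (R : ℝ), 0 ≤ R →
    (∀ p ∈ S, X ≤ v p ∧ v p ≤ 3 * X) →
    (∀ l : ℝ, 1 / 2 ≤ l → l ≤ L → ‖∑ p ∈ S, cexp (I * ((-l * v p : ℝ) : ℂ))‖ ≤ R) →
    (∀ μ y : ℝ, |μ| ≤ 52 / 100 * L → |y| ≤ X / 4 → ‖∑ p ∈ S,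
      ((Real.exp (Real.log ((v p + y) / (2 * Real.pi)) / L) : ℝ) : ℂ) *
      cexp (I * (((v p + y) * (μ + 1 - Real.log ((v p + y) / (2 * Real.pi))) : ℝ) : ℂ))‖ ≤ R) →
    ‖∑ p ∈ S, FF X (I * (v p : ℂ)) - S.card‖ ≤
      C * (X ^ (13 / 50 : ℝ) * R + X ^ (-(1 / 2) : ℝ) * S.card) := by
  obtain ⟨k₀, hk₀⟩ := Pool.Agent.TH806.afe 1
  obtain ⟨k, hk⟩ : ∃ k : ℕ, k = max k₀ 4 := ⟨_, rfl⟩
  have hk1 : k₀ ≤ k := by rw [hk]; exact le_max_left _ _
  have hk4 : 4 ≤ k := by rw [hk]; exact le_max_right _ _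
  obtain ⟨T₁, hafe⟩ := hk₀ k hk1
  obtain ⟨C1, X1, hC1, hdual⟩ := dual_abs k hk4
  refine ⟨C1 + 6, max (max T₁ X1) (Real.exp 200), by positivity, ?_⟩
  intro X L hX hLX S v R hR hv hP hD
  have hXT : T₁ ≤ X := ((le_max_left _ _).trans (le_max_left _ _)).trans hX
  have hXX1 : X1 ≤ X := ((le_max_right _ _).trans (le_max_left _ _)).trans hX
  have hXe : Real.exp 200 ≤ X := (le_max_right _ _).trans hX
  have hX0 : 0 < X := (Real.exp_pos _).trans_le hXe
  have hL200 : 200 ≤ L := by rw [hLX, Real.le_log_iff_exp_le hX0]; exact hXe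
  have hL0 : 0 < L := by linarith
  have hX1 : 1 ≤ X := by
    have := Real.add_one_le_exp (200 : ℝ)
    linarith
  have hk0 : (0 : ℝ) < k := by exact_mod_cast (by omega : 0 < k)
  have hd := hdual X L hXX1 hLX S v R hR hv hD
  obtain ⟨c, hc⟩ : ∃ c : ℝ, c = 1 / 200 * L / k := ⟨_, rfl⟩
  have hc0 : 0 < c := by rw [hc]; positivity
  have hkc : k * c = 1 / 200 * L := by rw [hc]; field_simp
  obtain ⟨n, hn⟩ : ∃ n : ℕ, n = yy (1 / 200) X := ⟨_, rfl⟩
  obtain ⟨b, hb⟩ : ∃ b : ℕ → ℂ, b = bb (1 / 200) L 0 := ⟨_, rfl⟩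
  have hb1 : ∀ h, ‖b h‖ ≤ 1 := fun h => by rw [hb]; exact bb_norm _ _ h
  rw [← hn, ← hb] at hd
  have hb0 : b 1 = 1 := by
    rw [hb, bb_small _ _ 1 (by rw [Nat.cast_one, Real.log_one, zero_div]; norm_num)]
    simp
  have p2 : 1 ≤ X ^ (1 / 200 : ℝ) := Real.one_le_rpow hX1 (by norm_num)
  have hn1 : 1 ≤ n := by
    rw [hn]
    unfold yy
    exact Nat.one_le_ceil_iff.2 (by linarith)
  have hn2 : (n : ℝ) ≤ 2 * X ^ (1 / 200 : ℝ) := by
    rw [hn]
    have := Nat.ceil_lt_add_one (show 0 ≤ X ^ (1 / 200 : ℝ) by linarith)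
    unfold yy
    linarith
  obtain ⟨N, hN⟩ : ∃ N : ℕ, N = ⌊Real.exp (1 / 2 * L + k * c)⌋₊ := ⟨_, rfl⟩
  have hexpN : Real.exp (1 / 2 * L + k * c) = X ^ (101 / 200 : ℝ) := by
    rw [hkc, Real.rpow_def_of_pos hX0, ← hLX]
    congr 1
    ring
  have hNX : (N : ℝ) ≤ X ^ (101 / 200 : ℝ) := by
    rw [hN, ← hexpN]; exact Nat.floor_le (Real.exp_pos _).le
  have hpl := plain_abs k c (1 / 2 * L) hc0 (by positivity) n hn1 b hb0 hb1 S v L R hR
    (by
      intro m hm h hh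
      rw [← hN, Finset.mem_Icc] at hm
      rw [Finset.mem_Icc] at hh
      have hm0 : (0 : ℝ) < m := by exact_mod_cast hm.1
      have hh0 : (0 : ℝ) < h := by exact_mod_cast hh.1
      have hm2 : Real.log m ≤ 101 / 200 * L := by
        have h1 : (m : ℝ) ≤ X ^ (101 / 200 : ℝ) := le_trans (by exact_mod_cast hm.2) hNX
        have h2 := Real.log_le_log hm0 h1
        rwa [Real.log_rpow hX0, ← hLX] at h2
      have hh2 : Real.log h ≤ 1 / 100 * L := by
        have h1 : (h : ℝ) ≤ 2 * X ^ (1 / 200 : ℝ) := le_trans (by exact_mod_cast hh.2) hn2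
        have h2 := Real.log_le_log hh0 h1
        rw [Real.log_mul (by norm_num) (by positivity), Real.log_rpow hX0, ← hLX] at h2
        have h3 := Real.log_two_lt_d9
        linarith
      linarith) hP
  rw [← hN] at hpl
  obtain ⟨J, hJ⟩ : ∃ J : ℝ × ℝ → ℂ, J = fun p => ∫ y : ℝ,
      Pool.Agent.H448R2.GC.XX (1 - (1 / 2 + I * (v p : ℂ)) - (((-(1 / L) : ℝ) : ℂ) + (y : ℂ) * I)) *
      cs k (1 / 200 * L / k) (101 / 200 * L) (1 - (1 / 2 + I * (v p : ℂ)) -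
        (((-(1 / L) : ℝ) : ℂ) + (y : ℂ) * I)) *
      ker k (1 / 200 * L / k) (1 / 2 * L) (-(1 / L)) y := ⟨_, rfl⟩
  have hd' : ‖∑ p ∈ S, MM n b (1 / 2 + I * (v p : ℂ)) * J p‖ ≤
      C1 * (X ^ (13 / 50 : ℝ) * R + X ^ (-(1 / 2) : ℝ) * S.card) := by rw [hJ]; exact hd
  have herr : ∀ p ∈ S, ‖riemannZeta (1 / 2 + I * (v p : ℂ)) -
      cs k c (1 / 2 * L) (1 / 2 + I * (v p : ℂ)) + (1 / (2 * Real.pi)) * J p‖ ≤ X ^ (-1 : ℝ) := by
    intro p hp
    have h1 := hafe X hXT (1 / 2 + I * (v p : ℂ)) (by simp; norm_num) (by simp)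
      (by simp; linarith [(hv p hp).1]) (by simp; linarith [(hv p hp).2]) (1 / L)
      (by positivity) (by
        rw [div_le_div_iff₀ hL0 (by norm_num)]; linarith)
    rw [← hLX, ← hc] at h1
    rw [hJ, ← hc]
    exact h1
  have hFF : ∀ x : ℝ, FF X (I * (x : ℂ)) =
      riemannZeta (1 / 2 + I * (x : ℂ)) * MM n b (1 / 2 + I * (x : ℂ)) := by
    intro x
    unfold FF Mo mT
    rw [hn, hb, hLX]
  have hdec : ∑ p ∈ S, FF X (I * (v p : ℂ)) - S.card =
      (∑ p ∈ S, cs k c (1 / 2 * L) (1 / 2 + I * (v p : ℂ)) * MM n b (1 / 2 + I * (v p : ℂ)) -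
        S.card) - (1 / (2 * Real.pi)) * ∑ p ∈ S, MM n b (1 / 2 + I * (v p : ℂ)) * J p +
      ∑ p ∈ S, (riemannZeta (1 / 2 + I * (v p : ℂ)) -
      cs k c (1 / 2 * L) (1 / 2 + I * (v p : ℂ)) + (1 / (2 * Real.pi)) * J p) *
        MM n b (1 / 2 + I * (v p : ℂ)) := by
    rw [Finset.mul_sum, sub_right_comm, ← Finset.sum_sub_distrib, sub_add_eq_add_sub,
      ← Finset.sum_add_distrib]
    congr 1
    refine Finset.sum_congr rfl fun p _ => ?_
    rw [hFF]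
    ring
  rw [hdec]
  have hpi : ‖(1 / (2 * Real.pi) : ℂ)‖ ≤ 1 := by
    have e : (1 / (2 * Real.pi) : ℂ) = ((1 / (2 * Real.pi) : ℝ) : ℂ) := by push_cast; ring
    rw [e, Complex.norm_real, Real.norm_eq_abs, abs_of_pos (by positivity)]
    rw [div_le_one (by positivity)]
    linarith [Real.pi_gt_three]
  have t1 := norm_add_le ((∑ p ∈ S, cs k c (1 / 2 * L) (1 / 2 + I * (v p : ℂ)) *
      MM n b (1 / 2 + I * (v p : ℂ)) - S.card) - (1 / (2 * Real.pi)) *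
        ∑ p ∈ S, MM n b (1 / 2 + I * (v p : ℂ)) * J p)
      (∑ p ∈ S, (riemannZeta (1 / 2 + I * (v p : ℂ)) -
      cs k c (1 / 2 * L) (1 / 2 + I * (v p : ℂ)) + (1 / (2 * Real.pi)) * J p) *
        MM n b (1 / 2 + I * (v p : ℂ)))
  have t2 := norm_sub_le (∑ p ∈ S, cs k c (1 / 2 * L) (1 / 2 + I * (v p : ℂ)) *
      MM n b (1 / 2 + I * (v p : ℂ)) - S.card) ((1 / (2 * Real.pi)) *
        ∑ p ∈ S, MM n b (1 / 2 + I * (v p : ℂ)) * J p)
  have t3 : ‖((1 / (2 * Real.pi)) : ℂ) * ∑ p ∈ S, MM n b (1 / 2 + I * (v p : ℂ)) * J p‖ ≤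
      C1 * (X ^ (13 / 50 : ℝ) * R + X ^ (-(1 / 2) : ℝ) * S.card) := by
    rw [norm_mul]
    exact (mul_le_of_le_one_left (norm_nonneg _) hpi).trans hd'
  have t4 : ‖∑ p ∈ S, (riemannZeta (1 / 2 + I * (v p : ℂ)) -
      cs k c (1 / 2 * L) (1 / 2 + I * (v p : ℂ)) + (1 / (2 * Real.pi)) * J p) *
        MM n b (1 / 2 + I * (v p : ℂ))‖ ≤ 2 * (X ^ (-(1 / 2) : ℝ) * S.card) := by
    have h1 : ∀ p ∈ S, ‖(riemannZeta (1 / 2 + I * (v p : ℂ)) -
      cs k c (1 / 2 * L) (1 / 2 + I * (v p : ℂ)) + (1 / (2 * Real.pi)) * J p) *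
        MM n b (1 / 2 + I * (v p : ℂ))‖ ≤ 2 * X ^ (-(1 / 2) : ℝ) := by
      intro p hp
      rw [norm_mul]
      have h2 := MM_norm n b hb1 (1 / 2 + I * (v p : ℂ)) (by simp)
      calc _ ≤ X ^ (-1 : ℝ) * (2 * X ^ (1 / 200 : ℝ)) :=
            mul_le_mul (herr p hp) (h2.trans hn2) (norm_nonneg _) (by positivity)
        _ = 2 * (X ^ (-1 : ℝ) * X ^ (1 / 200 : ℝ)) := by ring
        _ = 2 * X ^ (-(199 / 200) : ℝ) := by rw [← Real.rpow_add hX0]; norm_num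
        _ ≤ _ := by
          apply mul_le_mul_of_nonneg_left _ (by norm_num)
          exact Real.rpow_le_rpow_of_exponent_le hX1 (by norm_num)
    refine (norm_sum_le_of_le S h1).trans ?_
    rw [Finset.sum_const, nsmul_eq_mul]
    exact le_of_eq (by ring)
  have hsq : Real.sqrt N ≤ X ^ (101 / 400 : ℝ) := by
    apply Real.sqrt_le_iff.2
    refine ⟨by positivity, hNX.trans (le_of_eq ?_)⟩
    rw [← Real.rpow_natCast, ← Real.rpow_mul hX0.le]
    norm_num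
  have t5 : n * (2 * Real.sqrt N) * R ≤ 4 * (X ^ (13 / 50 : ℝ) * R) := by
    calc n * (2 * Real.sqrt N) * R ≤ (2 * X ^ (1 / 200 : ℝ)) * (2 * X ^ (101 / 400 : ℝ)) * R := by
          gcongr
      _ = 4 * ((X ^ (1 / 200 : ℝ) * X ^ (101 / 400 : ℝ)) * R) := by ring
      _ = 4 * (X ^ (103 / 400 : ℝ) * R) := by rw [← Real.rpow_add hX0]; norm_num
      _ ≤ 4 * (X ^ (13 / 50 : ℝ) * R) := by
          apply mul_le_mul_of_nonneg_left _ (by norm_num)
          apply mul_le_mul_of_nonneg_right _ hR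
          exact Real.rpow_le_rpow_of_exponent_le hX1 (by norm_num)
  have hpos1 : 0 ≤ X ^ (13 / 50 : ℝ) * R := by positivity
  have hpos2 : 0 ≤ X ^ (-(1 / 2) : ℝ) * (S.card : ℝ) := by positivity
  have hfin : (C1 + 6) * (X ^ (13 / 50 : ℝ) * R + X ^ (-(1 / 2) : ℝ) * S.card) =
      C1 * (X ^ (13 / 50 : ℝ) * R + X ^ (-(1 / 2) : ℝ) * S.card) +
      6 * (X ^ (13 / 50 : ℝ) * R) + 6 * (X ^ (-(1 / 2) : ℝ) * S.card) := by ring
  rw [hfin]
  linarith

end Pool.Agent.TH99.NL
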