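import Pool.Agent.TH99.NL.Pr
import Pool.Agent.TH99.AR.Main

set_option autoImplicit false

/-!
# Relations between ordinates of zeros given by families of functions
-/

namespace Pool.Agent.TH99.NL

open Complex Filter Topology MeasureTheory Set
open Pool.Agent.H452R4.LI
open Pool.Agent.H452R4.LI.CORaux
open Pool.Agent.TH801.TU
open Pool.Agent.TH99.AR

/-- a family of functions at the scale `T` -/
structure Fam (K η T P Q : ℝ) (B : Finset ℝ) (H H1 H2 : ℝ → ℝ → ℝ) : Prop where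
  d0 : ∀ b ∈ B, ∀ u ∈ Icc P Q, HasDerivAt (H b) (H1 b u) u
  d1 : ∀ b ∈ B, ∀ u ∈ Icc P Q, HasDerivAt (H1 b) (H2 b u) u
  c2 : ∀ b ∈ B, ContinuousOn (H2 b) (Icc P Q)
  lo : ∀ b ∈ B, ∀ u ∈ Icc P Q, η * T ≤ H b u
  hi : ∀ b ∈ B, ∀ u ∈ Icc P Q, H b u ≤ K * T
  h1 : ∀ b ∈ B, ∀ u ∈ Icc P Q, |H1 b u| ≤ K
  h2 : ∀ b ∈ B, ∀ u ∈ Icc P Q, |H2 b u| ≤ K / T
  l0 : ∀ b ∈ B, ∀ b' ∈ B, ∀ u ∈ Icc P Q, |b - b'| ≤ K * |H b u - H b' u|
  l0' : ∀ b ∈ B, ∀ b' ∈ B, ∀ u ∈ Icc P Q, |H b u - H b' u| ≤ K * |b - b'|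
  l1 : ∀ b ∈ B, ∀ b' ∈ B, ∀ u ∈ Icc P Q, |b - b'| ≤ K * T * |H1 b u - H1 b' u|
  l1' : ∀ b ∈ B, ∀ b' ∈ B, ∀ u ∈ Icc P Q, |H1 b u - H1 b' u| ≤ K / T * |b - b'|
  l2 : ∀ b ∈ B, ∀ b' ∈ B, ∀ u ∈ Icc P Q, |H2 b u - H2 b' u| ≤ K / T ^ 2 * |b - b'|

/-- the function does not vary much on a block -/
lemma vary (K T P Q : ℝ) (B : Finset ℝ) (H H1 : ℝ → ℝ → ℝ)
    (d0 : ∀ b ∈ B, ∀ u ∈ Icc P Q, HasDerivAt (H b) (H1 b u) u)
    (h1 : ∀ b ∈ B, ∀ u ∈ Icc P Q, |H1 b u| ≤ K)
    (l0' : ∀ b ∈ B, ∀ b' ∈ B, ∀ u ∈ Icc P Q, |H b u - H b' u| ≤ K * |b - b'|)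
    (b b' u u' : ℝ) (hb : b ∈ B) (hb' : b' ∈ B) (hu : u ∈ Icc P Q) (hu' : u' ∈ Icc P Q) :
    |H b u - H b' u'| ≤ K * |b - b'| + K * |u - u'| := by
  have e : H b u - H b' u' = (H b u - H b' u) + (H b' u - H b' u') := by ring
  rw [e]
  refine (abs_add_le _ _).trans (add_le_add (l0' b hb b' hb' u hu) ?_)
  have h := Convex.norm_image_sub_le_of_norm_hasDerivWithin_le (f := H b') (f' := H1 b') (C := K)
    (s := Icc P Q) (x := u') (y := u) (fun x hx => (d0 b' hb' x hx).hasDerivWithinAt)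
    (fun x hx => by rw [Real.norm_eq_abs]; exact h1 b' hb' x hx) (convex_Icc P Q) hu' hu
  rwa [Real.norm_eq_abs, Real.norm_eq_abs] at h

/-- the theorem for two sets -/
theorem gen2 (K η : ℝ) (hK : 1 ≤ K) (hη : 0 < η) : ∃ c T1 : ℝ, 0 < c ∧
    ∀ T : ℝ, T1 ≤ T → ∀ (A B : Finset ℝ) (P Q : ℝ) (H H1 H2 : ℝ → ℝ → ℝ),
    Q - P ≤ K * T → Fam K η T P Q B H H1 H2 →
    (∀ a ∈ A, P ≤ a ∧ a + 1 ≤ Q) →
    dens A (K * Real.log T) → T ^ (109 / 200 : ℝ) ≤ A.card →
    (∀ b ∈ B, 0 < b ∧ b ≤ K * T ∧ riemannZeta (1 / 2 + I * (b : ℂ)) = 0) →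
    η * T * Real.log T ≤ B.card →
    ∀ G : Finset (ℝ × ℝ),
      (∀ p ∈ A ×ˢ B, Far (c / Real.log T) (H p.2 p.1) → p ∈ G) →
    c * (A.card * B.card) < (G.card : ℝ) := by
  classical
  have hK0 : 0 < K := by linarith
  obtain ⟨C5, hC5, hzc⟩ := Pool.Agent.H452R4.LI.zc
  obtain ⟨κ, hκ⟩ : ∃ κ : ℝ, κ = η / (40 * K) := ⟨_, rfl⟩
  have hκ0 : 0 < κ := by rw [hκ]; positivity
  have hKκ : K * κ = η / 40 := by rw [hκ]; field_simp
  obtain ⟨K1, η1, T2, hK1, hη1, hblock⟩ := blockB' K η κ hK hη hκ0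
  obtain ⟨N, hN⟩ : ∃ N : ℕ, N = ⌈K / κ⌉₊ := ⟨_, rfl⟩
  have hN1 : K / κ ≤ N := by rw [hN]; exact Nat.le_ceil _
  have hN0 : (0 : ℝ) < N := lt_of_lt_of_le (by positivity) hN1
  have hNpos : 1 ≤ N := by exact_mod_cast hN0
  obtain ⟨K', hK'⟩ : ∃ K' : ℝ, K' = K + K ^ 2 + K ^ 3 + 2 * K / η + 2 * K + 4 * C5 + K1 +
    4 * κ / η + 2 / η := ⟨_, rfl⟩
  have q1 : 0 < 2 * K / η := by positivity
  have q2 : 0 < 4 * κ / η := by positivity
  have q3 : 0 < 2 / η := by positivity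
  have q4 : 0 < K ^ 2 := by positivity
  have q5 : 0 < K ^ 3 := by positivity
  have hK'1 : 1 ≤ K' := by rw [hK']; linarith
  have hK'0 : 0 < K' := by linarith
  obtain ⟨η', hη'⟩ : ∃ η' : ℝ, η' = η1 / (2 * K) := ⟨_, rfl⟩
  have hη'0 : 0 < η' := by rw [hη']; positivity
  obtain ⟨c0, X1, hc0, hc01, hpair⟩ := pairH K' η' hK'1 hη'0
  obtain ⟨D, hD⟩ : ∃ D : ℝ, D = 4 * C5 * K := ⟨_, rfl⟩
  have hD0 : 0 < D := by rw [hD]; positivity
  obtain ⟨T3, hT3⟩ : ∃ T3 : ℝ, ∀ T : ℝ, T3 ≤ T → K * N ≤ T ^ (1 / 200 : ℝ) := by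
    have h1 := (tendsto_rpow_atTop (y := 1 / 200) (by norm_num)).eventually_ge_atTop (K * N)
    exact eventually_atTop.1 h1
  obtain ⟨c, hc⟩ : ∃ c : ℝ, c = min (c0 / 2) (c0 * η1 / (2 * N * D)) := ⟨_, rfl⟩
  have hcpos : 0 < c := by rw [hc]; apply lt_min <;> positivity
  have hcc1 : c ≤ c0 / 2 := by rw [hc]; exact min_le_left _ _
  have hcc2 : c ≤ c0 * η1 / (2 * N * D) := by rw [hc]; exact min_le_right _ _
  refine ⟨c, max (max (max T2 T3) (max K 3)) (max (max (X1 / (η / 2)) (1 / κ))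
    (max (1 / (η / 2) ^ 2) (Real.exp 10 / (η / 2)))), hcpos, ?_⟩
  intro T hT A B P Q H H1 H2 hQP hF hA dA cA hBK cB G hG
  have hTT2 : T2 ≤ T := (le_max_left _ _).trans
    ((le_max_left _ _).trans ((le_max_left _ _).trans hT))
  have hTT3 : T3 ≤ T := (le_max_right _ _).trans
    ((le_max_left _ _).trans ((le_max_left _ _).trans hT))
  have hTK : K ≤ T := (le_max_left _ _).trans
    ((le_max_right _ _).trans ((le_max_left _ _).trans hT))
  have hT3' : 3 ≤ T := (le_max_right _ _).trans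
    ((le_max_right _ _).trans ((le_max_left _ _).trans hT))
  have hTX1 : X1 / (η / 2) ≤ T := (le_max_left _ _).trans
    ((le_max_left _ _).trans ((le_max_right _ _).trans hT))
  have hTκ : 1 / κ ≤ T := (le_max_right _ _).trans
    ((le_max_left _ _).trans ((le_max_right _ _).trans hT))
  have hTη : 1 / (η / 2) ^ 2 ≤ T := (le_max_left _ _).trans
    ((le_max_right _ _).trans ((le_max_right _ _).trans hT))
  have hTe : Real.exp 10 / (η / 2) ≤ T := (le_max_right _ _).trans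
    ((le_max_right _ _).trans ((le_max_right _ _).trans hT))
  have hT0 : 0 < T := by linarith
  have hT1 : 1 ≤ T := by linarith
  have hη2 : 0 < η / 2 := by positivity
  have hκT1 : 1 ≤ κ * T := by
    rw [div_le_iff₀ hκ0] at hTκ; linarith
  have hκT0 : 0 < κ * T := by positivity
  have hηTe : Real.exp 10 ≤ η / 2 * T := by
    rw [div_le_iff₀ hη2] at hTe; linarith
  have hKT3 : 3 ≤ K * T := hT3'.trans (le_mul_of_one_le_left hT0.le hK)
  obtain ⟨L, hL⟩ : ∃ L : ℝ, L = Real.log T := ⟨_, rfl⟩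
  have hL1 : 1 ≤ L := by
    rw [hL, Real.le_log_iff_exp_le hT0]
    have := Real.exp_one_lt_d9
    linarith
  have hL0 : 0 < L := by linarith
  have hTp : 0 < T ^ (109 / 200 : ℝ) := Real.rpow_pos_of_pos hT0 _
  have hApos : 0 < (A.card : ℝ) := hTp.trans_le cA
  -- the blocks
  obtain ⟨B1, hB1B, β, hβ, cB1, hcl⟩ := hblock T hTT2 B (fun b => b) hBK (by
    intro b _ b' _
    exact ⟨le_mul_of_one_le_left (abs_nonneg _) hK, le_mul_of_one_le_left (abs_nonneg _) hK⟩) cB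
  obtain ⟨x1, -, -, hx1⟩ := pig A (P - 1) (κ * T) hκT0 N hNpos (by
    intro a ha
    have h1 := hA a ha
    have h2 : K * T ≤ N * (κ * T) := by
      rw [div_le_iff₀ hκ0] at hN1
      calc K * T ≤ (N * κ) * T := by gcongr
        _ = _ := by ring
    constructor <;> linarith)
  obtain ⟨A1, hA1⟩ : ∃ A1 : Finset ℝ, A1 = A.filter (fun x => x1 < x ∧ x ≤ x1 + κ * T) :=
    ⟨_, rfl⟩
  rw [← hA1] at hx1
  have hA1A : A1 ⊆ A := by rw [hA1]; exact Finset.filter_subset _ _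
  have hA1v : ∀ a ∈ A1, x1 < a ∧ a ≤ x1 + κ * T := by
    intro a ha
    rw [hA1, Finset.mem_filter] at ha
    exact ha.2
  have hA1c : (A.card : ℝ) / N ≤ A1.card := by
    rw [div_le_iff₀ hN0]; linarith
  have hA1pos : 0 < (A1.card : ℝ) := lt_of_lt_of_le (by positivity) hA1c
  have hB1pos : 0 < (B1.card : ℝ) := by
    rw [← hL] at cB1
    exact lt_of_lt_of_le (by positivity) cB1
  have hA1ne : A1.Nonempty := Finset.card_pos.1 (by exact_mod_cast hA1pos)
  obtain ⟨b0, hb0⟩ : B1.Nonempty := Finset.card_pos.1 (by exact_mod_cast hB1pos)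
  obtain ⟨am, ham, hmin⟩ := Finset.exists_min_image A1 (fun a => a) hA1ne
  obtain ⟨aM, haM, hmax⟩ := Finset.exists_max_image A1 (fun a => a) hA1ne
  have hamM : am ≤ aM := hmin aM haM
  have hPam : P ≤ am := (hA am (hA1A ham)).1
  have hQaM : aM + 1 ≤ Q := (hA aM (hA1A haM)).2
  have hsub : Icc am (aM + 1) ⊆ Icc P Q := Icc_subset_Icc hPam hQaM
  have hlen : aM + 1 - am ≤ 2 * (κ * T) := by
    have h1 := hA1v am ham
    have h2 := hA1v aM haM
    linarith
  obtain ⟨x0, hx0⟩ : ∃ x0 : ℝ, x0 = H b0 am := ⟨_, rfl⟩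
  have hamI : am ∈ Icc P Q := ⟨hPam, by linarith⟩
  have hx0l : η * T ≤ x0 := by rw [hx0]; exact hF.lo b0 (hB1B hb0) am hamI
  have hx0u : x0 ≤ K * T := by rw [hx0]; exact hF.hi b0 (hB1B hb0) am hamI
  have hBd : ∀ b ∈ B1, ∀ b' ∈ B1, |b - b'| ≤ 2 * (κ * T) := by
    intro b hb b' hb'
    have h1 := hβ b hb
    have h2 := hβ b' hb'
    have e : b - b' = (b - β) - (b' - β) := by ring
    rw [e]
    refine (abs_sub _ _).trans ?_
    linarith
  have hvar : ∀ b ∈ B1, ∀ u ∈ Icc am (aM + 1), |H b u - x0| ≤ η / 10 * T := by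
    intro b hb u hu
    rw [hx0]
    refine (vary K T P Q B H H1 hF.d0 hF.h1 hF.l0' b b0 u am (hB1B hb) (hB1B hb0) (hsub hu)
      hamI).trans ?_
    have h1 := hBd b hb b0 hb0
    have h2 : |u - am| ≤ 2 * (κ * T) := by
      rw [abs_le]
      constructor
      · linarith [hu.1]
      · linarith [hu.2]
    calc K * |b - b0| + K * |u - am| ≤ K * (2 * (κ * T)) + K * (2 * (κ * T)) := by gcongr
      _ = 4 * (K * κ) * T := by ring
      _ = η / 10 * T := by rw [hKκ]; ring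
  obtain ⟨X, hX⟩ : ∃ X : ℝ, X = x0 - η / 10 * T := ⟨_, rfl⟩
  have hηT0 : 0 < η * T := by positivity
  have hXl : η / 2 * T ≤ X := by rw [hX]; linarith
  have hXu : X ≤ K * T := by
    rw [hX]
    have : 0 < η / 10 * T := by positivity
    linarith
  have hXe : Real.exp 10 ≤ X := hηTe.trans hXl
  have hX0 : 0 < X := (Real.exp_pos _).trans_le hXe
  have hX10 : 1 ≤ X := (Real.one_le_exp (by norm_num)).trans hXe
  have hXX1 : X1 ≤ X := by
    rw [div_le_iff₀ hη2] at hTX1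
    linarith
  have hlX : 10 ≤ Real.log X := (Real.le_log_iff_exp_le hX0).2 hXe
  have hlX0 : 0 < Real.log X := by linarith
  have hTX : T ≤ 2 / η * X := by
    rw [div_mul_eq_mul_div, le_div_iff₀ hη]; linarith
  have hlogX1 : Real.log X ≤ 2 * L := by
    rw [hL]
    exact (Real.log_le_log hX0 hXu).trans (log_two_mul K hK T hTK)
  have hlogX2 : L ≤ 2 * Real.log X := by
    have h1 : Real.log (η / 2 * T) ≤ Real.log X := Real.log_le_log (by positivity) hXl
    rw [Real.log_mul hη2.ne' hT0.ne', ← hL] at h1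
    have h2 : Real.log (1 / (η / 2) ^ 2) ≤ Real.log T := Real.log_le_log (by positivity) hTη
    rw [one_div, Real.log_inv, Real.log_pow, ← hL] at h2
    push_cast at h2
    linarith
  have hKX : 1 / T ≤ K / X := by
    rw [div_le_div_iff₀ hT0 hX0]; linarith
  have hKXX : K / T ≤ K ^ 2 / X := by
    calc K / T = K * (1 / T) := by ring
      _ ≤ K * (K / X) := by gcongr
      _ = _ := by ring
  have hKXXX : K / T ^ 2 ≤ K ^ 3 / X ^ 2 := by
    calc K / T ^ 2 = K * (1 / T) * (1 / T) := by field_simp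
      _ ≤ K * (K / X) * (K / X) := by gcongr
      _ = _ := by ring
  have hHH : HH K' X am (aM + 1) B1 H H1 H2 := by
    refine ⟨fun b hb u hu => hF.d0 b (hB1B hb) u (hsub hu),
      fun b hb u hu => hF.d1 b (hB1B hb) u (hsub hu),
      fun b hb => (hF.c2 b (hB1B hb)).mono hsub, ?_, ?_, ?_, ?_, ?_, ?_, ?_, ?_, ?_⟩
    · intro b hb u hu
      have h1 := abs_le.1 (hvar b hb u hu)
      rw [hX]
      linarith [h1.1]
    · intro b hb u hu
      have h1 := abs_le.1 (hvar b hb u hu)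
      have h2 : x0 + η / 10 * T ≤ 3 * X := by rw [hX]; linarith
      linarith [h1.2]
    · intro b hb u hu
      refine (hF.h1 b (hB1B hb) u (hsub hu)).trans ?_
      rw [hK']; linarith
    · intro b hb u hu
      refine ((hF.h2 b (hB1B hb) u (hsub hu)).trans hKXX).trans ?_
      apply div_le_div_of_nonneg_right _ hX0.le
      rw [hK']; linarith
    · intro b hb b' hb' u hu
      refine (hF.l0 b (hB1B hb) b' (hB1B hb') u (hsub hu)).trans ?_
      apply mul_le_mul_of_nonneg_right _ (abs_nonneg _)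
      rw [hK']; linarith
    · intro b hb b' hb' u hu
      refine (hF.l0' b (hB1B hb) b' (hB1B hb') u (hsub hu)).trans ?_
      apply mul_le_mul_of_nonneg_right _ (abs_nonneg _)
      rw [hK']; linarith
    · intro b hb b' hb' u hu
      refine (hF.l1 b (hB1B hb) b' (hB1B hb') u (hsub hu)).trans ?_
      apply mul_le_mul_of_nonneg_right _ (abs_nonneg _)
      calc K * T ≤ K * (2 / η * X) := by gcongr
        _ = 2 * K / η * X := by ring
        _ ≤ K' * X := by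
          apply mul_le_mul_of_nonneg_right _ hX0.le
          rw [hK']; linarith
    · intro b hb b' hb' u hu
      refine (hF.l1' b (hB1B hb) b' (hB1B hb') u (hsub hu)).trans ?_
      apply mul_le_mul_of_nonneg_right _ (abs_nonneg _)
      refine hKXX.trans ?_
      apply div_le_div_of_nonneg_right _ hX0.le
      rw [hK']; linarith
    · intro b hb b' hb' u hu
      refine (hF.l2 b (hB1B hb) b' (hB1B hb') u (hsub hu)).trans ?_
      apply mul_le_mul_of_nonneg_right _ (abs_nonneg _)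
      refine hKXXX.trans ?_
      apply div_le_div_of_nonneg_right _ (by positivity)
      rw [hK']; linarith
  have hκX : 2 * (κ * T) ≤ K' * X := by
    calc 2 * (κ * T) ≤ 2 * (κ * (2 / η * X)) := by gcongr
      _ = 4 * κ / η * X := by ring
      _ ≤ K' * X := by
        apply mul_le_mul_of_nonneg_right _ hX0.le
        rw [hK']; linarith
  have hcardA : X ^ (27 / 50 : ℝ) ≤ A1.card := by
    refine le_trans ?_ hA1c
    rw [le_div_iff₀ hN0]
    refine le_trans ?_ cA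
    have e1 := hT3 T hTT3
    have e2 : K ^ (27 / 50 : ℝ) ≤ K := by
      calc K ^ (27 / 50 : ℝ) ≤ K ^ (1 : ℝ) :=
            Real.rpow_le_rpow_of_exponent_le hK (by norm_num)
        _ = K := Real.rpow_one K
    calc X ^ (27 / 50 : ℝ) * N ≤ (K * T) ^ (27 / 50 : ℝ) * N := by
          apply mul_le_mul_of_nonneg_right _ hN0.le
          exact Real.rpow_le_rpow hX0.le hXu (by norm_num)
      _ = K ^ (27 / 50 : ℝ) * T ^ (27 / 50 : ℝ) * N := by
          rw [Real.mul_rpow (by linarith) hT0.le]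
      _ ≤ K * T ^ (27 / 50 : ℝ) * N := by
          apply mul_le_mul_of_nonneg_right _ hN0.le
          exact mul_le_mul_of_nonneg_right e2 (Real.rpow_nonneg hT0.le _)
      _ = (K * N) * T ^ (27 / 50 : ℝ) := by ring
      _ ≤ T ^ (1 / 200 : ℝ) * T ^ (27 / 50 : ℝ) :=
          mul_le_mul_of_nonneg_right e1 (Real.rpow_nonneg hT0.le _)
      _ = T ^ (109 / 200 : ℝ) := by rw [← Real.rpow_add hT0]; norm_num
  have hcardB : η' * X * Real.log X ≤ B1.card := by
    rw [← hL] at cB1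
    refine le_trans ?_ cB1
    calc η' * X * Real.log X ≤ η' * (K * T) * (2 * L) := by gcongr
      _ = η1 * T * L := by rw [hη']; field_simp
  have dB1 : dens B1 (K' * Real.log X) := by
    have h1 := hzc (K * T) B1 hKT3 (fun b hb => hBK b (hB1B hb))
    have h3 : Real.log (K * T) ≤ 2 * L := by rw [hL]; exact log_two_mul K hK T hTK
    refine dens_mono h1 ?_
    calc C5 * Real.log (K * T) ≤ C5 * (2 * (2 * Real.log X)) := by
          have : Real.log (K * T) ≤ 2 * (2 * Real.log X) := by linarith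
          gcongr
      _ = (4 * C5) * Real.log X := by ring
      _ ≤ K' * Real.log X := by
        apply mul_le_mul_of_nonneg_right _ hlX0.le
        rw [hK']; linarith
  have dA1 : dens A1 (K' * Real.log X) := by
    have h1 : dens A1 (K * Real.log T) := by
      intro x
      refine le_trans ?_ (dA x)
      exact_mod_cast Finset.card_le_card (Finset.filter_subset_filter _ hA1A)
    refine dens_mono h1 ?_
    rw [← hL]
    calc K * L ≤ K * (2 * Real.log X) := by gcongr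
      _ = (2 * K) * Real.log X := by ring
      _ ≤ K' * Real.log X := by
        apply mul_le_mul_of_nonneg_right _ hlX0.le
        rw [hK']; linarith
  have key := hpair X hXX1 A1 B1 am (aM + 1) H H1 H2 hHH (by linarith) (hlen.trans hκX)
    (fun b hb b' hb' => (hBd b hb b' hb').trans hκX) dA1 dB1
    (fun a ha => ⟨hmin a ha, by have := hmax a ha; linarith⟩) hcardA hcardB
    (by
      intro y
      refine (hcl X ?_ y).trans ?_
      · refine le_trans ?_ hXl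
        apply mul_le_mul_of_nonneg_right _ hT0.le
        rw [hκ, div_le_div_iff₀ (by positivity) (by norm_num)]
        nlinarith
      · rw [hK']; linarith)
    G
    (by
      intro p hp hFar
      rw [Finset.mem_product] at hp
      apply hG p (Finset.mem_product.2 ⟨hA1A hp.1, hB1B hp.2⟩)
      refine Far_anti ?_ hFar
      rw [← hL, div_le_div_iff₀ hL0 hlX0]
      calc c * Real.log X ≤ (c0 / 2) * (2 * L) := by gcongr
        _ = c0 * L := by ring)
  have hBc : (B.card : ℝ) ≤ D * (T * L) := by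
    have h0 := hzc (K * T) B hKT3 hBK
    have h1 := dens_interval h0 0 (K * T) (by positivity)
    have h2 : B.filter (fun a => 0 ≤ a ∧ a ≤ 0 + K * T) = B := by
      apply Finset.filter_true_of_mem
      intro b hb
      have := hBK b hb
      exact ⟨this.1.le, by linarith [this.2.1]⟩
    rw [h2] at h1
    refine h1.trans ?_
    have h3 : 1 ≤ K * T := by linarith
    have h4 : Real.log (K * T) ≤ 2 * L := by rw [hL]; exact log_two_mul K hK T hTK
    calc C5 * Real.log (K * T) * (K * T + 1) ≤ C5 * (2 * L) * (K * T + K * T) := by gcongr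
      _ = _ := by rw [hD]; ring
  rw [← hL] at cB1
  have hpos : 0 < c0 * ((A.card / N) * (η1 * T * L)) := by positivity
  calc c * (A.card * B.card) ≤ (c0 * η1 / (2 * N * D)) * (A.card * (D * (T * L))) := by gcongr
    _ = (c0 * ((A.card / N) * (η1 * T * L))) / 2 := by field_simp
    _ < c0 * ((A.card / N) * (η1 * T * L)) := by linarith
    _ ≤ c0 * (A1.card * B1.card) := by gcongr
    _ ≤ G.card := key

lemma Fam.mono {K K' η T P Q : ℝ} {B : Finset ℝ} {H H1 H2 : ℝ → ℝ → ℝ} (hT : 0 < T)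
    (hKK : K ≤ K') (h : Fam K η T P Q B H H1 H2) : Fam K' η T P Q B H H1 H2 := by
  refine ⟨h.d0, h.d1, h.c2, h.lo, ?_, ?_, ?_, ?_, ?_, ?_, ?_, ?_⟩
  · intro b hb u hu
    exact (h.hi b hb u hu).trans (mul_le_mul_of_nonneg_right hKK hT.le)
  · intro b hb u hu
    exact (h.h1 b hb u hu).trans hKK
  · intro b hb u hu
    exact (h.h2 b hb u hu).trans (div_le_div_of_nonneg_right hKK hT.le)
  · intro b hb b' hb' u hu
    exact (h.l0 b hb b' hb' u hu).trans (mul_le_mul_of_nonneg_right hKK (abs_nonneg _))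
  · intro b hb b' hb' u hu
    exact (h.l0' b hb b' hb' u hu).trans (mul_le_mul_of_nonneg_right hKK (abs_nonneg _))
  · intro b hb b' hb' u hu
    refine (h.l1 b hb b' hb' u hu).trans (mul_le_mul_of_nonneg_right ?_ (abs_nonneg _))
    exact mul_le_mul_of_nonneg_right hKK hT.le
  · intro b hb b' hb' u hu
    refine (h.l1' b hb b' hb' u hu).trans (mul_le_mul_of_nonneg_right ?_ (abs_nonneg _))
    exact div_le_div_of_nonneg_right hKK hT.le
  · intro b hb b' hb' u hu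
    refine (h.l2 b hb b' hb' u hu).trans (mul_le_mul_of_nonneg_right ?_ (abs_nonneg _))
    exact div_le_div_of_nonneg_right hKK (by positivity)

/-- the exceptional set -/
theorem exc2 (K η : ℝ) (hη : 0 < η) : ∃ c T1 : ℝ, 0 < c ∧
    ∀ T : ℝ, T1 ≤ T → ∀ B : Finset ℝ,
    (∀ b ∈ B, 0 < b ∧ b ≤ K * T ∧ riemannZeta (1 / 2 + I * (b : ℂ)) = 0) →
    η * T * Real.log T ≤ B.card →
    ∀ (P Q : ℝ) (H H1 H2 : ℝ → ℝ → ℝ), Q - P ≤ K * T → Fam K η T P Q B H H1 H2 →
    ∀ (ι : Type) (A : Finset ι) (g : ι → ℝ) (w : ℝ), (∀ a ∈ A, P ≤ g a ∧ g a + 1 ≤ Q) →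
    (∀ y : ℝ, ({a : ι | a ∈ A ∧ y ≤ g a ∧ g a < y + 1}.ncard : ℝ) ≤ w) →
    ({a : ι | a ∈ A ∧ ({γ : ℝ | γ ∈ B ∧ Far (c / Real.log T) (H γ (g a))}.ncard : ℝ) <
      c * B.card}.ncard : ℝ) ≤ w * T ^ (11 / 20 : ℝ) := by
  classical
  obtain ⟨K0, hK0⟩ : ∃ K0 : ℝ, K0 = max K 1 := ⟨_, rfl⟩
  have hK01 : 1 ≤ K0 := by rw [hK0]; exact le_max_right _ _
  have hKK0 : K ≤ K0 := by rw [hK0]; exact le_max_left _ _
  obtain ⟨c, T1, hc, hgen⟩ := gen2 K0 η hK01 hη
  refine ⟨c, max T1 (Real.exp 2), hc, ?_⟩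
  intro T hT B hB cB P Q H H1 H2 hQP hF ι A g w hA hd
  have hTT1 : T1 ≤ T := (le_max_left _ _).trans hT
  have hTe : Real.exp 2 ≤ T := (le_max_right _ _).trans hT
  have hT0 : 0 < T := (Real.exp_pos _).trans_le hTe
  have hT1 : 1 ≤ T := (Real.one_le_exp (by norm_num)).trans hTe
  have hL : 2 ≤ Real.log T := (Real.le_log_iff_exp_le hT0).2 hTe
  have hKT : K * T ≤ K0 * T := mul_le_mul_of_nonneg_right hKK0 hT0.le
  obtain ⟨E, hE⟩ : ∃ E : Finset ι, E = A.filter (fun a =>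
    ({γ : ℝ | γ ∈ B ∧ Far (c / Real.log T) (H γ (g a))}.ncard : ℝ) < c * B.card) := ⟨_, rfl⟩
  have hset : {a : ι | a ∈ A ∧ ({γ : ℝ | γ ∈ B ∧ Far (c / Real.log T) (H γ (g a))}.ncard : ℝ) <
      c * B.card} = (E : Set ι) := by
    ext x
    rw [hE, Finset.mem_coe, Finset.mem_filter]
    rfl
  rw [hset, Set.ncard_coe_finset]
  have hd1 : ∀ y : ℝ, ((A.filter (fun a => y ≤ g a ∧ g a < y + 1)).card : ℝ) ≤ w := by
    intro y
    have h1 : {a : ι | a ∈ A ∧ y ≤ g a ∧ g a < y + 1} =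
        ((A.filter (fun a => y ≤ g a ∧ g a < y + 1) : Finset ι) : Set ι) := by
      ext x
      rw [Finset.mem_coe, Finset.mem_filter]
      rfl
    have h2 := hd y
    rwa [h1, Set.ncard_coe_finset] at h2
  have hw : 0 ≤ w := le_trans (Nat.cast_nonneg _) (hd1 0)
  have hEA : E ⊆ A := by rw [hE]; exact Finset.filter_subset _ _
  obtain ⟨A', hA', hd', hc'⟩ := repr' E g w (by
    intro y
    refine le_trans ?_ (hd1 y)
    exact_mod_cast Finset.card_le_card (Finset.filter_subset_filter _ hEA))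
  have hTT : T ^ (109 / 200 : ℝ) ≤ T ^ (11 / 20 : ℝ) :=
    Real.rpow_le_rpow_of_exponent_le hT1 (by norm_num)
  refine hc'.trans (mul_le_mul_of_nonneg_left (le_trans ?_ hTT) hw)
  by_contra hcon
  push Not at hcon
  have hL0 : 0 < Real.log T := by linarith
  have h1 := hgen T hTT1 A' B P Q H H1 H2 (hQP.trans hKT) (hF.mono hT0 hKK0) (fun z hz => by
      obtain ⟨a, ha, rfl⟩ := hA' z hz
      exact hA a (hEA ha))
    (dens_mono hd' (by
      calc (2 : ℝ) ≤ 1 * Real.log T := by linarith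
        _ ≤ K0 * Real.log T := by gcongr)) hcon.le
    (fun b hb => ⟨(hB b hb).1, (hB b hb).2.1.trans hKT, (hB b hb).2.2⟩) cB
    ((A' ×ˢ B).filter (fun p : ℝ × ℝ => Far (c / Real.log T) (H p.2 p.1)))
    (fun p hp hF => Finset.mem_filter.2 ⟨hp, hF⟩)
  have h2 : (((A' ×ˢ B).filter (fun p : ℝ × ℝ =>
      Far (c / Real.log T) (H p.2 p.1))).card : ℝ) =
      ∑ z ∈ A', ({γ : ℝ | γ ∈ B ∧ Far (c / Real.log T) (H γ z)}.ncard : ℝ) := by
    rw [← Finset.sum_boole, Finset.sum_product]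
    refine Finset.sum_congr rfl fun z _ => ?_
    rw [Finset.sum_boole]
    have h3 : {γ : ℝ | γ ∈ B ∧ Far (c / Real.log T) (H γ z)} =
        ((B.filter (fun γ => Far (c / Real.log T) (H γ z)) : Finset ℝ) : Set ℝ) := by
      ext γ
      rw [Finset.mem_coe, Finset.mem_filter]
      rfl
    rw [h3, Set.ncard_coe_finset]
  rw [h2] at h1
  have h3 : ∑ z ∈ A', ({γ : ℝ | γ ∈ B ∧ Far (c / Real.log T) (H γ z)}.ncard : ℝ) ≤
      ∑ _z ∈ A', c * (B.card : ℝ) := Finset.sum_le_sum fun z hz => by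
    obtain ⟨a, ha, rfl⟩ := hA' z hz
    rw [hE, Finset.mem_filter] at ha
    exact ha.2.le
  rw [Finset.sum_const, nsmul_eq_mul] at h3
  have h4 : c * ((A'.card : ℝ) * B.card) = A'.card * (c * B.card) := by ring
  linarith

end Pool.Agent.TH99.NL
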