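import Mathlib

set_option autoImplicit false

/-!
# An oscillatory integral, and the mean square of a sum of translates of an oscillating function
-/

namespace Pool.Agent.TH99.NL

open Complex MeasureTheory Set Filter Topology

/-- integration by parts -/
lemma osc (p q : ℝ) (hpq : p ≤ q) (α α' : ℝ → ℂ) (E E1 E2 : ℝ → ℝ) (A0 A1 d d2 : ℝ) (hd : 0 < d)
    (hA0 : 0 ≤ A0) (hd2 : 0 ≤ d2)
    (hα : ∀ x ∈ Icc p q, HasDerivAt α (α' x) x) (hE : ∀ x ∈ Icc p q, HasDerivAt E (E1 x) x)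
    (hE1 : ∀ x ∈ Icc p q, HasDerivAt E1 (E2 x) x)
    (hα0 : ∀ x ∈ Icc p q, ‖α x‖ ≤ A0) (hα1 : ∀ x ∈ Icc p q, ‖α' x‖ ≤ A1)
    (hd1 : ∀ x ∈ Icc p q, d ≤ |E1 x|) (hE2 : ∀ x ∈ Icc p q, |E2 x| ≤ d2)
    (cα : ContinuousOn α' (Icc p q)) (cE : ContinuousOn E2 (Icc p q)) :
    ‖∫ x in p..q, α x * cexp (I * (E x : ℂ))‖ ≤
      2 * A0 / d + (q - p) * (A1 / d + A0 * d2 / d ^ 2) := by
  have hA1 : 0 ≤ A1 := (norm_nonneg _).trans (hα1 p (left_mem_Icc.2 hpq))
  have hne : ∀ x ∈ Icc p q, (E1 x : ℂ) ≠ 0 := by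
    intro x hx h
    have h1 : E1 x = 0 := by exact_mod_cast h
    have h2 := hd1 x hx
    rw [h1, abs_zero] at h2
    linarith
  have hnorm : ∀ x ∈ Icc p q, 1 / |E1 x| ≤ 1 / d := fun x hx =>
    one_div_le_one_div_of_le hd (hd1 x hx)
  set F : ℝ → ℂ := fun x => α x * cexp (I * (E x : ℂ)) / (I * (E1 x : ℂ)) with hF
  set R : ℝ → ℂ := fun x => α' x * cexp (I * (E x : ℂ)) / (I * (E1 x : ℂ)) -
    α x * cexp (I * (E x : ℂ)) * (E2 x : ℂ) / (I * (E1 x : ℂ) ^ 2) with hR
  have hFd : ∀ x ∈ Icc p q, HasDerivAt F (α x * cexp (I * (E x : ℂ)) + R x) x := by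
    intro x hx
    have h1 : HasDerivAt (fun x : ℝ => (E x : ℂ)) (E1 x : ℂ) x := (hE x hx).ofReal_comp
    have h2 : HasDerivAt (fun x : ℝ => (E1 x : ℂ)) (E2 x : ℂ) x := (hE1 x hx).ofReal_comp
    have h3 : HasDerivAt (fun x : ℝ => cexp (I * (E x : ℂ))) (cexp (I * (E x : ℂ)) * (I * (E1 x : ℂ))) x :=
      (h1.const_mul I).cexp
    have h4 := ((hα x hx).mul h3).div (h2.const_mul I) (mul_ne_zero I_ne_zero (hne x hx))
    refine h4.congr_deriv ?_
    rw [hR]
    have := hne x hx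
    simp only [Pi.mul_apply]
    field_simp
    ring_nf
    try simp only [I_sq]
    try ring
  have cα0 : ContinuousOn α (Icc p q) := fun x hx => (hα x hx).continuousAt.continuousWithinAt
  have cE0 : ContinuousOn E (Icc p q) := fun x hx => (hE x hx).continuousAt.continuousWithinAt
  have cE1 : ContinuousOn E1 (Icc p q) := fun x hx => (hE1 x hx).continuousAt.continuousWithinAt
  have cexpE : ContinuousOn (fun x => cexp (I * (E x : ℂ))) (Icc p q) := by
    apply ContinuousOn.cexp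
    exact continuousOn_const.mul (continuous_ofReal.comp_continuousOn cE0)
  have cden : ContinuousOn (fun x => I * (E1 x : ℂ)) (Icc p q) :=
    continuousOn_const.mul (continuous_ofReal.comp_continuousOn cE1)
  have cden2 : ContinuousOn (fun x => I * (E1 x : ℂ) ^ 2) (Icc p q) :=
    continuousOn_const.mul ((continuous_ofReal.comp_continuousOn cE1).pow 2)
  have cR : ContinuousOn R (Icc p q) := by
    rw [hR]
    apply ContinuousOn.sub
    · exact (cα.mul cexpE).div cden (fun x hx => mul_ne_zero I_ne_zero (hne x hx))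
    · exact ((cα0.mul cexpE).mul (continuous_ofReal.comp_continuousOn cE)).div cden2
        (fun x hx => mul_ne_zero I_ne_zero (pow_ne_zero 2 (hne x hx)))
  have cG : ContinuousOn (fun x => α x * cexp (I * (E x : ℂ))) (Icc p q) := cα0.mul cexpE
  have iR : IntervalIntegrable R volume p q := by
    apply ContinuousOn.intervalIntegrable
    rwa [uIcc_of_le hpq]
  have iG : IntervalIntegrable (fun x => α x * cexp (I * (E x : ℂ))) volume p q := by
    apply ContinuousOn.intervalIntegrable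
    rwa [uIcc_of_le hpq]
  have hint := intervalIntegral.integral_eq_sub_of_hasDerivAt (f := F)
    (f' := fun x => α x * cexp (I * (E x : ℂ)) + R x) (a := p) (b := q)
    (fun x hx => hFd x (by rwa [uIcc_of_le hpq] at hx)) (iG.add iR)
  rw [intervalIntegral.integral_add iG iR] at hint
  have hexp1 : ∀ x : ℝ, ‖cexp (I * (E x : ℂ))‖ = 1 := by
    intro x
    rw [mul_comm, Complex.norm_exp_ofReal_mul_I]
  have hI : ‖I‖ = 1 := Complex.norm_I
  have hFb : ∀ x ∈ Icc p q, ‖F x‖ ≤ A0 / d := by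
    intro x hx
    rw [hF]
    simp only
    rw [norm_div, norm_mul, hexp1, norm_mul, hI, one_mul, mul_one, Complex.norm_real,
      Real.norm_eq_abs]
    exact div_le_div₀ hA0 (hα0 x hx) hd (hd1 x hx)
  have hRb : ∀ x ∈ Icc p q, ‖R x‖ ≤ A1 / d + A0 * d2 / d ^ 2 := by
    intro x hx
    rw [hR]
    simp only
    refine (norm_sub_le _ _).trans (add_le_add ?_ ?_)
    · rw [norm_div, norm_mul, hexp1, norm_mul, hI, one_mul, mul_one, Complex.norm_real,
        Real.norm_eq_abs]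
      exact div_le_div₀ hA1 (hα1 x hx) hd (hd1 x hx)
    · rw [norm_div, norm_mul, norm_mul, hexp1, norm_mul, hI, one_mul, mul_one, norm_pow,
        Complex.norm_real, Complex.norm_real, Real.norm_eq_abs, Real.norm_eq_abs]
      apply div_le_div₀ (mul_nonneg hA0 hd2) _ (by positivity)
        (pow_le_pow_left₀ hd.le (hd1 x hx) 2)
      exact mul_le_mul (hα0 x hx) (hE2 x hx) (abs_nonneg _) hA0
  have hRi : ‖∫ x in p..q, R x‖ ≤ (A1 / d + A0 * d2 / d ^ 2) * |q - p| := by
    apply intervalIntegral.norm_integral_le_of_norm_le_const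
    intro x hx
    rw [uIoc_of_le hpq] at hx
    exact hRb x ⟨hx.1.le, hx.2⟩
  rw [abs_of_nonneg (by linarith : 0 ≤ q - p)] at hRi
  have hq := hFb q (right_mem_Icc.2 hpq)
  have hp := hFb p (left_mem_Icc.2 hpq)
  have e : ∫ x in p..q, α x * cexp (I * (E x : ℂ)) = F q - F p - ∫ x in p..q, R x := by
    rw [← hint]; ring
  rw [e]
  refine (norm_sub_le _ _).trans ?_
  refine (add_le_add (norm_sub_le _ _) hRi).trans ?_
  have e2 : 2 * A0 / d = A0 / d + A0 / d := by ring
  rw [e2]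
  linarith

/-- at most `w` elements in every half-open unit interval -/
def den (A : Finset ℝ) (w : ℝ) : Prop :=
  ∀ x : ℝ, ((A.filter (fun a => x ≤ a ∧ a < x + 1)).card : ℝ) ≤ w

/-- the weight `1 / max 1 ⌊|β - β'|⌋` summed over a set -/
lemma sum_phi (B : Finset ℝ) (w : ℝ) (hw : den B w) (N : ℕ) (b : ℝ)
    (hN : ∀ b' ∈ B, |b - b'| ≤ N) :
    ∑ b' ∈ B, 1 / (max 1 ((⌊|b - b'|⌋₊ : ℕ) : ℝ)) ≤ 3 * w * (2 + Real.log (N + 1)) := by
  classical
  have hw0 : 0 ≤ w := le_trans (Nat.cast_nonneg _) (hw 0)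
  have hmaps : ∀ b' ∈ B, ⌊|b - b'|⌋₊ ∈ Finset.range (N + 1) := by
    intro b' hb'
    rw [Finset.mem_range]
    have h1 : ⌊|b - b'|⌋₊ ≤ ⌊(N : ℝ)⌋₊ := Nat.floor_le_floor (hN b' hb')
    rw [Nat.floor_natCast] at h1
    omega
  rw [← Finset.sum_fiberwise_of_maps_to hmaps]
  have hfib : ∀ j ∈ Finset.range (N + 1),
      ∑ b' ∈ B.filter (fun b' => ⌊|b - b'|⌋₊ = j), 1 / (max 1 ((⌊|b - b'|⌋₊ : ℕ) : ℝ)) ≤
      3 * w * (1 / max 1 (j : ℝ)) := by
    intro j _
    have h1 : ∑ b' ∈ B.filter (fun b' => ⌊|b - b'|⌋₊ = j), 1 / (max 1 ((⌊|b - b'|⌋₊ : ℕ) : ℝ)) =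
        ((B.filter (fun b' => ⌊|b - b'|⌋₊ = j)).card : ℝ) * (1 / max 1 (j : ℝ)) := by
      rw [← nsmul_eq_mul, ← Finset.sum_const]
      refine Finset.sum_congr rfl fun b' hb' => ?_
      rw [Finset.mem_filter] at hb'
      rw [hb'.2]
    rw [h1]
    apply mul_le_mul_of_nonneg_right _ (by positivity)
    have h2 : B.filter (fun b' => ⌊|b - b'|⌋₊ = j) ⊆
        (B.filter (fun a => (b + j) ≤ a ∧ a < (b + j) + 1)) ∪
        ((B.filter (fun a => (b - j - 1) ≤ a ∧ a < (b - j - 1) + 1)) ∪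
        (B.filter (fun a => (b - j) ≤ a ∧ a < (b - j) + 1))) := by
      intro b' hb'
      rw [Finset.mem_filter] at hb'
      obtain ⟨hbB, hj⟩ := hb'
      have h3 : (j : ℝ) ≤ |b - b'| := by
        rw [← hj]; exact Nat.floor_le (abs_nonneg _)
      have h4 : |b - b'| < j + 1 := by
        rw [← hj]; exact Nat.lt_floor_add_one _
      rw [Finset.mem_union, Finset.mem_union, Finset.mem_filter, Finset.mem_filter,
        Finset.mem_filter]
      rcases le_total b' b with h | h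
      · rw [abs_of_nonneg (by linarith)] at h3 h4
        right
        rcases lt_or_ge b' (b - j) with h5 | h5
        · left; exact ⟨hbB, by linarith, by linarith⟩
        · right; exact ⟨hbB, by linarith, by linarith⟩
      · rw [abs_of_nonpos (by linarith)] at h3 h4
        left; exact ⟨hbB, by linarith, by linarith⟩
    have h3 := (Finset.card_le_card h2).trans ((Finset.card_union_le _ _).trans
      (add_le_add le_rfl (Finset.card_union_le _ _)))
    have h4 : ((B.filter (fun b' => ⌊|b - b'|⌋₊ = j)).card : ℝ) ≤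
        ((B.filter (fun a => (b + j) ≤ a ∧ a < (b + j) + 1)).card : ℝ) +
        (((B.filter (fun a => (b - j - 1) ≤ a ∧ a < (b - j - 1) + 1)).card : ℝ) +
        ((B.filter (fun a => (b - j) ≤ a ∧ a < (b - j) + 1)).card : ℝ)) := by exact_mod_cast h3
    linarith [hw (b + j), hw (b - j - 1), hw (b - j)]
  refine (Finset.sum_le_sum hfib).trans ?_
  rw [← Finset.mul_sum]
  apply mul_le_mul_of_nonneg_left _ (by positivity)
  rw [Finset.sum_range_succ']
  have h1 : ∑ k ∈ Finset.range N, 1 / max (1 : ℝ) ((k + 1 : ℕ) : ℝ) ≤ 1 + Real.log N := by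
    have h2 : ∑ k ∈ Finset.range N, 1 / max (1 : ℝ) ((k + 1 : ℕ) : ℝ) = (harmonic N : ℝ) := by
      unfold harmonic
      push_cast
      refine Finset.sum_congr rfl fun k _ => ?_
      rw [max_eq_right (by linarith [(Nat.cast_nonneg k : (0 : ℝ) ≤ k)]), one_div]
    rw [h2]
    exact harmonic_le_one_add_log N
  have h3 : Real.log N ≤ Real.log (N + 1) := by
    rcases Nat.eq_zero_or_pos N with h | h
    · rw [h]; simp
    · exact Real.log_le_log (by exact_mod_cast h) (by linarith)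
  have h4 : 1 / max (1 : ℝ) ((0 : ℕ) : ℝ) = 1 := by simp
  rw [h4]
  linarith

end Pool.Agent.TH99.NL
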