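import Pool.Agent.TH99.NL.Bil

set_option autoImplicit false

/-!
# The amplitudes and phases which come from the approximate functional equation
-/

namespace Pool.Agent.TH99.NL

open Complex MeasureTheory Set Filter Topology

/-- a family of functions at the scale `X` -/
structure HH (K X p q : ℝ) (B : Finset ℝ) (H H1 H2 : ℝ → ℝ → ℝ) : Prop where
  d0 : ∀ b ∈ B, ∀ u ∈ Icc p q, HasDerivAt (H b) (H1 b u) u
  d1 : ∀ b ∈ B, ∀ u ∈ Icc p q, HasDerivAt (H1 b) (H2 b u) u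
  c2 : ∀ b ∈ B, ContinuousOn (H2 b) (Icc p q)
  lo : ∀ b ∈ B, ∀ u ∈ Icc p q, X ≤ H b u
  hi : ∀ b ∈ B, ∀ u ∈ Icc p q, H b u ≤ 3 * X
  h1 : ∀ b ∈ B, ∀ u ∈ Icc p q, |H1 b u| ≤ K
  h2 : ∀ b ∈ B, ∀ u ∈ Icc p q, |H2 b u| ≤ K / X
  l0 : ∀ b ∈ B, ∀ b' ∈ B, ∀ u ∈ Icc p q, |b - b'| ≤ K * |H b u - H b' u|
  l0' : ∀ b ∈ B, ∀ b' ∈ B, ∀ u ∈ Icc p q, |H b u - H b' u| ≤ K * |b - b'|
  l1 : ∀ b ∈ B, ∀ b' ∈ B, ∀ u ∈ Icc p q, |b - b'| ≤ K * X * |H1 b u - H1 b' u|
  l1' : ∀ b ∈ B, ∀ b' ∈ B, ∀ u ∈ Icc p q, |H1 b u - H1 b' u| ≤ K / X * |b - b'|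
  l2 : ∀ b ∈ B, ∀ b' ∈ B, ∀ u ∈ Icc p q, |H2 b u - H2 b' u| ≤ K / X ^ 2 * |b - b'|

lemma good_plain (K L X p q l : ℝ) (B : Finset ℝ) (hK : 1 ≤ K) (hX : 1 ≤ X) (hl1 : 1 / 2 ≤ l)
    (hl2 : l ≤ L) (H H1 H2 : ℝ → ℝ → ℝ) (h : HH K X p q B H H1 H2) :
    Good (2 * K) L X p q B (fun _ _ => 1) (fun _ _ => 0) (fun _ _ => 0) (fun b u => -l * H b u)
      (fun b u => -l * H1 b u) (fun b u => -l * H2 b u) := by
  have hK0 : 0 < K := by linarith
  have hX0 : 0 < X := by linarith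
  have hl0 : 0 < l := by linarith
  have hL0 : 0 < L := by linarith
  have hab : ∀ z : ℝ, |(-l) * z| = l * |z| := by
    intro z; rw [abs_mul, abs_neg, abs_of_pos hl0]
  refine ⟨fun b _ u _ => hasDerivAt_const u _, fun b _ u _ => hasDerivAt_const u _,
    fun b _ => continuousOn_const,
    fun b hb u hu => (h.d0 b hb u hu).const_mul _, fun b hb u hu => (h.d1 b hb u hu).const_mul _,
    fun b hb => continuousOn_const.mul (h.c2 b hb), ?_, ?_, ?_, ?_, ?_, ?_, ?_⟩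
  · intro b _ u _; rw [norm_one]; linarith
  · intro b _ u _; rw [norm_zero]; positivity
  · intro b _ u _; rw [norm_zero]; positivity
  · intro b hb u hu
    rw [hab]
    calc l * |H1 b u| ≤ L * K := mul_le_mul hl2 (h.h1 b hb u hu) (abs_nonneg _) hL0.le
      _ ≤ 2 * K * L := by nlinarith [mul_pos hK0 hL0]
  · intro b hb u hu
    rw [hab]
    calc l * |H2 b u| ≤ L * (K / X) := mul_le_mul hl2 (h.h2 b hb u hu) (abs_nonneg _) hL0.le
      _ = 1 * (K * L / X) := by ring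
      _ ≤ 2 * (K * L / X) := by
        have : 0 ≤ K * L / X := by positivity
        linarith
      _ = _ := by ring
  · intro b hb b' hb' u hu
    rw [← mul_sub, hab]
    calc l * |H2 b u - H2 b' u| ≤ L * (K / X ^ 2 * |b - b'|) :=
          mul_le_mul hl2 (h.l2 b hb b' hb' u hu) (abs_nonneg _) hL0.le
      _ = 1 * (K * L / X ^ 2 * |b - b'|) := by ring
      _ ≤ 2 * (K * L / X ^ 2 * |b - b'|) := by
        have : 0 ≤ K * L / X ^ 2 * |b - b'| := by positivity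
        linarith
      _ = _ := by ring
  · intro b hb b' hb' u hu
    rw [← mul_sub, hab]
    have h1 := h.l1 b hb b' hb' u hu
    have h2 : 1 / (K * X) * |b - b'| ≤ |H1 b u - H1 b' u| := by
      rw [one_div, inv_mul_le_iff₀ (by positivity)]
      exact h1
    calc 1 / (2 * K * X) * |b - b'| = 1 / 2 * (1 / (K * X) * |b - b'|) := by field_simp
      _ ≤ l * |H1 b u - H1 b' u| := mul_le_mul hl1 h2 (by positivity) hl0.le

/-- the difference of two logarithms -/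
lemma log_diff (s t r : ℝ) (hr : 0 < r) (hs : r ≤ s) (ht : r ≤ t) :
    |Real.log s - Real.log t| ≤ |s - t| / r := by
  have key : ∀ s t : ℝ, r ≤ s → r ≤ t → Real.log s - Real.log t ≤ |s - t| / r := by
    intro s t hs ht
    have hs0 : 0 < s := hr.trans_le hs
    have ht0 : 0 < t := hr.trans_le ht
    rw [← Real.log_div hs0.ne' ht0.ne']
    have h1 := Real.log_le_sub_one_of_pos (div_pos hs0 ht0)
    have h2 : s / t - 1 = (s - t) / t := by field_simp
    rw [h2] at h1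
    calc Real.log (s / t) ≤ (s - t) / t := h1
      _ ≤ |s - t| / t := div_le_div_of_nonneg_right (le_abs_self _) ht0.le
      _ ≤ |s - t| / r := div_le_div_of_nonneg_left (abs_nonneg _) hr ht
  rw [abs_le]
  constructor
  · have := key t s ht hs
    rw [abs_sub_comm] at this
    linarith
  · exact key s t hs ht

lemma good_dual (K L X p q y m : ℝ) (B : Finset ℝ) (hK : 1 ≤ K) (hX : 1 ≤ X)
    (hLX : L = Real.log X)
    (hL : 40 ≤ L) (hLK : 7 * K ^ 3 ≤ L) (hy : |y| ≤ X / 4) (hm : |m| ≤ 52 / 100 * L)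
    (H H1 H2 : ℝ → ℝ → ℝ) (h : HH K X p q B H H1 H2) :
    ∃ (c1 c2 : ℝ → ℝ → ℂ) (F1 F2 : ℝ → ℝ → ℝ),
    Good (16 * K ^ 3) L X p q B
      (fun b u => ((Real.exp (Real.log ((H b u + y) / (2 * Real.pi)) / L) : ℝ) : ℂ)) c1 c2
      (fun b u => (H b u + y) * (m + 1 - Real.log ((H b u + y) / (2 * Real.pi)))) F1 F2 := by
  have hK0 : 0 < K := by linarith
  have hX0 : 0 < X := by linarith
  have hL0 : 0 < L := by linarith
  have hpi := Real.pi_gt_three
  have hpi2 := Real.pi_lt_four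
  have h2pi : 0 < 2 * Real.pi := by positivity
  obtain ⟨hy1, hy2⟩ := abs_le.1 hy
  obtain ⟨hm1, hm2⟩ := abs_le.1 hm
  obtain ⟨V, hV⟩ : ∃ V : ℝ → ℝ → ℝ, V = fun b u => H b u + y := ⟨_, rfl⟩
  have hVl : ∀ b ∈ B, ∀ u ∈ Icc p q, 3 / 4 * X ≤ V b u := by
    intro b hb u hu; rw [hV]; simp only; linarith [h.lo b hb u hu]
  have hVu : ∀ b ∈ B, ∀ u ∈ Icc p q, V b u ≤ 13 / 4 * X := by
    intro b hb u hu; rw [hV]; simp only; linarith [h.hi b hb u hu]
  have hV0 : ∀ b ∈ B, ∀ u ∈ Icc p q, 0 < V b u :=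
    fun b hb u hu => lt_of_lt_of_le (by positivity) (hVl b hb u hu)
  obtain ⟨l, hl⟩ : ∃ l : ℝ → ℝ → ℝ, l = fun b u => Real.log (V b u / (2 * Real.pi)) := ⟨_, rfl⟩
  have hlu : ∀ b ∈ B, ∀ u ∈ Icc p q, l b u ≤ L := by
    intro b hb u hu
    rw [hl, hLX]
    simp only
    apply Real.log_le_log (div_pos (hV0 b hb u hu) h2pi)
    rw [div_le_iff₀ h2pi]
    calc V b u ≤ 13 / 4 * X := hVu b hb u hu
      _ ≤ 6 * X := by linarith
      _ ≤ X * (2 * Real.pi) := by nlinarith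
  have hll : ∀ b ∈ B, ∀ u ∈ Icc p q, L - 3 ≤ l b u := by
    intro b hb u hu
    rw [hl, hLX]
    simp only
    rw [Real.le_log_iff_exp_le (div_pos (hV0 b hb u hu) h2pi), Real.exp_sub, Real.exp_log hX0,
      le_div_iff₀ h2pi, div_mul_eq_mul_div, div_le_iff₀ (Real.exp_pos 3)]
    have e3 : 16 ≤ Real.exp 3 := by
      have e1 := Real.exp_one_gt_d9
      have e2 : Real.exp 3 = Real.exp 1 ^ 3 := by rw [← Real.exp_nat_mul]; norm_num
      rw [e2]
      have e4 : (2.7 : ℝ) ≤ Real.exp 1 := by linarith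
      calc (16 : ℝ) ≤ 2.7 ^ 3 := by norm_num
        _ ≤ Real.exp 1 ^ 3 := pow_le_pow_left₀ (by norm_num) e4 3
    calc X * (2 * Real.pi) ≤ X * 8 := by nlinarith
      _ ≤ (3 / 4 * X) * 16 := by linarith
      _ ≤ V b u * Real.exp 3 := mul_le_mul (hVl b hb u hu) e3 (by norm_num) (hV0 b hb u hu).le
  have dV : ∀ b ∈ B, ∀ u ∈ Icc p q, HasDerivAt (V b) (H1 b u) u := by
    intro b hb u hu; rw [hV]; exact (h.d0 b hb u hu).add_const y
  have dl : ∀ b ∈ B, ∀ u ∈ Icc p q, HasDerivAt (l b) (H1 b u / V b u) u := by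
    intro b hb u hu
    rw [hl]
    have h1 := ((dV b hb u hu).div_const (2 * Real.pi)).log (div_pos (hV0 b hb u hu) h2pi).ne'
    refine h1.congr_deriv ?_
    have := (hV0 b hb u hu).ne'
    field_simp
  -- the amplitude
  obtain ⟨c, hc⟩ : ∃ c : ℝ → ℝ → ℝ, c = fun b u => Real.exp (l b u / L) := ⟨_, rfl⟩
  obtain ⟨r, hr⟩ : ∃ r : ℝ → ℝ → ℝ, r = fun b u => H1 b u / V b u / L := ⟨_, rfl⟩
  obtain ⟨r1, hr1⟩ : ∃ r1 : ℝ → ℝ → ℝ, r1 = fun b u =>
    (H2 b u * V b u - H1 b u * H1 b u) / V b u ^ 2 / L := ⟨_, rfl⟩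
  have dc : ∀ b ∈ B, ∀ u ∈ Icc p q, HasDerivAt (c b) (c b u * r b u) u := by
    intro b hb u hu
    rw [hc, hr]
    exact ((dl b hb u hu).div_const L).exp
  have dr : ∀ b ∈ B, ∀ u ∈ Icc p q, HasDerivAt (r b) (r1 b u) u := by
    intro b hb u hu
    rw [hr, hr1]
    exact ((h.d1 b hb u hu).div (dV b hb u hu) (hV0 b hb u hu).ne').div_const L
  have dc1 : ∀ b ∈ B, ∀ u ∈ Icc p q, HasDerivAt (fun u => c b u * r b u)
      (c b u * r b u * r b u + c b u * r1 b u) u :=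
    fun b hb u hu => (dc b hb u hu).mul (dr b hb u hu)
  have cH1 : ∀ b ∈ B, ContinuousOn (H1 b) (Icc p q) :=
    fun b hb x hx => (h.d1 b hb x hx).continuousAt.continuousWithinAt
  have cV : ∀ b ∈ B, ContinuousOn (V b) (Icc p q) :=
    fun b hb x hx => (dV b hb x hx).continuousAt.continuousWithinAt
  have cl : ∀ b ∈ B, ContinuousOn (l b) (Icc p q) :=
    fun b hb x hx => (dl b hb x hx).continuousAt.continuousWithinAt
  have ccc : ∀ b ∈ B, ContinuousOn (c b) (Icc p q) :=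
    fun b hb x hx => (dc b hb x hx).continuousAt.continuousWithinAt
  have cr : ∀ b ∈ B, ContinuousOn (r b) (Icc p q) :=
    fun b hb x hx => (dr b hb x hx).continuousAt.continuousWithinAt
  have cr1 : ∀ b ∈ B, ContinuousOn (r1 b) (Icc p q) := by
    intro b hb
    rw [hr1]
    apply ContinuousOn.div_const
    apply ContinuousOn.div (((h.c2 b hb).mul (cV b hb)).sub ((cH1 b hb).mul (cH1 b hb)))
      ((cV b hb).pow 2)
    intro x hx
    exact pow_ne_zero 2 (hV0 b hb x hx).ne'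
  have bc : ∀ b ∈ B, ∀ u ∈ Icc p q, |c b u| ≤ 3 := by
    intro b hb u hu
    rw [hc]
    simp only
    rw [abs_of_pos (Real.exp_pos _)]
    have h1 : l b u / L ≤ 1 := by rw [div_le_one hL0]; exact hlu b hb u hu
    have h2 := Real.exp_le_exp.2 h1
    have h3 := Real.exp_one_lt_d9
    linarith
  have bV : ∀ b ∈ B, ∀ u ∈ Icc p q, 1 / V b u ≤ 4 / (3 * X) := by
    intro b hb u hu
    rw [div_le_div_iff₀ (hV0 b hb u hu) (by positivity)]
    linarith [hVl b hb u hu]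
  have bH1V : ∀ b ∈ B, ∀ u ∈ Icc p q, |H1 b u / V b u| ≤ 4 / 3 * K / X := by
    intro b hb u hu
    rw [div_eq_mul_one_div, abs_mul, abs_of_pos (one_div_pos.2 (hV0 b hb u hu))]
    calc |H1 b u| * (1 / V b u) ≤ K * (4 / (3 * X)) :=
          mul_le_mul (h.h1 b hb u hu) (bV b hb u hu) (one_div_pos.2 (hV0 b hb u hu)).le hK0.le
      _ = _ := by field_simp
  have br : ∀ b ∈ B, ∀ u ∈ Icc p q, |r b u| ≤ 4 / 3 * K / X := by
    intro b hb u hu
    rw [hr]
    simp only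
    rw [abs_div, abs_of_pos hL0, div_le_iff₀ hL0]
    calc |H1 b u / V b u| ≤ 4 / 3 * K / X * 1 := by rw [mul_one]; exact bH1V b hb u hu
      _ ≤ 4 / 3 * K / X * L := by
        apply mul_le_mul_of_nonneg_left _ (by positivity)
        linarith
  have br1 : ∀ b ∈ B, ∀ u ∈ Icc p q, |r1 b u| ≤ 2 * K ^ 2 / X ^ 2 := by
    intro b hb u hu
    have hVne := (hV0 b hb u hu).ne'
    have e1 : r1 b u = (H2 b u * (1 / V b u) - (H1 b u / V b u) * (H1 b u / V b u)) / L := by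
      rw [hr1]
      simp only
      congr 1
      field_simp
    rw [e1, abs_div, abs_of_pos hL0, div_le_iff₀ hL0]
    have e2 : |H2 b u * (1 / V b u)| ≤ 4 / 3 * K / X ^ 2 := by
      rw [abs_mul, abs_of_pos (one_div_pos.2 (hV0 b hb u hu))]
      calc |H2 b u| * (1 / V b u) ≤ (K / X) * (4 / (3 * X)) :=
            mul_le_mul (h.h2 b hb u hu) (bV b hb u hu) (one_div_pos.2 (hV0 b hb u hu)).le
              (by positivity)
        _ = _ := by field_simp
    have e3 : |(H1 b u / V b u) * (H1 b u / V b u)| ≤ 16 / 9 * K ^ 2 / X ^ 2 := by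
      rw [abs_mul]
      calc |H1 b u / V b u| * |H1 b u / V b u| ≤ (4 / 3 * K / X) * (4 / 3 * K / X) :=
            mul_le_mul (bH1V b hb u hu) (bH1V b hb u hu) (abs_nonneg _) (by positivity)
        _ = _ := by ring
    refine (abs_sub _ _).trans ?_
    have e4 : K ≤ K ^ 2 := by nlinarith
    have e5 : 4 / 3 * K / X ^ 2 ≤ 4 / 3 * K ^ 2 / X ^ 2 := by gcongr
    have e6 : 4 / 3 * K ^ 2 / X ^ 2 + 16 / 9 * K ^ 2 / X ^ 2 = (28 / 9) * (K ^ 2 / X ^ 2) := by ring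
    have e7 : (2 * K ^ 2 / X ^ 2) * 40 ≤ (2 * K ^ 2 / X ^ 2) * L :=
      mul_le_mul_of_nonneg_left hL (by positivity)
    have e8 : (2 * K ^ 2 / X ^ 2) * 40 = 80 * (K ^ 2 / X ^ 2) := by ring
    have e9 : 0 ≤ K ^ 2 / X ^ 2 := by positivity
    linarith
  have hK13 : K ≤ K ^ 3 := by
    calc K = K ^ 1 := (pow_one K).symm
      _ ≤ K ^ 3 := pow_le_pow_right₀ hK (by norm_num)
  have hK23 : K ^ 2 ≤ K ^ 3 := pow_le_pow_right₀ hK (by norm_num)
  have hK03 : 1 ≤ K ^ 3 := one_le_pow₀ hK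
  -- the phase
  have bl : ∀ b ∈ B, ∀ u ∈ Icc p q, |m - l b u| ≤ 2 * L := by
    intro b hb u hu
    rw [abs_le]
    constructor <;> linarith [hlu b hb u hu, hll b hb u hu]
  have bl' : ∀ b ∈ B, ∀ u ∈ Icc p q, 4 / 10 * L ≤ |m - l b u| := by
    intro b hb u hu
    rw [le_abs]
    right
    linarith [hll b hb u hu]
  -- differences
  have dlV : ∀ b ∈ B, ∀ b' ∈ B, ∀ u ∈ Icc p q, |l b' u - l b u| ≤ 4 / 3 * K / X * |b - b'| := by
    intro b hb b' hb' u hu
    have e1 : l b' u - l b u = Real.log (V b' u) - Real.log (V b u) := by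
      rw [hl]
      simp only
      rw [Real.log_div (hV0 b' hb' u hu).ne' h2pi.ne', Real.log_div (hV0 b hb u hu).ne' h2pi.ne']
      ring
    rw [e1]
    refine (log_diff (V b' u) (V b u) (3 / 4 * X) (by positivity) (hVl b' hb' u hu)
      (hVl b hb u hu)).trans ?_
    have e2 : V b' u - V b u = -(H b u - H b' u) := by rw [hV]; simp only; ring
    rw [e2, abs_neg, div_le_iff₀ (by positivity)]
    calc |H b u - H b' u| ≤ K * |b - b'| := h.l0' b hb b' hb' u hu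
      _ = 4 / 3 * K / X * |b - b'| * (3 / 4 * X) := by field_simp
  have dV1 : ∀ b ∈ B, ∀ b' ∈ B, ∀ u ∈ Icc p q,
      |1 / V b u - 1 / V b' u| ≤ 16 / 9 * K / X ^ 2 * |b - b'| := by
    intro b hb b' hb' u hu
    have e1 : 1 / V b u - 1 / V b' u = (1 / V b u) * (1 / V b' u) * (V b' u - V b u) := by
      have := (hV0 b hb u hu).ne'
      have := (hV0 b' hb' u hu).ne'
      field_simp
    have e2 : V b' u - V b u = -(H b u - H b' u) := by rw [hV]; simp only; ring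
    rw [e1, e2, abs_mul, abs_mul, abs_neg, abs_of_pos (one_div_pos.2 (hV0 b hb u hu)),
      abs_of_pos (one_div_pos.2 (hV0 b' hb' u hu))]
    calc 1 / V b u * (1 / V b' u) * |H b u - H b' u| ≤
          (4 / (3 * X)) * (4 / (3 * X)) * (K * |b - b'|) := by
          apply mul_le_mul _ (h.l0' b hb b' hb' u hu) (abs_nonneg _) (by positivity)
          exact mul_le_mul (bV b hb u hu) (bV b' hb' u hu)
            (one_div_pos.2 (hV0 b' hb' u hu)).le (by positivity)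
      _ = _ := by field_simp; ring
  have dH1V : ∀ b ∈ B, ∀ b' ∈ B, ∀ u ∈ Icc p q,
      |H1 b u / V b u - H1 b' u / V b' u| ≤ 28 / 9 * K ^ 2 / X ^ 2 * |b - b'| := by
    intro b hb b' hb' u hu
    have e1 : H1 b u / V b u - H1 b' u / V b' u = (H1 b u - H1 b' u) * (1 / V b u) +
        H1 b' u * (1 / V b u - 1 / V b' u) := by ring
    rw [e1]
    refine (abs_add_le _ _).trans ?_
    rw [abs_mul, abs_mul, abs_of_pos (one_div_pos.2 (hV0 b hb u hu))]
    have e2 : |H1 b u - H1 b' u| * (1 / V b u) ≤ (K / X * |b - b'|) * (4 / (3 * X)) :=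
      mul_le_mul (h.l1' b hb b' hb' u hu) (bV b hb u hu)
        (one_div_pos.2 (hV0 b hb u hu)).le (by positivity)
    have e3 : |H1 b' u| * |1 / V b u - 1 / V b' u| ≤ K * (16 / 9 * K / X ^ 2 * |b - b'|) :=
      mul_le_mul (h.h1 b' hb' u hu) (dV1 b hb b' hb' u hu) (abs_nonneg _) hK0.le
    have e4 : (K / X * |b - b'|) * (4 / (3 * X)) = 4 / 3 * K / X ^ 2 * |b - b'| := by
      field_simp
    have e5 : K ≤ K ^ 2 := by nlinarith
    have e6 : 4 / 3 * K / X ^ 2 * |b - b'| ≤ 4 / 3 * K ^ 2 / X ^ 2 * |b - b'| := by gcongr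
    have e7 : 28 / 9 * K ^ 2 / X ^ 2 * |b - b'| = 4 / 3 * K ^ 2 / X ^ 2 * |b - b'| +
      K * (16 / 9 * K / X ^ 2 * |b - b'|) := by ring
    linarith
  refine ⟨fun b u => ((c b u * r b u : ℝ) : ℂ),
    fun b u => ((c b u * r b u * r b u + c b u * r1 b u : ℝ) : ℂ),
    fun b u => H1 b u * (m - l b u), fun b u => H2 b u * (m - l b u) - H1 b u * (H1 b u / V b u),
    ?_⟩
  have ec : (fun b u => ((Real.exp (Real.log ((H b u + y) / (2 * Real.pi)) / L) : ℝ) : ℂ)) =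
      fun b u => ((c b u : ℝ) : ℂ) := by rw [hc, hl, hV]
  have eF : (fun b u => (H b u + y) * (m + 1 - Real.log ((H b u + y) / (2 * Real.pi)))) =
      fun b u => V b u * (m + 1 - l b u) := by rw [hl, hV]
  rw [ec, eF]
  refine ⟨fun b hb u hu => (dc b hb u hu).ofReal_comp,
    fun b hb u hu => (dc1 b hb u hu).ofReal_comp, ?_, ?_, ?_, ?_,
    ?_, ?_, ?_, ?_, ?_, ?_, ?_⟩
  · intro b hb
    exact continuous_ofReal.comp_continuousOn ((((ccc b hb).mul (cr b hb)).mul (cr b hb)).add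
      ((ccc b hb).mul (cr1 b hb)))
  · intro b hb u hu
    have h1 := (dV b hb u hu).mul ((dl b hb u hu).const_sub (m + 1))
    refine h1.congr_deriv ?_
    have := (hV0 b hb u hu).ne'
    field_simp
    ring
  · intro b hb u hu
    have h1 := (h.d1 b hb u hu).mul ((dl b hb u hu).const_sub m)
    refine h1.congr_deriv ?_
    ring
  · intro b hb
    apply ContinuousOn.sub
    · exact (h.c2 b hb).mul (continuousOn_const.sub (cl b hb))
    · exact (cH1 b hb).mul ((cH1 b hb).div (cV b hb) (fun x hx => (hV0 b hb x hx).ne'))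
  · intro b hb u hu
    rw [Complex.norm_real, Real.norm_eq_abs]
    linarith [bc b hb u hu]
  · intro b hb u hu
    rw [Complex.norm_real, Real.norm_eq_abs, abs_mul]
    calc |c b u| * |r b u| ≤ 3 * (4 / 3 * K / X) :=
          mul_le_mul (bc b hb u hu) (br b hb u hu) (abs_nonneg _) (by norm_num)
      _ = 4 * K / X := by ring
      _ ≤ 16 * K ^ 3 / X := by gcongr; linarith
  · intro b hb u hu
    rw [Complex.norm_real, Real.norm_eq_abs]
    refine (abs_add_le _ _).trans ?_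
    rw [abs_mul, abs_mul, abs_mul]
    have e1 : |c b u| * |r b u| * |r b u| ≤ 3 * (4 / 3 * K / X) * (4 / 3 * K / X) := by
      apply mul_le_mul _ (br b hb u hu) (abs_nonneg _) (by positivity)
      exact mul_le_mul (bc b hb u hu) (br b hb u hu) (abs_nonneg _) (by norm_num)
    have e2 : |c b u| * |r1 b u| ≤ 3 * (2 * K ^ 2 / X ^ 2) :=
      mul_le_mul (bc b hb u hu) (br1 b hb u hu) (abs_nonneg _) (by norm_num)
    have e3 : 3 * (4 / 3 * K / X) * (4 / 3 * K / X) = 16 / 3 * (K ^ 2 / X ^ 2) := by ring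
    have e4 : 3 * (2 * K ^ 2 / X ^ 2) = 6 * (K ^ 2 / X ^ 2) := by ring
    have e5 : K ^ 2 / X ^ 2 ≤ K ^ 3 / X ^ 2 := by gcongr
    have e6 : 16 * K ^ 3 / X ^ 2 = 16 * (K ^ 3 / X ^ 2) := by ring
    have e7 : 0 ≤ K ^ 2 / X ^ 2 := by positivity
    rw [e6]
    linarith
  · intro b hb u hu
    rw [abs_mul]
    calc |H1 b u| * |m - l b u| ≤ K * (2 * L) :=
          mul_le_mul (h.h1 b hb u hu) (bl b hb u hu) (abs_nonneg _) hK0.le
      _ = 2 * K * L := by ring
      _ ≤ 16 * K ^ 3 * L := by gcongr; linarith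
  · intro b hb u hu
    refine (abs_sub _ _).trans ?_
    rw [abs_mul, abs_mul (H1 b u)]
    have e1 : |H2 b u| * |m - l b u| ≤ (K / X) * (2 * L) :=
      mul_le_mul (h.h2 b hb u hu) (bl b hb u hu) (abs_nonneg _) (by positivity)
    have e2 : |H1 b u| * |H1 b u / V b u| ≤ K * (4 / 3 * K / X) :=
      mul_le_mul (h.h1 b hb u hu) (bH1V b hb u hu) (abs_nonneg _) hK0.le
    have e3 : (K / X) * (2 * L) ≤ 2 * (K ^ 3 * L / X) := by
      calc (K / X) * (2 * L) = 2 * (K * L / X) := by ring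
        _ ≤ 2 * (K ^ 3 * L / X) := by gcongr
    have e4 : K * (4 / 3 * K / X) ≤ 4 / 3 * (K ^ 3 * L / X) := by
      calc K * (4 / 3 * K / X) = 4 / 3 * (K ^ 2 * 1 / X) := by ring
        _ ≤ 4 / 3 * (K ^ 3 * L / X) := by
          gcongr
          linarith
    have e5 : 16 * K ^ 3 * L / X = 16 * (K ^ 3 * L / X) := by ring
    have e6 : 0 ≤ K ^ 3 * L / X := by positivity
    rw [e5]
    linarith
  · intro b hb b' hb' u hu
    have e0 : H2 b u * (m - l b u) - H1 b u * (H1 b u / V b u) -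
        (H2 b' u * (m - l b' u) - H1 b' u * (H1 b' u / V b' u)) =
        (H2 b u - H2 b' u) * (m - l b u) + H2 b' u * (l b' u - l b u) -
        ((H1 b u - H1 b' u) * (H1 b u / V b u) +
          H1 b' u * (H1 b u / V b u - H1 b' u / V b' u)) := by ring
    rw [e0]
    have t1 := abs_sub ((H2 b u - H2 b' u) * (m - l b u) + H2 b' u * (l b' u - l b u))
      ((H1 b u - H1 b' u) * (H1 b u / V b u) + H1 b' u * (H1 b u / V b u - H1 b' u / V b' u))
    have t2 := abs_add_le ((H2 b u - H2 b' u) * (m - l b u)) (H2 b' u * (l b' u - l b u))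
    have t3 := abs_add_le ((H1 b u - H1 b' u) * (H1 b u / V b u))
      (H1 b' u * (H1 b u / V b u - H1 b' u / V b' u))
    rw [abs_mul, abs_mul] at t2 t3
    obtain ⟨δ, hδ⟩ : ∃ δ : ℝ, δ = |b - b'| := ⟨_, rfl⟩
    have hδ0 : 0 ≤ δ := by rw [hδ]; exact abs_nonneg _
    rw [← hδ]
    have f1 : |H2 b u - H2 b' u| * |m - l b u| ≤ (K / X ^ 2 * δ) * (2 * L) := by
      rw [hδ]
      exact mul_le_mul (h.l2 b hb b' hb' u hu) (bl b hb u hu) (abs_nonneg _) (by positivity)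
    have f2 : |H2 b' u| * |l b' u - l b u| ≤ (K / X) * (4 / 3 * K / X * δ) := by
      rw [hδ]
      exact mul_le_mul (h.h2 b' hb' u hu) (dlV b hb b' hb' u hu) (abs_nonneg _) (by positivity)
    have f3 : |H1 b u - H1 b' u| * |H1 b u / V b u| ≤ (K / X * δ) * (4 / 3 * K / X) := by
      rw [hδ]
      exact mul_le_mul (h.l1' b hb b' hb' u hu) (bH1V b hb u hu) (abs_nonneg _) (by positivity)
    have f4 : |H1 b' u| * |H1 b u / V b u - H1 b' u / V b' u| ≤
        K * (28 / 9 * K ^ 2 / X ^ 2 * δ) := by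
      rw [hδ]
      exact mul_le_mul (h.h1 b' hb' u hu) (dH1V b hb b' hb' u hu) (abs_nonneg _) hK0.le
    have hE0 : 0 ≤ K ^ 3 * L / X ^ 2 * δ := by positivity
    have g1 : (K / X ^ 2 * δ) * (2 * L) ≤ 2 * (K ^ 3 * L / X ^ 2 * δ) := by
      calc (K / X ^ 2 * δ) * (2 * L) = 2 * (K * L / X ^ 2 * δ) := by ring
        _ ≤ 2 * (K ^ 3 * L / X ^ 2 * δ) := by gcongr
    have g2 : (K / X) * (4 / 3 * K / X * δ) ≤ 4 / 3 * (K ^ 3 * L / X ^ 2 * δ) := by
      calc (K / X) * (4 / 3 * K / X * δ) = 4 / 3 * (K ^ 2 * 1 / X ^ 2 * δ) := by ring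
        _ ≤ 4 / 3 * (K ^ 3 * L / X ^ 2 * δ) := by
          gcongr
          linarith
    have g3 : (K / X * δ) * (4 / 3 * K / X) ≤ 4 / 3 * (K ^ 3 * L / X ^ 2 * δ) := by
      calc (K / X * δ) * (4 / 3 * K / X) = 4 / 3 * (K ^ 2 * 1 / X ^ 2 * δ) := by ring
        _ ≤ 4 / 3 * (K ^ 3 * L / X ^ 2 * δ) := by
          gcongr
          linarith
    have g4 : K * (28 / 9 * K ^ 2 / X ^ 2 * δ) ≤ 28 / 9 * (K ^ 3 * L / X ^ 2 * δ) := by
      calc K * (28 / 9 * K ^ 2 / X ^ 2 * δ) = 28 / 9 * (K ^ 3 * 1 / X ^ 2 * δ) := by ring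
        _ ≤ 28 / 9 * (K ^ 3 * L / X ^ 2 * δ) := by
          gcongr
          linarith
    have e5 : 16 * K ^ 3 * L / X ^ 2 * δ = 16 * (K ^ 3 * L / X ^ 2 * δ) := by ring
    rw [e5]
    linarith
  · intro b hb b' hb' u hu
    have e0 : H1 b u * (m - l b u) - H1 b' u * (m - l b' u) =
        (H1 b u - H1 b' u) * (m - l b u) - (-(H1 b' u * (l b' u - l b u))) := by ring
    rw [e0]
    have t1 := abs_sub_abs_le_abs_sub ((H1 b u - H1 b' u) * (m - l b u))
      (-(H1 b' u * (l b' u - l b u)))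
    rw [abs_neg, abs_mul, abs_mul] at t1
    refine le_trans ?_ t1
    obtain ⟨δ, hδ⟩ : ∃ δ : ℝ, δ = |b - b'| := ⟨_, rfl⟩
    have hδ0 : 0 ≤ δ := by rw [hδ]; exact abs_nonneg _
    rw [← hδ]
    have h2 : 1 / (K * X) * δ ≤ |H1 b u - H1 b' u| := by
      rw [one_div, inv_mul_le_iff₀ (by positivity), hδ]
      exact h.l1 b hb b' hb' u hu
    have f1 : 1 / (K * X) * δ * (4 / 10 * L) ≤ |H1 b u - H1 b' u| * |m - l b u| :=
      mul_le_mul h2 (bl' b hb u hu) (by positivity) (abs_nonneg _)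
    have f2 : |H1 b' u| * |l b' u - l b u| ≤ K * (4 / 3 * K / X * δ) := by
      rw [hδ]
      exact mul_le_mul (h.h1 b' hb' u hu) (dlV b hb b' hb' u hu) (abs_nonneg _) hK0.le
    have e3 : K * (4 / 3 * K / X * δ) ≤ 1 / (K * X) * δ * (2 / 10 * L) := by
      have f1 : K * (4 / 3 * K / X * δ) = 1 / (K * X) * δ * (4 / 3 * K ^ 3) := by
        field_simp
      rw [f1]
      apply mul_le_mul_of_nonneg_left _ (by positivity)
      linarith
    have e4 : 1 / (16 * K ^ 3 * X) * δ ≤ 1 / (K * X) * δ * (2 / 10 * L) := by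
      calc 1 / (16 * K ^ 3 * X) * δ ≤ 1 / (K * X) * δ := by
            apply mul_le_mul_of_nonneg_right _ hδ0
            apply one_div_le_one_div_of_le (by positivity)
            gcongr
            linarith
        _ = 1 / (K * X) * δ * 1 := (mul_one _).symm
        _ ≤ _ := by
            apply mul_le_mul_of_nonneg_left _ (by positivity)
            linarith
    have e5 : 1 / (K * X) * δ * (4 / 10 * L) = 1 / (K * X) * δ * (2 / 10 * L) +
        1 / (K * X) * δ * (2 / 10 * L) := by ring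
    linarith

end Pool.Agent.TH99.NL
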