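import Pool.Agent.TH99.NL.Fst2
import Pool.Agent.TH801.TU.Pair

set_option autoImplicit false

/-!
# Pairs for which a function of two variables is far from all zeros
-/

namespace Pool.Agent.TH99.NL

open Complex Filter Topology MeasureTheory Set
open Pool.Agent.H24R2.DZ
open Pool.Agent.H452R4.LI
open Pool.Agent.TH801.TU

/-- the first moment over the values of a family of functions at the points of a set -/
theorem firstH (K η : ℝ) (hK : 1 ≤ K) (hη : 0 < η) : ∃ X1 : ℝ, ∀ X : ℝ, X1 ≤ X →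
    ∀ (A B : Finset ℝ) (p q : ℝ) (H H1 H2 : ℝ → ℝ → ℝ), HH K X p q B H H1 H2 →
    p ≤ q → q - p ≤ K * X → (∀ b ∈ B, ∀ b' ∈ B, |b - b'| ≤ K * X) →
    dens A (K * Real.log X) → dens B (K * Real.log X) →
    (∀ a ∈ A, p ≤ a ∧ a + 1 ≤ q) →
    X ^ (27 / 50 : ℝ) ≤ A.card → η * X * Real.log X ≤ B.card →
    ‖∑ z ∈ A ×ˢ B, FF X (I * ((H z.2 z.1 : ℝ) : ℂ)) - (A ×ˢ B).card‖ ≤
      1 / 2 * (A.card * B.card) := by
  classical
  have hK0 : 0 < K := by linarith
  obtain ⟨C0, X0, hC0, hfirst⟩ := first_abs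
  obtain ⟨C, hC⟩ : ∃ C : ℝ, C = 16 * K ^ 3 := ⟨_, rfl⟩
  have hK13 : K ≤ K ^ 3 := by
    calc K = K ^ 1 := (pow_one K).symm
      _ ≤ K ^ 3 := pow_le_pow_right₀ hK (by norm_num)
  have hKC : 2 * K ≤ C := by rw [hC]; linarith
  have hC1 : 1 ≤ C := by linarith
  obtain ⟨C2, hC2⟩ : ∃ C2 : ℝ, C2 = 4 * K * (3 * K * 4) * (34 * C ^ 8) := ⟨_, rfl⟩
  have hC20 : 0 < C2 := by rw [hC2]; positivity
  obtain ⟨C3, hC3⟩ : ∃ C3 : ℝ, C3 = C0 * Real.sqrt C2 * (4 / Real.sqrt η) := ⟨_, rfl⟩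
  have hsη : 0 < Real.sqrt η := Real.sqrt_pos.2 hη
  have hC30 : 0 < C3 := by rw [hC3]; positivity
  have ev1 : ∀ᶠ X : ℝ in atTop, C3 * Real.log X ^ 3 ≤ X ^ (1 / 100 : ℝ) := by
    have h1 := (isLittleO_log_rpow_atTop (r := 1 / 300) (by norm_num)).bound
      (c := 1 / (C3 + 1)) (by positivity)
    filter_upwards [h1, eventually_ge_atTop 1] with X hX hX1
    have hX0 : 0 < X := by linarith
    rw [Real.norm_eq_abs, Real.norm_eq_abs, abs_of_nonneg (Real.log_nonneg hX1),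
      abs_of_nonneg (Real.rpow_nonneg (by linarith) _)] at hX
    have h2 := pow_le_pow_left₀ (Real.log_nonneg hX1) hX 3
    rw [mul_pow, ← Real.rpow_natCast (X ^ (1 / 300 : ℝ)), ← Real.rpow_mul hX0.le] at h2
    have h3 : (1 / 300 * ((3 : ℕ) : ℝ) : ℝ) = 1 / 100 := by norm_num
    rw [h3] at h2
    have h4 : (1 / (C3 + 1)) ^ 3 * C3 ≤ 1 := by
      have h5 : 1 / (C3 + 1) ≤ 1 := by rw [div_le_one (by positivity)]; linarith
      have h6 : 0 ≤ 1 / (C3 + 1) := by positivity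
      calc (1 / (C3 + 1)) ^ 3 * C3 = (1 / (C3 + 1)) ^ 2 * ((1 / (C3 + 1)) * C3) := by ring
        _ ≤ 1 ^ 2 * 1 := by
          apply mul_le_mul (pow_le_pow_left₀ h6 h5 2) _ (by positivity) (by norm_num)
          rw [one_div, inv_mul_le_iff₀ (by positivity)]
          linarith
        _ = 1 := by norm_num
    calc C3 * Real.log X ^ 3 ≤ C3 * ((1 / (C3 + 1)) ^ 3 * X ^ (1 / 100 : ℝ)) := by gcongr
      _ = ((1 / (C3 + 1)) ^ 3 * C3) * X ^ (1 / 100 : ℝ) := by ring
      _ ≤ 1 * X ^ (1 / 100 : ℝ) := by gcongr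
      _ = _ := one_mul _
  have ev2 : ∀ᶠ X : ℝ in atTop, C0 * X ^ (-(1 / 2) : ℝ) ≤ 1 / 4 := by
    have h1 := (tendsto_rpow_neg_atTop (y := 1 / 2) (by norm_num)).const_mul C0
    rw [mul_zero] at h1
    exact h1.eventually (eventually_le_nhds (by positivity))
  obtain ⟨X1, hX1⟩ := eventually_atTop.1 (ev1.and ev2)
  refine ⟨max (max X0 X1) (max (Real.exp 40) (max (Real.exp (7 * K ^ 3)) (K + 2))), ?_⟩
  intro X hX A B p q H H1 H2 hH hpq hqp hBB dA dB hA cA cB
  have hXX0 : X0 ≤ X := ((le_max_left _ _).trans (le_max_left _ _)).trans hX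
  have hXX1 : X1 ≤ X := ((le_max_right _ _).trans (le_max_left _ _)).trans hX
  have hXe : Real.exp 40 ≤ X := ((le_max_left _ _).trans (le_max_right _ _)).trans hX
  have hXK : Real.exp (7 * K ^ 3) ≤ X :=
    (((le_max_left _ _).trans (le_max_right _ _)).trans (le_max_right _ _)).trans hX
  have hXK2 : K + 2 ≤ X :=
    (((le_max_right _ _).trans (le_max_right _ _)).trans (le_max_right _ _)).trans hX
  obtain ⟨e1, e2⟩ := hX1 X hXX1
  have hX0 : 0 < X := (Real.exp_pos _).trans_le hXe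
  obtain ⟨L, hL⟩ : ∃ L : ℝ, L = Real.log X := ⟨_, rfl⟩
  rw [← hL] at dA dB cB e1
  have hL40 : 40 ≤ L := by rw [hL, Real.le_log_iff_exp_le hX0]; exact hXe
  have hLK : 7 * K ^ 3 ≤ L := by rw [hL, Real.le_log_iff_exp_le hX0]; exact hXK
  have hL0 : 0 < L := by linarith
  have hL1 : 1 ≤ L := by linarith
  have hX1' : 1 ≤ X := by linarith
  obtain ⟨n, hn⟩ : ∃ n : ℝ, n = (A.card : ℝ) * B.card := ⟨_, rfl⟩
  have hApos : 0 < (A.card : ℝ) := (Real.rpow_pos_of_pos hX0 _).trans_le cA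
  have hBpos : 0 < (B.card : ℝ) := lt_of_lt_of_le (by positivity) cB
  have hn0 : 0 < n := by rw [hn]; positivity
  have hcard : (((A ×ˢ B).card : ℕ) : ℝ) = n := by
    rw [Finset.card_product, hn]; push_cast; rfl
  obtain ⟨N, hN⟩ : ∃ N : ℕ, N = ⌈K * X⌉₊ := ⟨_, rfl⟩
  have hN1 : K * X ≤ N := by rw [hN]; exact Nat.le_ceil _
  have hN2 : (N : ℝ) ≤ K * X + 1 := by
    rw [hN]; exact (Nat.ceil_lt_add_one (by positivity)).le
  have hlogN : 2 + Real.log (N + 1) ≤ 4 * L := by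
    have h1 : (N : ℝ) + 1 ≤ X ^ 2 := by
      calc (N : ℝ) + 1 ≤ K * X + 2 := by linarith
        _ ≤ K * X + 2 * X := by linarith
        _ = (K + 2) * X := by ring
        _ ≤ X * X := by gcongr
        _ = X ^ 2 := by ring
    have h2 := Real.log_le_log (by positivity) h1
    rw [Real.log_pow, ← hL] at h2
    push_cast at h2
    linarith
  have hlogN0 : 0 ≤ 2 + Real.log ((N : ℝ) + 1) := by
    have : 0 ≤ Real.log ((N : ℝ) + 1) :=
      Real.log_nonneg (by linarith [(Nat.cast_nonneg N : (0 : ℝ) ≤ N)])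
    linarith
  have hBN : ∀ b ∈ B, ∀ b' ∈ B, |b - b'| ≤ N := by
    intro b hb b' hb'
    exact (hBB b hb b' hb').trans hN1
  obtain ⟨R, hR⟩ : ∃ R : ℝ, R = Real.sqrt (C2 * L ^ 6 * X * n) := ⟨_, rfl⟩
  have hR0 : 0 ≤ R := by rw [hR]; exact Real.sqrt_nonneg _
  have hgood : ∀ (C' : ℝ) (c c1 c2 : ℝ → ℝ → ℂ) (F F1 F2 : ℝ → ℝ → ℝ), 1 ≤ C' → K ≤ C' →
      C' ≤ C → Good C' L X p q B c c1 c2 F F1 F2 →
      ‖∑ z ∈ A ×ˢ B, c z.2 z.1 * cexp (I * (F z.2 z.1 : ℂ))‖ ≤ R := by
    intro C' c c1 c2 F F1 F2 hC'1 hKC' hC'C hg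
    have h1 := bil C' L X hC'1 hL1 hX1' A B p q c c1 c2 F F1 F2 hg hpq
      (hqp.trans (mul_le_mul_of_nonneg_right hKC' hX0.le)) (K * L) (K * L) dA dB N hA hBN
    rw [← hn] at h1
    rw [hR, Finset.sum_product]
    apply Real.le_sqrt_of_sq_le
    refine h1.trans ?_
    have hC'0 : 0 < C' := by linarith
    calc 4 * (K * L) * (3 * (K * L) * (2 + Real.log (N + 1))) * (34 * C' ^ 8 * L ^ 3 * X) * n
        ≤ 4 * (K * L) * (3 * (K * L) * (4 * L)) * (34 * C ^ 8 * L ^ 3 * X) * n := by gcongr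
      _ = C2 * L ^ 6 * X * n := by rw [hC2]; ring
  have hmemPQ : ∀ z ∈ A ×ˢ B, z.2 ∈ B ∧ z.1 ∈ Icc p q := by
    intro z hz
    rw [Finset.mem_product] at hz
    have h1 := hA z.1 hz.1
    exact ⟨hz.2, by linarith, by linarith⟩
  have hf := hfirst X L hXX0 hL (A ×ˢ B) (fun z => H z.2 z.1) R hR0
    (fun z hz => ⟨hH.lo _ (hmemPQ z hz).1 _ (hmemPQ z hz).2,
      hH.hi _ (hmemPQ z hz).1 _ (hmemPQ z hz).2⟩)
    (by
      intro l hl1 hl2
      have h1 := hgood (2 * K) (fun _ _ => 1) (fun _ _ => 0) (fun _ _ => 0)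
        (fun b x => -l * H b x)
        (fun b x => -l * H1 b x) (fun b x => -l * H2 b x) (by linarith)
        (by linarith) hKC (good_plain K L X p q l B hK hX1' hl1 hl2 H H1 H2 hH)
      simp only [one_mul] at h1
      exact h1)
    (by
      intro μ y hμ hy
      obtain ⟨c1, c2, F1, F2, hg⟩ := good_dual K L X p q y μ B hK hX1' hL hL40 hLK hy hμ
        H H1 H2 hH
      rw [← hC] at hg
      exact hgood C _ c1 c2 _ F1 F2 hC1 (by linarith) le_rfl hg)
  refine hf.trans ?_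
  rw [hcard, ← hn]
  have hR1 : C0 * (X ^ (13 / 50 : ℝ) * R) ≤ 1 / 4 * n := by
    have h1 : R = Real.sqrt C2 * L ^ 3 * X ^ (1 / 2 : ℝ) * Real.sqrt n := by
      rw [hR, Real.sqrt_mul (by positivity), Real.sqrt_mul (by positivity),
        Real.sqrt_mul hC20.le, ← Real.sqrt_eq_rpow]
      congr 3
      have : L ^ 6 = (L ^ 3) ^ 2 := by ring
      rw [this, Real.sqrt_sq (by positivity)]
    have h2 : Real.sqrt η * X ^ (77 / 100 : ℝ) ≤ Real.sqrt n := by
      apply Real.le_sqrt_of_sq_le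
      rw [mul_pow, Real.sq_sqrt hη.le, ← Real.rpow_natCast (X ^ (77 / 100 : ℝ)),
        ← Real.rpow_mul hX0.le]
      have e3 : (77 / 100 * ((2 : ℕ) : ℝ) : ℝ) = 27 / 50 + 1 := by norm_num
      rw [e3, Real.rpow_add hX0, Real.rpow_one, hn]
      calc η * (X ^ (27 / 50 : ℝ) * X) = X ^ (27 / 50 : ℝ) * (η * X * 1) := by ring
        _ ≤ X ^ (27 / 50 : ℝ) * (η * X * L) := by gcongr
        _ ≤ A.card * B.card := mul_le_mul cA cB (by positivity) (Nat.cast_nonneg _)
    have hnn : n = Real.sqrt n * Real.sqrt n := (Real.mul_self_sqrt hn0.le).symm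
    rw [h1]
    have h3 : X ^ (13 / 50 : ℝ) * X ^ (1 / 2 : ℝ) * X ^ (1 / 100 : ℝ) = X ^ (77 / 100 : ℝ) := by
      rw [← Real.rpow_add hX0, ← Real.rpow_add hX0]; norm_num
    have h4 : C0 * Real.sqrt C2 * L ^ 3 = C3 * L ^ 3 * (Real.sqrt η / 4) := by
      rw [hC3]; field_simp
    calc C0 * (X ^ (13 / 50 : ℝ) * (Real.sqrt C2 * L ^ 3 * X ^ (1 / 2 : ℝ) * Real.sqrt n)) =
          (C0 * Real.sqrt C2 * L ^ 3) * (X ^ (13 / 50 : ℝ) * X ^ (1 / 2 : ℝ)) * Real.sqrt n := by
          ring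
      _ = (C3 * L ^ 3) * (Real.sqrt η / 4) * (X ^ (13 / 50 : ℝ) * X ^ (1 / 2 : ℝ)) *
            Real.sqrt n := by rw [h4]
      _ ≤ X ^ (1 / 100 : ℝ) * (Real.sqrt η / 4) * (X ^ (13 / 50 : ℝ) * X ^ (1 / 2 : ℝ)) *
            Real.sqrt n := by gcongr
      _ = 1 / 4 * (Real.sqrt η * (X ^ (13 / 50 : ℝ) * X ^ (1 / 2 : ℝ) * X ^ (1 / 100 : ℝ))) *
            Real.sqrt n := by ring
      _ = 1 / 4 * (Real.sqrt η * X ^ (77 / 100 : ℝ)) * Real.sqrt n := by rw [h3]
      _ ≤ 1 / 4 * Real.sqrt n * Real.sqrt n := by gcongr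
      _ = 1 / 4 * (Real.sqrt n * Real.sqrt n) := by ring
      _ = 1 / 4 * n := by rw [← hnn]
  have hR2 : C0 * (X ^ (-(1 / 2) : ℝ) * n) ≤ 1 / 4 * n := by
    calc C0 * (X ^ (-(1 / 2) : ℝ) * n) = (C0 * X ^ (-(1 / 2) : ℝ)) * n := by ring
      _ ≤ 1 / 4 * n := mul_le_mul_of_nonneg_right e2 hn0.le
  rw [mul_add]
  linarith

/-- larger windows -/
lemma cover (B : Finset ℝ) (r K : ℝ) (hr : 0 < r)
    (h : ∀ y : ℝ, ((B.filter (fun b => |b - y| ≤ r)).card : ℝ) ≤ K) (N : ℕ) :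
    ∀ y : ℝ, ((B.filter (fun b => |b - y| ≤ N * r)).card : ℝ) ≤ (2 * N + 1) * K := by
  classical
  induction N with
  | zero =>
    intro y
    have h1 : B.filter (fun b => |b - y| ≤ ((0 : ℕ) : ℝ) * r) ⊆ B.filter (fun b => |b - y| ≤ r) := by
      intro b hb
      rw [Finset.mem_filter] at hb ⊢
      refine ⟨hb.1, hb.2.trans ?_⟩
      rw [Nat.cast_zero, zero_mul]
      exact hr.le
    have h2 : ((B.filter (fun b => |b - y| ≤ ((0 : ℕ) : ℝ) * r)).card : ℝ) ≤ K :=
      le_trans (by exact_mod_cast Finset.card_le_card h1) (h y)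
    refine h2.trans (le_of_eq ?_)
    simp
  | succ N ih =>
    intro y
    have h1 : B.filter (fun b => |b - y| ≤ ((N + 1 : ℕ) : ℝ) * r) ⊆
        B.filter (fun b => |b - y| ≤ N * r) ∪
        (B.filter (fun b => |b - (y + (N + 1) * r)| ≤ r) ∪
          B.filter (fun b => |b - (y - (N + 1) * r)| ≤ r)) := by
      intro b hb
      rw [Finset.mem_filter] at hb
      rw [Finset.mem_union, Finset.mem_union, Finset.mem_filter, Finset.mem_filter,
        Finset.mem_filter]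
      obtain ⟨hb1, hb2⟩ := hb
      push_cast at hb2
      obtain ⟨h3, h4⟩ := abs_le.1 hb2
      rcases le_or_gt (|b - y|) (N * r) with h5 | h5
      · left; exact ⟨hb1, h5⟩
      · right
        rcases lt_abs.1 h5 with h6 | h6
        · left
          refine ⟨hb1, ?_⟩
          rw [abs_le]
          constructor <;> nlinarith
        · right
          refine ⟨hb1, ?_⟩
          rw [abs_le]
          constructor <;> nlinarith
    have h2 := (Finset.card_le_card h1).trans ((Finset.card_union_le _ _).trans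
      (add_le_add le_rfl (Finset.card_union_le _ _)))
    have h3 : ((B.filter (fun b => |b - y| ≤ ((N + 1 : ℕ) : ℝ) * r)).card : ℝ) ≤
        ((B.filter (fun b => |b - y| ≤ N * r)).card : ℝ) +
        (((B.filter (fun b => |b - (y + (N + 1) * r)| ≤ r)).card : ℝ) +
          ((B.filter (fun b => |b - (y - (N + 1) * r)| ≤ r)).card : ℝ)) := by exact_mod_cast h2
    have h4 := ih y
    have h5 := h (y + (N + 1) * r)
    have h6 := h (y - (N + 1) * r)
    push_cast at h3 ⊢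
    linarith

theorem pairH (K η : ℝ) (hK : 1 ≤ K) (hη : 0 < η) : ∃ c X1 : ℝ, 0 < c ∧ c ≤ 1 ∧ ∀ X : ℝ, X1 ≤ X →
    ∀ (A B : Finset ℝ) (p q : ℝ) (H H1 H2 : ℝ → ℝ → ℝ), HH K X p q B H H1 H2 →
    p ≤ q → q - p ≤ K * X → (∀ b ∈ B, ∀ b' ∈ B, |b - b'| ≤ K * X) →
    dens A (K * Real.log X) → dens B (K * Real.log X) →
    (∀ a ∈ A, p ≤ a ∧ a + 1 ≤ q) →
    X ^ (27 / 50 : ℝ) ≤ A.card → η * X * Real.log X ≤ B.card →
    (∀ y : ℝ, ((B.filter (fun b => |b - y| ≤ 1 / Real.log X)).card : ℝ) ≤ K) →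
    ∀ G : Finset (ℝ × ℝ), (∀ p ∈ A ×ˢ B, Far (c / Real.log X) (H p.2 p.1) → p ∈ G) →
    c * (A.card * B.card) ≤ (G.card : ℝ) := by
  classical
  have hK0 : 0 < K := by linarith
  obtain ⟨C1, T1, hC1, hT1, hnear⟩ := near_zero
  obtain ⟨C2, T2, hC2, hT2, hdisc⟩ := disc_bound
  obtain ⟨X2, hfirst⟩ := firstH K η hK hη
  obtain ⟨N, hN⟩ : ∃ N : ℕ, N = ⌈2 * K⌉₊ := ⟨_, rfl⟩
  have hN1 : 2 * K ≤ N := by rw [hN]; exact Nat.le_ceil _
  obtain ⟨K', hK'⟩ : ∃ K' : ℝ, K' = (2 * N + 1) * K := ⟨_, rfl⟩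
  have hK'0 : 0 < K' := by rw [hK']; positivity
  obtain ⟨D, hD⟩ : ∃ D : ℝ, D = K' * C2 / η := ⟨_, rfl⟩
  have hD0 : 0 < D := by rw [hD]; positivity
  obtain ⟨D', hD'⟩ : ∃ D' : ℝ, D' = C1 * D + 1 := ⟨_, rfl⟩
  have hD'1 : 1 ≤ D' := by have : 0 < C1 * D := by positivity
                           linarith
  have hD'0 : 0 < D' := by linarith
  refine ⟨1 / (16 * D'), max (max T1 T2) (max X2 (Real.exp 10)), by positivity, ?_, ?_⟩
  · rw [div_le_one (by positivity)]; linarith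
  intro X hX A B p q H H1 H2 hH hpq hqp hBB dA dB hA cA cB hcl G hG
  have hXT1 : T1 ≤ X := ((le_max_left _ _).trans (le_max_left _ _)).trans hX
  have hXT2 : T2 ≤ X := ((le_max_right _ _).trans (le_max_left _ _)).trans hX
  have hXX2 : X2 ≤ X := ((le_max_left _ _).trans (le_max_right _ _)).trans hX
  have hXe : Real.exp 10 ≤ X := ((le_max_right _ _).trans (le_max_right _ _)).trans hX
  have hX0 : 0 < X := (Real.exp_pos _).trans_le hXe
  have hL : 10 ≤ Real.log X := (Real.le_log_iff_exp_le hX0).2 hXe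
  have hf := hfirst X hXX2 A B p q H H1 H2 hH hpq hqp hBB dA dB hA cA cB
  have hpos : 0 < η * X * Real.log X := by
    have : 0 < Real.log X := by linarith
    exact mul_pos (mul_pos hη hX0) this
  have hApos : 0 < (A.card : ℝ) := (Real.rpow_pos_of_pos hX0 _).trans_le cA
  have hBpos : 0 < (B.card : ℝ) := hpos.trans_le cB
  obtain ⟨c, hc⟩ : ∃ c : ℝ, c = 1 / (16 * D') := ⟨_, rfl⟩
  rw [← hc] at hG ⊢
  have hc0 : 0 < c := by rw [hc]; positivity
  have hc4 : c ≤ 1 / 4 := by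
    rw [hc, div_le_div_iff₀ (by positivity) (by norm_num)]; linarith
  obtain ⟨S, hS⟩ : ∃ S : Finset (ℝ × ℝ), S = A ×ˢ B := ⟨_, rfl⟩
  obtain ⟨n, hn⟩ : ∃ n : ℝ, n = (A.card : ℝ) * B.card := ⟨_, rfl⟩
  rw [← hS] at hG hf
  rw [← hn] at hf ⊢
  have hn0 : 0 < n := by rw [hn]; exact mul_pos hApos hBpos
  obtain ⟨g0, hq⟩ : ∃ g0 : ℝ × ℝ → ℝ, g0 = fun z => QQ X (H z.2 z.1) := ⟨_, rfl⟩
  obtain ⟨f, hfd⟩ : ∃ f : ℝ × ℝ → ℝ, f = fun z => ‖FF X (I * ((H z.2 z.1 : ℝ) : ℂ))‖ :=
    ⟨_, rfl⟩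
  have hX1 : 1 ≤ X := by
    have := Real.add_one_le_exp (10 : ℝ)
    linarith
  have hq0 : ∀ z, 0 ≤ g0 z := fun z => by rw [hq]; exact QQ_nonneg _ _ hX1
  have hmemA : ∀ a ∈ A, a ∈ Icc p q := by
    intro a ha
    have h1 := hA a ha
    exact ⟨by linarith, by linarith⟩
  have hPmem : ∀ z ∈ S, X ≤ H z.2 z.1 ∧ H z.2 z.1 ≤ 3 * X := by
    intro z hz
    rw [hS, Finset.mem_product] at hz
    exact ⟨hH.lo _ hz.2 _ (hmemA _ hz.1), hH.hi _ hz.2 _ (hmemA _ hz.1)⟩
  have hcardP : (S.card : ℝ) = n := by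
    rw [hS, Finset.card_product, hn]; push_cast; rfl
  -- (1)
  have s1 : ∑ z ∈ S, g0 z ≤ D * n := by
    rw [hS, Finset.sum_product]
    have h1 : ∀ a ∈ A, ∑ b ∈ B, g0 (a, b) ≤ K' * (C2 * X * Real.log X) := by
      intro a ha
      have hinj : Set.InjOn (fun b => H b a) (B : Set ℝ) := by
        intro b hb b' hb' h
        dsimp only at h
        have h2 := hH.l0 b hb b' hb' a (hmemA a ha)
        rw [h, sub_self, abs_zero, mul_zero] at h2
        have h3 := abs_nonneg (b - b')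
        have h4 : |b - b'| = 0 := le_antisymm h2 h3
        rw [abs_eq_zero] at h4
        linarith
      have h2 := hdisc X hXT2 (B.image (fun b => H b a)) 0 K' (fun z hz => by
        obtain ⟨b, hb, rfl⟩ := Finset.mem_image.1 hz
        rw [add_zero]
        exact ⟨hH.lo b hb a (hmemA a ha), hH.hi b hb a (hmemA a ha)⟩) (by
        intro y
        rcases (B.filter (fun b => |H b a - y| ≤ 1 / Real.log X)).eq_empty_or_nonempty with
          he | ⟨b0, hb0⟩
        · have h3 : (B.image (fun b => H b a)).filter (fun b => |b - y| ≤ 1 / Real.log X) = ∅ := by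
            rw [Finset.filter_eq_empty_iff]
            intro z hz hzy
            obtain ⟨b, hb, rfl⟩ := Finset.mem_image.1 hz
            have h4 : b ∈ B.filter (fun b => |H b a - y| ≤ 1 / Real.log X) :=
              Finset.mem_filter.2 ⟨hb, hzy⟩
            rw [he] at h4
            exact absurd h4 (Finset.notMem_empty _)
          rw [h3]
          simp
          exact hK'0.le
        · have hr : 0 < 1 / Real.log X := by positivity
          have h3 := cover B (1 / Real.log X) K hr hcl N b0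
          rw [← hK'] at h3
          refine le_trans ?_ h3
          have h4 : ((B.image (fun b => H b a)).filter (fun b => |b - y| ≤ 1 / Real.log X)) ⊆
              (B.filter (fun b => |b - b0| ≤ N * (1 / Real.log X))).image
                (fun b => H b a) := by
            intro z hz
            rw [Finset.mem_filter] at hz
            obtain ⟨hz1, hz2⟩ := hz
            obtain ⟨b, hb, rfl⟩ := Finset.mem_image.1 hz1
            rw [Finset.mem_image]
            refine ⟨b, ?_, rfl⟩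
            rw [Finset.mem_filter] at hb0 ⊢
            refine ⟨hb, ?_⟩
            have h5 := hH.l0 b hb b0 hb0.1 a (hmemA a ha)
            have h7 : |H b a - H b0 a| ≤ 2 * (1 / Real.log X) := by
              have e : H b a - H b0 a = (H b a - y) - (H b0 a - y) := by ring
              rw [e]
              refine (abs_sub _ _).trans ?_
              linarith [hb0.2]
            calc |b - b0| ≤ K * |H b a - H b0 a| := h5
              _ ≤ K * (2 * (1 / Real.log X)) := by gcongr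
              _ = 2 * K * (1 / Real.log X) := by ring
              _ ≤ N * (1 / Real.log X) := by gcongr
          have h5 := (Finset.card_le_card h4).trans Finset.card_image_le
          exact_mod_cast h5)
      rw [Finset.sum_image hinj] at h2
      refine le_trans (le_of_eq ?_) h2
      refine Finset.sum_congr rfl fun b _ => ?_
      rw [hq, add_zero]
    refine (Finset.sum_le_sum h1).trans ?_
    rw [Finset.sum_const, nsmul_eq_mul]
    have h3 : X * Real.log X ≤ B.card / η := by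
      rw [le_div_iff₀ hη]; linarith
    calc (A.card : ℝ) * (K' * (C2 * X * Real.log X)) = A.card * K' * C2 * (X * Real.log X) := by ring
      _ ≤ A.card * K' * C2 * (B.card / η) := mul_le_mul_of_nonneg_left h3 (by positivity)
      _ = D * n := by rw [hD, hn]; ring
  -- (2)
  have s2 : n / 2 ≤ ∑ z ∈ S, f z := by
    have h1 : ‖∑ z ∈ S, FF X (I * ((H z.2 z.1 : ℝ) : ℂ))‖ ≤ ∑ z ∈ S, f z := by
      rw [hfd]
      exact norm_sum_le S (fun z : ℝ × ℝ => FF X (I * ((H z.2 z.1 : ℝ) : ℂ)))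
    have h2 : ‖((S.card : ℕ) : ℂ)‖ = n := by
      rw [Complex.norm_natCast, hcardP]
    have h3 := norm_sub_norm_le ((S.card : ℕ) : ℂ)
      (∑ z ∈ S, FF X (I * ((H z.2 z.1 : ℝ) : ℂ)))
    rw [norm_sub_rev, h2] at h3
    linarith
  -- (3)
  obtain ⟨g, hg⟩ : ∃ g : ℝ × ℝ → ℝ, g = fun z => Real.sqrt (C1 * g0 z) := ⟨_, rfl⟩
  have hg0 : ∀ z, 0 ≤ g z := fun z => by rw [hg]; exact Real.sqrt_nonneg _
  have s3 : ∀ z ∈ S, z ∉ G → f z ≤ 4 * c * g z := by
    intro z hz hzG
    have h1 := hPmem z hz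
    rw [hfd, hg, hq]
    apply (hnear X hXT1 (H z.2 z.1) h1.1 h1.2).2 c hc0 hc4
    intro hF
    exact hzG (hG z hz hF)
  -- (4)
  have hge : ∑ z ∈ S, g z ^ 2 = C1 * ∑ z ∈ S, g0 z := by
    rw [Finset.mul_sum]
    refine Finset.sum_congr rfl fun z _ => ?_
    rw [hg]
    exact Real.sq_sqrt (mul_nonneg hC1.le (hq0 z))
  have s4 : ∑ z ∈ S, g z ≤ D' * n := by
    have h1 : (∑ z ∈ S, g z) ^ 2 ≤ (D' * n) ^ 2 := by
      calc (∑ z ∈ S, g z) ^ 2 ≤ S.card * ∑ z ∈ S, g z ^ 2 := sq_sum_le_card_mul_sum_sq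
        _ = n * (C1 * ∑ z ∈ S, g0 z) := by rw [hcardP, hge]
        _ ≤ n * (C1 * (D * n)) := by gcongr
        _ = (C1 * D) * n ^ 2 := by ring
        _ ≤ D' ^ 2 * n ^ 2 := by
          apply mul_le_mul_of_nonneg_right _ (by positivity)
          have : C1 * D ≤ D' := by rw [hD']; linarith
          nlinarith
        _ = (D' * n) ^ 2 := by ring
    exact (le_abs_self _).trans (abs_le_of_sq_le_sq h1 (by positivity))
  -- (5)
  have s5 : n / 4 ≤ ∑ z ∈ S.filter (fun z => z ∈ G), f z := by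
    have h1 : ∑ z ∈ S, f z = ∑ z ∈ S.filter (fun z => z ∈ G), f z +
        ∑ z ∈ S.filter (fun z => ¬ z ∈ G), f z := by
      rw [Finset.sum_filter_add_sum_filter_not]
    have h2 : ∑ z ∈ S.filter (fun z => ¬ z ∈ G), f z ≤ 4 * c * (D' * n) := by
      calc ∑ z ∈ S.filter (fun z => ¬ z ∈ G), f z ≤
            ∑ z ∈ S.filter (fun z => ¬ z ∈ G), 4 * c * g z := by
            apply Finset.sum_le_sum
            intro z hz
            rw [Finset.mem_filter] at hz
            exact s3 z hz.1 hz.2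
        _ ≤ ∑ z ∈ S, 4 * c * g z := by
            apply Finset.sum_le_sum_of_subset_of_nonneg (Finset.filter_subset _ _)
            intro z _ _
            exact mul_nonneg (by positivity) (hg0 z)
        _ = 4 * c * ∑ z ∈ S, g z := by rw [Finset.mul_sum]
        _ ≤ _ := mul_le_mul_of_nonneg_left s4 (by positivity)
    have h3 : 4 * c * (D' * n) = n / 4 := by rw [hc]; field_simp; norm_num
    linarith
  have hf0 : ∀ z, 0 ≤ f z := fun z => by rw [hfd]; exact norm_nonneg _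
  -- (6)
  have s6 : (n / 4) ^ 2 ≤ (G.card : ℝ) * (D' * n) := by
    calc (n / 4) ^ 2 ≤ (∑ z ∈ S.filter (fun z => z ∈ G), f z) ^ 2 :=
          pow_le_pow_left₀ (by positivity) s5 2
      _ ≤ (S.filter (fun z => z ∈ G)).card * ∑ z ∈ S.filter (fun z => z ∈ G), f z ^ 2 :=
          sq_sum_le_card_mul_sum_sq
      _ ≤ (G.card : ℝ) * (D' * n) := by
          apply mul_le_mul
          · have : (S.filter (fun z => z ∈ G)).card ≤ G.card :=
              Finset.card_le_card fun z hz => (Finset.mem_filter.1 hz).2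
            exact_mod_cast this
          · calc ∑ z ∈ S.filter (fun z => z ∈ G), f z ^ 2 ≤ ∑ z ∈ S, f z ^ 2 := by
                  apply Finset.sum_le_sum_of_subset_of_nonneg (Finset.filter_subset _ _)
                  intro z _ _
                  positivity
              _ ≤ ∑ z ∈ S, C1 * g0 z := by
                  apply Finset.sum_le_sum
                  intro z hz
                  have h1 := hPmem z hz
                  rw [hfd, hq]
                  exact (hnear X hXT1 (H z.2 z.1) h1.1 h1.2).1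
              _ = C1 * ∑ z ∈ S, g0 z := by rw [Finset.mul_sum]
              _ ≤ C1 * (D * n) := mul_le_mul_of_nonneg_left s1 hC1.le
              _ ≤ D' * n := by
                  rw [← mul_assoc]
                  apply mul_le_mul_of_nonneg_right _ hn0.le
                  rw [hD']; linarith
          · exact Finset.sum_nonneg fun z _ => by positivity
          · positivity
  have h7 : n * (n / 16) ≤ n * (G.card * D') := by
    calc n * (n / 16) = (n / 4) ^ 2 := by ring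
      _ ≤ _ := s6
      _ = _ := by ring
  have h8 : n / 16 ≤ G.card * D' := le_of_mul_le_mul_left h7 hn0
  rw [hc, div_mul_eq_mul_div, one_mul, div_le_iff₀ (by positivity)]
  linarith

end Pool.Agent.TH99.NL
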