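import Pool.Agent.TH99.NL.Main

set_option autoImplicit false

/-!
# Relations between ordinates of zeros given by a smooth function of two variables
-/

namespace Pool.Agent.TH99.NL

open Complex Filter Topology MeasureTheory Set
open Pool.Agent.TH801.TU

/-- the mean value theorem, in both orders -/
lemma mvt (P Q : ℝ) (g g' : ℝ → ℝ) (hg : ∀ x ∈ Icc P Q, HasDerivAt g (g' x) x) (s t : ℝ)
    (hs : s ∈ Icc P Q) (ht : t ∈ Icc P Q) : ∃ x ∈ Icc P Q, |g s - g t| = |g' x| * |s - t| := by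
  have key : ∀ s t : ℝ, s ∈ Icc P Q → t ∈ Icc P Q → s < t →
      ∃ x ∈ Icc P Q, |g s - g t| = |g' x| * |s - t| := by
    intro s t hs ht hst
    have hsub : Icc s t ⊆ Icc P Q := Icc_subset_Icc hs.1 ht.2
    obtain ⟨x, hx, h⟩ := exists_hasDerivAt_eq_slope g g' hst
      (fun y hy => (hg y (hsub hy)).continuousAt.continuousWithinAt)
      (fun y hy => hg y (hsub (Ioo_subset_Icc_self hy)))
    refine ⟨x, hsub (Ioo_subset_Icc_self hx), ?_⟩
    have h1 : g s - g t = g' x * (s - t) := by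
      rw [h]
      have : t - s ≠ 0 := by linarith
      field_simp
      ring
    rw [h1, abs_mul]
  rcases lt_trichotomy s t with h | h | h
  · exact key s t hs ht h
  · exact ⟨s, hs, by rw [h]; simp⟩
  · obtain ⟨x, hx, h1⟩ := key t s ht hs h
    refine ⟨x, hx, ?_⟩
    rw [abs_sub_comm, h1, abs_sub_comm s t]

/-- bounds on a compact rectangle -/
lemma bnd (a1 a2 b1 b2 : ℝ) (f : ℝ → ℝ → ℝ)
    (hf : ContinuousOn (fun z : ℝ × ℝ => f z.1 z.2) (Icc a1 a2 ×ˢ Icc b1 b2)) :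
    ∃ C : ℝ, 1 ≤ C ∧ ∀ u ∈ Icc a1 a2, ∀ v ∈ Icc b1 b2, |f u v| ≤ C := by
  obtain ⟨C, hC⟩ := (isCompact_Icc.prod isCompact_Icc).exists_bound_of_continuousOn hf
  refine ⟨max C 1, le_max_right _ _, ?_⟩
  intro u hu v hv
  exact (hC (u, v) ⟨hu, hv⟩).trans (le_max_left _ _)

lemma bnd' (a1 a2 b1 b2 : ℝ) (f : ℝ → ℝ → ℝ)
    (hf : ContinuousOn (fun z : ℝ × ℝ => f z.1 z.2) (Icc a1 a2 ×ˢ Icc b1 b2))
    (h0 : ∀ u ∈ Icc a1 a2, ∀ v ∈ Icc b1 b2, f u v ≠ 0) :
    ∃ C : ℝ, 1 ≤ C ∧ ∀ u ∈ Icc a1 a2, ∀ v ∈ Icc b1 b2, 1 ≤ C * |f u v| := by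
  obtain ⟨C, hC1, hC⟩ := bnd a1 a2 b1 b2 (fun u v => 1 / f u v) (by
    apply ContinuousOn.div continuousOn_const hf
    intro z hz
    exact h0 z.1 hz.1 z.2 hz.2)
  refine ⟨C, hC1, ?_⟩
  intro u hu v hv
  have h1 := hC u hu v hv
  have h2 : 0 < |f u v| := abs_pos.2 (h0 u hu v hv)
  rw [abs_div, abs_one, div_le_iff₀ h2] at h1
  exact h1

theorem smooth (a1 a2 b1 b2 : ℝ) (hb1 : 0 < b1) (f fu fuu fv fuv fuuv : ℝ → ℝ → ℝ)
    (du : ∀ u ∈ Icc a1 a2, ∀ v ∈ Icc b1 b2, HasDerivAt (fun u => f u v) (fu u v) u ∧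
      HasDerivAt (fun u => fu u v) (fuu u v) u)
    (dv : ∀ u ∈ Icc a1 a2, ∀ v ∈ Icc b1 b2, HasDerivAt (fun v => f u v) (fv u v) v ∧
      HasDerivAt (fun v => fu u v) (fuv u v) v ∧ HasDerivAt (fun v => fuu u v) (fuuv u v) v)
    (c0 : ContinuousOn (fun z : ℝ × ℝ => f z.1 z.2) (Icc a1 a2 ×ˢ Icc b1 b2))
    (cu : ContinuousOn (fun z : ℝ × ℝ => fu z.1 z.2) (Icc a1 a2 ×ˢ Icc b1 b2))
    (cuu : ContinuousOn (fun z : ℝ × ℝ => fuu z.1 z.2) (Icc a1 a2 ×ˢ Icc b1 b2))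
    (cv : ContinuousOn (fun z : ℝ × ℝ => fv z.1 z.2) (Icc a1 a2 ×ˢ Icc b1 b2))
    (cuv : ContinuousOn (fun z : ℝ × ℝ => fuv z.1 z.2) (Icc a1 a2 ×ˢ Icc b1 b2))
    (cuuv : ContinuousOn (fun z : ℝ × ℝ => fuuv z.1 z.2) (Icc a1 a2 ×ˢ Icc b1 b2))
    (h0 : ∀ u ∈ Icc a1 a2, ∀ v ∈ Icc b1 b2, 0 < f u v ∧ fv u v ≠ 0 ∧ fuv u v ≠ 0)
    (η : ℝ) (hη : 0 < η) : ∃ c T₁ : ℝ, 0 < c ∧ ∀ T : ℝ, T₁ ≤ T → ∀ B : Finset ℝ,
    (∀ γ ∈ B, b1 * T ≤ γ ∧ γ ≤ b2 * T ∧ riemannZeta (1 / 2 + I * (γ : ℂ)) = 0) →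
    η * T * Real.log T ≤ B.card →
    ∀ (ι : Type) (A : Finset ι) (g : ι → ℝ) (w : ℝ),
    (∀ a ∈ A, a1 * T ≤ g a ∧ g a + 1 ≤ a2 * T) →
    (∀ y : ℝ, ({a : ι | a ∈ A ∧ y ≤ g a ∧ g a < y + 1}.ncard : ℝ) ≤ w) →
    ({a : ι | a ∈ A ∧ ({γ : ℝ | γ ∈ B ∧ Far (c / Real.log T) (T * f (g a / T) (γ / T))}.ncard : ℝ) <
      c * B.card}.ncard : ℝ) ≤ w * T ^ (11 / 20 : ℝ) := by
  obtain ⟨C1, hC1, k1⟩ := bnd a1 a2 b1 b2 f c0
  obtain ⟨C2, hC2, k2⟩ := bnd a1 a2 b1 b2 fu cu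
  obtain ⟨C3, hC3, k3⟩ := bnd a1 a2 b1 b2 fuu cuu
  obtain ⟨C4, hC4, k4⟩ := bnd a1 a2 b1 b2 fv cv
  obtain ⟨C5, hC5, k5⟩ := bnd a1 a2 b1 b2 fuv cuv
  obtain ⟨C6, hC6, k6⟩ := bnd a1 a2 b1 b2 fuuv cuuv
  obtain ⟨C7, hC7, k7⟩ := bnd' a1 a2 b1 b2 f c0 (fun u hu v hv => (h0 u hu v hv).1.ne')
  obtain ⟨C8, hC8, k8⟩ := bnd' a1 a2 b1 b2 fv cv (fun u hu v hv => (h0 u hu v hv).2.1)
  obtain ⟨C9, hC9, k9⟩ := bnd' a1 a2 b1 b2 fuv cuv (fun u hu v hv => (h0 u hu v hv).2.2)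
  obtain ⟨K, hK⟩ : ∃ K : ℝ, K = C1 + C2 + C3 + C4 + C5 + C6 + C8 + C9 + |a2 - a1| + |b2| :=
    ⟨_, rfl⟩
  have z1 := abs_nonneg (a2 - a1)
  have z2 := abs_nonneg b2
  have hK0 : 0 < K := by rw [hK]; linarith
  have hC70 : 0 < C7 := by linarith
  obtain ⟨η0, hη0⟩ : ∃ η0 : ℝ, η0 = min η (1 / C7) := ⟨_, rfl⟩
  have hη00 : 0 < η0 := by rw [hη0]; exact lt_min hη (by positivity)
  have hη0η : η0 ≤ η := by rw [hη0]; exact min_le_left _ _
  have hη0C : η0 ≤ 1 / C7 := by rw [hη0]; exact min_le_right _ _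
  obtain ⟨c, T1, hc, h⟩ := exc2 K η0 hη00
  refine ⟨c, max T1 3, hc, ?_⟩
  intro T hT B hB cB ι A g w hA hw
  have hTT1 : T1 ≤ T := (le_max_left _ _).trans hT
  have hT3 : 3 ≤ T := (le_max_right _ _).trans hT
  have hT0 : 0 < T := by linarith
  have hL0 : 0 < Real.log T := Real.log_pos (by linarith)
  have hv : ∀ γ ∈ B, γ / T ∈ Icc b1 b2 := by
    intro γ hγ
    have h1 := hB γ hγ
    exact ⟨by rw [le_div_iff₀ hT0]; exact h1.1, by rw [div_le_iff₀ hT0]; exact h1.2.1⟩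
  have hu : ∀ u ∈ Icc (a1 * T) (a2 * T), u / T ∈ Icc a1 a2 := by
    intro u hu
    exact ⟨by rw [le_div_iff₀ hT0]; exact hu.1, by rw [div_le_iff₀ hT0]; exact hu.2⟩
  have hdT : ∀ b b' : ℝ, |b / T - b' / T| = |b - b'| / T := by
    intro b b'
    rw [← sub_div, abs_div, abs_of_pos hT0]
  have hF : Fam K η0 T (a1 * T) (a2 * T) B (fun b u => T * f (u / T) (b / T))
      (fun b u => fu (u / T) (b / T)) (fun b u => fuu (u / T) (b / T) / T) := by
    have hid : ∀ u : ℝ, HasDerivAt (fun u : ℝ => u / T) (1 / T) u := fun u =>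
      (hasDerivAt_id u).div_const T
    refine ⟨?_, ?_, ?_, ?_, ?_, ?_, ?_, ?_, ?_, ?_, ?_, ?_⟩
    · intro b hb u hu'
      have h1 := ((du (u / T) (hu u hu') (b / T) (hv b hb)).1.comp u (hid u)).const_mul T
      refine h1.congr_deriv ?_
      field_simp
    · intro b hb u hu'
      have h1 := (du (u / T) (hu u hu') (b / T) (hv b hb)).2.comp u (hid u)
      refine h1.congr_deriv ?_
      ring
    · intro b hb
      apply ContinuousOn.div_const
      have h1 : ContinuousOn (fun u : ℝ => ((u / T, b / T) : ℝ × ℝ)) (Icc (a1 * T) (a2 * T)) := by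
        fun_prop
      exact cuu.comp h1 (fun u hu' => ⟨hu u hu', hv b hb⟩)
    · intro b hb u hu'
      have h1 := k7 (u / T) (hu u hu') (b / T) (hv b hb)
      rw [abs_of_pos (h0 (u / T) (hu u hu') (b / T) (hv b hb)).1] at h1
      have h2 : η0 ≤ f (u / T) (b / T) := by
        refine hη0C.trans ?_
        rw [div_le_iff₀ hC70]; linarith
      calc η0 * T ≤ f (u / T) (b / T) * T := mul_le_mul_of_nonneg_right h2 hT0.le
        _ = _ := mul_comm _ _
    · intro b hb u hu'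
      have h1 := (le_abs_self _).trans (k1 (u / T) (hu u hu') (b / T) (hv b hb))
      calc T * f (u / T) (b / T) ≤ T * K := by
            apply mul_le_mul_of_nonneg_left _ hT0.le
            rw [hK]; linarith
        _ = _ := mul_comm _ _
    · intro b hb u hu'
      have h1 := k2 (u / T) (hu u hu') (b / T) (hv b hb)
      rw [hK]; linarith
    · intro b hb u hu'
      have h1 := k3 (u / T) (hu u hu') (b / T) (hv b hb)
      rw [abs_div, abs_of_pos hT0]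
      apply div_le_div_of_nonneg_right _ hT0.le
      rw [hK]; linarith
    · intro b hb b' hb' u hu'
      obtain ⟨x, hx, e⟩ := mvt b1 b2 (fun v => f (u / T) v) (fun v => fv (u / T) v)
        (fun v hv => (dv (u / T) (hu u hu') v hv).1) (b / T) (b' / T) (hv b hb) (hv b' hb')
      rw [← mul_sub, abs_mul, abs_of_pos hT0, e, hdT]
      have h1 := k8 (u / T) (hu u hu') x hx
      have h2 : 1 ≤ K * |fv (u / T) x| := by
        refine h1.trans (mul_le_mul_of_nonneg_right ?_ (abs_nonneg _))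
        rw [hK]; linarith
      calc |b - b'| = 1 * |b - b'| := (one_mul _).symm
        _ ≤ K * |fv (u / T) x| * |b - b'| := mul_le_mul_of_nonneg_right h2 (abs_nonneg _)
        _ = _ := by field_simp
    · intro b hb b' hb' u hu'
      obtain ⟨x, hx, e⟩ := mvt b1 b2 (fun v => f (u / T) v) (fun v => fv (u / T) v)
        (fun v hv => (dv (u / T) (hu u hu') v hv).1) (b / T) (b' / T) (hv b hb) (hv b' hb')
      rw [← mul_sub, abs_mul, abs_of_pos hT0, e, hdT]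
      have h1 := k4 (u / T) (hu u hu') x hx
      calc T * (|fv (u / T) x| * (|b - b'| / T)) = |fv (u / T) x| * |b - b'| := by field_simp
        _ ≤ K * |b - b'| := by
          apply mul_le_mul_of_nonneg_right _ (abs_nonneg _)
          rw [hK]; linarith
    · intro b hb b' hb' u hu'
      obtain ⟨x, hx, e⟩ := mvt b1 b2 (fun v => fu (u / T) v) (fun v => fuv (u / T) v)
        (fun v hv => (dv (u / T) (hu u hu') v hv).2.1) (b / T) (b' / T) (hv b hb) (hv b' hb')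
      rw [e, hdT]
      have h1 := k9 (u / T) (hu u hu') x hx
      have h2 : 1 ≤ K * |fuv (u / T) x| := by
        refine h1.trans (mul_le_mul_of_nonneg_right ?_ (abs_nonneg _))
        rw [hK]; linarith
      calc |b - b'| = 1 * |b - b'| := (one_mul _).symm
        _ ≤ K * |fuv (u / T) x| * |b - b'| := mul_le_mul_of_nonneg_right h2 (abs_nonneg _)
        _ = _ := by field_simp
    · intro b hb b' hb' u hu'
      obtain ⟨x, hx, e⟩ := mvt b1 b2 (fun v => fu (u / T) v) (fun v => fuv (u / T) v)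
        (fun v hv => (dv (u / T) (hu u hu') v hv).2.1) (b / T) (b' / T) (hv b hb) (hv b' hb')
      rw [e, hdT]
      have h1 := k5 (u / T) (hu u hu') x hx
      calc |fuv (u / T) x| * (|b - b'| / T) ≤ K * (|b - b'| / T) := by
            apply mul_le_mul_of_nonneg_right _ (by positivity)
            rw [hK]; linarith
        _ = _ := by ring
    · intro b hb b' hb' u hu'
      obtain ⟨x, hx, e⟩ := mvt b1 b2 (fun v => fuu (u / T) v) (fun v => fuuv (u / T) v)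
        (fun v hv => (dv (u / T) (hu u hu') v hv).2.2) (b / T) (b' / T) (hv b hb) (hv b' hb')
      rw [← sub_div, abs_div, abs_of_pos hT0, e, hdT]
      have h1 := k6 (u / T) (hu u hu') x hx
      calc |fuuv (u / T) x| * (|b - b'| / T) / T ≤ K * (|b - b'| / T) / T := by
            apply div_le_div_of_nonneg_right _ hT0.le
            apply mul_le_mul_of_nonneg_right _ (by positivity)
            rw [hK]; linarith
        _ = _ := by ring
  have hKb : b2 ≤ K := by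
    have := le_abs_self b2
    rw [hK]; linarith
  exact h T hTT1 B (fun γ hγ => ⟨lt_of_lt_of_le (by positivity) (hB γ hγ).1,
      (hB γ hγ).2.1.trans (mul_le_mul_of_nonneg_right hKb hT0.le), (hB γ hγ).2.2⟩)
    (le_trans (by gcongr) cB) (a1 * T) (a2 * T) _ _ _ (by
      have h1 := le_abs_self (a2 - a1)
      calc a2 * T - a1 * T = (a2 - a1) * T := by ring
        _ ≤ K * T := by
          apply mul_le_mul_of_nonneg_right _ hT0.le
          rw [hK]; linarith) hF ι A g w hA hw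

end Pool.Agent.TH99.NL
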